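import Pool.Agent.H95.SD.Fin
import Pool.Graph.R_pool_sql_team_seeded_843ab51a.V11199.SD.Main

set_option autoImplicit false

/-! # The Fourier coefficients for arbitrary `x`, and an inequality for even `n` -/

open Finset

namespace Pool.Agent.H95.SD

open Pool.Agent.V11199.SD (qj qj_eq char_sum order_pos order_dvd char_sum_eq n_ne norm_char)

/-- the essential part of the Fourier coefficient -/
noncomputable def Wx (n k : ℕ) [NeZero n] (x v : ZMod n) : ℂ :=
  ∑ i ∈ range k, ∑ a ∈ (univ : Finset (ZMod n)).filter (fun a => ((i + 1 : ℕ) : ZMod n) * a = v),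
    (ZMod.stdAddChar (-(a * x)) : ℂ) * (eps n (addOrderOf a) (k - 1 - i) : ℂ)

lemma dg_fourx {n : ℕ} [NeZero n] (k : ℕ) (x y : ZMod n) :
    (n : ℂ) * (dg n k x y : ℂ) =
      ∑ a : ZMod n, (ZMod.stdAddChar (-(a * x)) : ℂ) * qy n a y k := by
  unfold qy
  simp_rw [Finset.mul_sum]
  rw [Finset.sum_comm]
  have h1 : ∀ T : Finset (ZMod n), ∑ a : ZMod n, (ZMod.stdAddChar (-(a * x)) : ℂ) *
      ∏ t ∈ T, (ZMod.stdAddChar (a * t) : ℂ) =
      if ∑ t ∈ T, t = x then (n : ℂ) else 0 := by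
    intro T
    have h2 : (∑ t ∈ T, t = x) ↔ (∑ t ∈ T, t) - x = 0 := sub_eq_zero.symm
    simp only [h2]
    rw [← char_sum_eq]
    refine Finset.sum_congr rfl fun a _ => ?_
    rw [← char_sum, ← AddChar.map_add_eq_mul]
    congr 1
    rw [← Finset.mul_sum]
    ring
  simp_rw [h1]
  rw [← Finset.sum_filter, Finset.sum_const, nsmul_eq_mul, mul_comm]
  congr 2
  unfold dg blk
  rw [Finset.filter_filter, Finset.filter_filter]
  congr 1
  ext T
  simp only [mem_filter]
  tauto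

/-- the constant -/
noncomputable def K0x (n k : ℕ) [NeZero n] (x : ZMod n) : ℂ :=
  ∑ a : ZMod n, ∑ i ∈ range k, (ZMod.stdAddChar (-(a * x)) : ℂ) * ((-1) ^ i * qj n a 0 (k - 1 - i))

lemma hatx {n k : ℕ} [NeZero n] (hk : k ≤ n) (x v : ZMod n) :
    (n : ℂ) * ∑ y ∈ (univ : Finset (ZMod n)).erase 0, (dg n k x y : ℂ) *
      (ZMod.stdAddChar (v * y) : ℂ) =
        (n : ℂ) * ((-1) ^ (k - 1) * Wx n k x (-v)) - K0x n k x := by
  rw [Finset.mul_sum]
  have h1 : ∀ y ∈ (univ : Finset (ZMod n)).erase 0, (n : ℂ) * ((dg n k x y : ℂ) *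
      (ZMod.stdAddChar (v * y) : ℂ)) = ∑ a : ZMod n, ∑ i ∈ range k,
        (ZMod.stdAddChar (-(a * x)) : ℂ) * ((-1) ^ i *
        qj n a 0 (k - 1 - i)) * (ZMod.stdAddChar ((v + ((i + 1 : ℕ) : ZMod n) * a) * y) : ℂ) := by
    intro y hy
    rw [← mul_assoc, dg_fourx, Finset.sum_mul]
    refine Finset.sum_congr rfl fun a _ => ?_
    rw [qy_eq a (mem_erase.1 hy).1, Finset.mul_sum, Finset.sum_mul]
    refine Finset.sum_congr rfl fun i _ => ?_
    have h2 : (ZMod.stdAddChar ((v + ((i + 1 : ℕ) : ZMod n) * a) * y) : ℂ) =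
        (ZMod.stdAddChar (((i + 1 : ℕ) : ZMod n) * a * y) : ℂ) *
          (ZMod.stdAddChar (v * y) : ℂ) := by
      rw [← AddChar.map_add_eq_mul]
      congr 1
      ring
    rw [h2]
    ring
  rw [Finset.sum_congr rfl h1, Finset.sum_comm]
  have h3 : ∀ a : ZMod n, ∑ y ∈ (univ : Finset (ZMod n)).erase 0, ∑ i ∈ range k,
      (ZMod.stdAddChar (-(a * x)) : ℂ) * ((-1) ^ i *
      qj n a 0 (k - 1 - i)) * (ZMod.stdAddChar ((v + ((i + 1 : ℕ) : ZMod n) * a) * y) : ℂ) =
      ∑ i ∈ range k, ((n : ℂ) * (if v + ((i + 1 : ℕ) : ZMod n) * a = 0 then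
        (-1) ^ (k - 1) * ((ZMod.stdAddChar (-(a * x)) : ℂ) *
          (eps n (addOrderOf a) (k - 1 - i) : ℂ)) else 0) -
          (ZMod.stdAddChar (-(a * x)) : ℂ) * ((-1) ^ i * qj n a 0 (k - 1 - i))) := by
    intro a
    rw [Finset.sum_comm]
    refine Finset.sum_congr rfl fun i hi => ?_
    have hi' := mem_range.1 hi
    rw [← Finset.mul_sum, sum_erase]
    split_ifs with h
    · rw [qj_zero a (by omega)]
      have h4 : ((-1 : ℂ)) ^ (k - 1) = (-1) ^ i * (-1) ^ (k - 1 - i) := by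
        rw [← pow_add]
        congr 1
        omega
      rw [h4]
      ring
    · ring
  rw [Finset.sum_congr rfl fun a _ => h3 a]
  simp_rw [Finset.sum_sub_distrib, ← Finset.mul_sum]
  unfold K0x
  simp_rw [← Finset.mul_sum]
  congr 2
  unfold Wx
  push_cast
  rw [Finset.sum_comm, Finset.mul_sum]
  refine Finset.sum_congr rfl fun i _ => ?_
  rw [Finset.mul_sum, Finset.sum_filter]
  refine Finset.sum_congr rfl fun a _ => ?_
  have h5 : (v + ((i + 1 : ℕ) : ZMod n) * a = 0) ↔ ((i + 1 : ℕ) : ZMod n) * a = -v := by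
    rw [add_comm, add_eq_zero_iff_eq_neg]
  push_cast at h5
  simp only [h5]

lemma constx {n k : ℕ} [NeZero n] (hk : k ≤ n) {x : ZMod n} {r : ℕ}
    (hr : ∀ y : ZMod n, y ≠ 0 → dg n k x y = r) :
    ∃ c : ℂ, ∀ v : ZMod n, v ≠ 0 → Wx n k x v = c := by
  have hn : (n : ℂ) ≠ 0 := n_ne
  refine ⟨(K0x n k x - n * r) / (n * (-1) ^ (k - 1)), fun v hv => ?_⟩
  have h1 := hatx hk x (-v)
  rw [neg_neg] at h1
  have h2 : ∑ y ∈ (univ : Finset (ZMod n)).erase 0, (dg n k x y : ℂ) *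
      (ZMod.stdAddChar (-v * y) : ℂ) = -r := by
    have h3 : ∀ y ∈ (univ : Finset (ZMod n)).erase 0, (dg n k x y : ℂ) *
        (ZMod.stdAddChar (-v * y) : ℂ) = (r : ℂ) * (ZMod.stdAddChar (-v * y) : ℂ) := by
      intro y hy
      rw [hr y (mem_erase.1 hy).1]
    rw [Finset.sum_congr rfl h3, ← Finset.mul_sum, sum_erase, if_neg (neg_ne_zero.2 hv)]
    ring
  rw [h2] at h1
  rw [eq_div_iff (mul_ne_zero hn (pow_ne_zero _ (by norm_num)))]
  linear_combination -h1

/-- the Ramanujan sum -/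
noncomputable def Ram (n d : ℕ) [NeZero n] (x : ZMod n) : ℂ :=
  ∑ a ∈ (univ : Finset (ZMod n)).filter (fun a => addOrderOf a = d),
    (ZMod.stdAddChar (-(a * x)) : ℂ)

lemma Ram_le {n d : ℕ} [NeZero n] (hd : d ∣ n) (x : ZMod n) : ‖Ram n d x‖ ≤ d.totient := by
  unfold Ram
  refine (norm_sum_le _ _).trans ?_
  simp_rw [norm_char]
  rw [Finset.sum_const, card_ord hd]
  simp

lemma Ram_two {n : ℕ} [NeZero n] (hd : 2 ∣ n) (x : ZMod n) : ‖Ram n 2 x‖ = 1 := by
  have h := card_ord hd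
  rw [Nat.totient_two, card_eq_one] at h
  obtain ⟨a, ha⟩ := h
  unfold Ram
  rw [ha, sum_singleton, norm_char]

lemma sum_Wx {n k : ℕ} [NeZero n] (x : ZMod n) (r : ℕ) :
    ∑ v ∈ (univ : Finset (ZMod n)).filter (fun v => addOrderOf v = r), Wx n k x v =
      ∑ d ∈ n.divisors, Ram n d x * (HH n k d r : ℂ) := by
  unfold Wx HH
  rw [Finset.sum_comm]
  have h1 : ∀ i ∈ range k, ∑ v ∈ (univ : Finset (ZMod n)).filter (fun v => addOrderOf v = r),
      ∑ a ∈ (univ : Finset (ZMod n)).filter (fun a => ((i + 1 : ℕ) : ZMod n) * a = v),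
        (ZMod.stdAddChar (-(a * x)) : ℂ) * (eps n (addOrderOf a) (k - 1 - i) : ℂ) =
      ∑ d ∈ n.divisors, Ram n d x *
        (if Nat.gcd d (i + 1) * r = d then (eps n d (k - 1 - i) : ℂ) else 0) := by
    intro i _
    have h2 : ∀ v : ZMod n, ∑ a ∈ (univ : Finset (ZMod n)).filter
        (fun a => ((i + 1 : ℕ) : ZMod n) * a = v),
          (ZMod.stdAddChar (-(a * x)) : ℂ) * (eps n (addOrderOf a) (k - 1 - i) : ℂ) =
        ∑ a : ZMod n, if ((i + 1 : ℕ) : ZMod n) * a = v then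
          (ZMod.stdAddChar (-(a * x)) : ℂ) * (eps n (addOrderOf a) (k - 1 - i) : ℂ) else 0 :=
      fun v => Finset.sum_filter _ _
    rw [Finset.sum_congr rfl fun v _ => h2 v, Finset.sum_comm]
    simp only [Finset.sum_ite_eq, mem_filter, mem_univ, true_and, ord_mul]
    rw [← Finset.sum_fiberwise_of_maps_to (s := univ) (t := n.divisors)
      (g := fun a : ZMod n => addOrderOf a)
      (fun a _ => Nat.mem_divisors.2 ⟨order_dvd a, NeZero.ne n⟩)]
    refine Finset.sum_congr rfl fun d _ => ?_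
    unfold Ram
    rw [Finset.sum_mul]
    refine Finset.sum_congr rfl fun a ha => ?_
    rw [(mem_filter.1 ha).2]
    split_ifs <;> ring
  rw [Finset.sum_congr rfl h1, Finset.sum_comm]
  refine Finset.sum_congr rfl fun d _ => ?_
  rw [← Finset.mul_sum, ← Finset.sum_filter]
  push_cast
  rfl

/-- **The inequality for even `n`.** -/
lemma even_ineq {R k : ℕ} (hR : 0 < R) [NeZero (2 * R)] (hk : k < 2 * R) {x : ZMod (2 * R)} {r : ℕ}
    (hr : ∀ y : ZMod (2 * R), y ≠ 0 → dg (2 * R) k x y = r) :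
    |HH (2 * R) k 2 2| ≤ (Ph k (2 * R) : ℤ) +
      ∑ s ∈ R.divisors.erase 1, ((2 * s).totient : ℤ) * |HH (2 * R) k (2 * s) 2| := by
  obtain ⟨c, hc⟩ := constx hk.le hr
  have h2n : 2 ∣ 2 * R := dvd_mul_right _ _
  -- the order `n`
  have hcn : ‖c‖ ≤ Ph k (2 * R) := by
    have h1 := sum_Wx (n := 2 * R) (k := k) x (2 * R)
    have h2 : ∑ v ∈ (univ : Finset (ZMod (2 * R))).filter (fun v => addOrderOf v = 2 * R),
        Wx (2 * R) k x v = (2 * R).totient * c := by
      rw [← card_ord (n := 2 * R) dvd_rfl, ← nsmul_eq_mul, ← Finset.sum_const]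
      refine Finset.sum_congr rfl fun v hv => hc v ?_
      rintro rfl
      rw [mem_filter, addOrderOf_zero] at hv
      omega
    rw [h2, Finset.sum_eq_single (2 * R)] at h1
    · have h3 := HH_top (r := 2 * R) (s := 1) (k := k) (by omega) one_pos (by rwa [mul_one])
      rw [mul_one, Nat.div_one] at h3
      rw [h3] at h1
      have h4 : ((2 * R).totient : ℝ) * ‖c‖ ≤ (2 * R).totient * Ph k (2 * R) := by
        have h5 := congrArg norm h1
        rw [norm_mul, norm_mul] at h5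
        simp only [Complex.norm_natCast, Int.cast_natCast] at h5
        rw [h5]
        exact mul_le_mul_of_nonneg_right (Ram_le dvd_rfl x) (by positivity)
      have h6 : (0 : ℝ) < (2 * R).totient := by
        exact_mod_cast Nat.totient_pos.2 (by omega : 0 < 2 * R)
      exact le_of_mul_le_mul_left h4 h6
    · intro d hd hdn
      rw [HH_ndvd, Int.cast_zero, mul_zero]
      intro h
      exact hdn (Nat.dvd_antisymm (Nat.dvd_of_mem_divisors hd) h)
    · intro h
      exact absurd (Nat.mem_divisors.2 ⟨dvd_rfl, by omega⟩) h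
  -- the order `2`
  have h1 := sum_Wx (n := 2 * R) (k := k) x 2
  have h2 : ∑ v ∈ (univ : Finset (ZMod (2 * R))).filter (fun v => addOrderOf v = 2),
      Wx (2 * R) k x v = c := by
    have h := card_ord (n := 2 * R) h2n
    rw [Nat.totient_two, card_eq_one] at h
    obtain ⟨a, ha⟩ := h
    rw [ha, sum_singleton]
    apply hc
    rintro rfl
    have h0 : (0 : ZMod (2 * R)) ∈ (univ : Finset (ZMod (2 * R))).filter
        (fun v => addOrderOf v = 2) := by
      rw [ha]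
      exact mem_singleton_self _
    rw [mem_filter, addOrderOf_zero] at h0
    omega
  have hinj : Set.InjOn (fun s => 2 * s) (R.divisors : Set ℕ) := by
    intro a _ b _ h
    exact Nat.eq_of_mul_eq_mul_left two_pos h
  have h3 : ∑ d ∈ (2 * R).divisors, Ram (2 * R) d x * (HH (2 * R) k d 2 : ℂ) =
      ∑ s ∈ R.divisors, Ram (2 * R) (2 * s) x * (HH (2 * R) k (2 * s) 2 : ℂ) := by
    rw [← Finset.sum_image (f := fun d => Ram (2 * R) d x * (HH (2 * R) k d 2 : ℂ)) hinj]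
    symm
    apply Finset.sum_subset
    · intro d hd
      obtain ⟨s, hs, rfl⟩ := Finset.mem_image.1 hd
      exact Nat.mem_divisors.2 ⟨Nat.mul_dvd_mul_left 2 (Nat.dvd_of_mem_divisors hs), by omega⟩
    · intro d hd hd'
      rw [HH_ndvd, Int.cast_zero, mul_zero]
      rintro ⟨s, rfl⟩
      apply hd'
      refine Finset.mem_image.2 ⟨s, Nat.mem_divisors.2 ⟨?_, hR.ne'⟩, rfl⟩
      exact Nat.dvd_of_mul_dvd_mul_left two_pos (Nat.dvd_of_mem_divisors hd)
  rw [h2, h3, ← Finset.add_sum_erase _ _ (Nat.mem_divisors.2 ⟨one_dvd R, hR.ne'⟩), mul_one] at h1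
  have h4 : Ram (2 * R) 2 x * (HH (2 * R) k 2 2 : ℂ) = c -
      ∑ s ∈ R.divisors.erase 1, Ram (2 * R) (2 * s) x * (HH (2 * R) k (2 * s) 2 : ℂ) := by
    rw [h1]
    ring
  have h5 := congrArg norm h4
  rw [norm_mul, Ram_two h2n, one_mul, Complex.norm_intCast] at h5
  have h6 : |((HH (2 * R) k 2 2 : ℤ) : ℝ)| ≤ (Ph k (2 * R) : ℝ) +
      ∑ s ∈ R.divisors.erase 1, ((2 * s).totient : ℝ) * |((HH (2 * R) k (2 * s) 2 : ℤ) : ℝ)| := by
    rw [h5]
    refine (norm_sub_le _ _).trans (add_le_add hcn ((norm_sum_le _ _).trans ?_))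
    refine Finset.sum_le_sum fun s hs => ?_
    rw [norm_mul, Complex.norm_intCast]
    apply mul_le_mul_of_nonneg_right _ (abs_nonneg _)
    exact Ram_le (Nat.mul_dvd_mul_left 2 (Nat.dvd_of_mem_divisors (mem_erase.1 hs).2)) x
  exact_mod_cast h6

end Pool.Agent.H95.SD
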