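import Pool.Agent.H95.SD.EvF

set_option autoImplicit false

/-! # The case of even `n`: the inequality fails -/

open Finset

namespace Pool.Agent.H95.SD

open Pool.Agent.V11199.SD (vander choose_two_le)

lemma HH_zero {n k s : ℕ} (h : k < s) : HH n k (2 * s) 2 = 0 := by
  unfold HH
  apply Finset.sum_eq_zero
  intro i hi
  rw [mem_filter, mem_range] at hi
  exfalso
  have h1 : Nat.gcd (2 * s) (i + 1) ≤ i + 1 := Nat.gcd_le_right _ (Nat.succ_pos i)
  omega

/-- the main term -/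
lemma main_term {R k : ℕ} (hk3 : 3 ≤ k) (hk : k < R) :
    ((R - 2).choose (k / 2 - 1) : ℤ) ≤ |HH (2 * R) k 2 2| ∧
      (k % 2 = 1 → ((R - 2).choose (k / 2) : ℤ) ≤ |HH (2 * R) k 2 2|) := by
  have hv := HH_val (q := 2) (s := 1) (M := R) (k := k) Nat.prime_two one_pos (by omega)
  rw [mul_one, Nat.div_one] at hv
  obtain ⟨N, rfl⟩ : ∃ N, R = N + 2 := ⟨R - 2, by omega⟩
  have hN : (0 : ℤ) < N + 1 := by positivity
  have hc : ((N + 2 : ℕ) : ℤ) - 1 = N + 1 := by push_cast; ring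
  have habs : ((N : ℤ) + 1) * |HH (2 * (N + 2)) k 2 2| = ((N + 1).choose (k / 2) : ℤ) *
      |((N : ℤ) + 1) * ((k % 2 : ℕ) : ℤ) - ((k / 2 : ℕ) : ℤ)| := by
    rw [hc] at hv
    rw [← abs_of_pos hN, ← abs_mul, hv, abs_mul, abs_mul, abs_pow, abs_neg, abs_one, one_pow,
      one_mul, abs_of_nonneg (by positivity : (0 : ℤ) ≤ ((N + 2 - 1).choose (k / 2) : ℤ)),
      abs_of_pos hN]
    have e1 : ((2 : ℕ) : ℤ) - 1 = 1 := by norm_num
    rw [e1, one_mul]
    rfl
  rw [Nat.add_sub_cancel]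
  rcases Nat.mod_two_eq_zero_or_one k with h2 | h2
  · refine ⟨?_, fun h => by omega⟩
    rw [h2] at habs
    obtain ⟨κ, hκ⟩ : ∃ κ, k / 2 = κ + 1 := ⟨k / 2 - 1, by omega⟩
    rw [hκ] at habs ⊢
    have h4 : ((N + 1).choose (κ + 1) : ℤ) * (κ + 1) = (N + 1) * (N.choose κ : ℤ) := by
      exact_mod_cast (Nat.add_one_mul_choose_eq N κ).symm
    have h5 : |((N : ℤ) + 1) * ((0 : ℕ) : ℤ) - ((κ + 1 : ℕ) : ℤ)| = κ + 1 := by
      push_cast
      rw [mul_zero, zero_sub, abs_neg, abs_of_nonneg (by positivity)]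
    rw [h5, h4] at habs
    rw [Nat.add_sub_cancel]
    exact (mul_left_cancel₀ hN.ne' habs).ge
  · have h6 : ((N.choose (k / 2) : ℕ) : ℤ) = |HH (2 * (N + 2)) k 2 2| := by
      rw [h2] at habs
      have hκN : k / 2 ≤ N := by omega
      have h4 : ((N + 1).choose (k / 2) : ℤ) * (N + 1 - ((k / 2 : ℕ) : ℤ)) =
          (N + 1) * (N.choose (k / 2) : ℤ) := by
        have h7 := Nat.choose_mul_succ_eq N (k / 2)
        have h8 : ((N.choose (k / 2) * (N + 1) : ℕ) : ℤ) =
          (((N + 1).choose (k / 2) * (N + 1 - k / 2) : ℕ) : ℤ) := by exact_mod_cast h7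
        rw [Nat.cast_mul, Nat.cast_mul, Nat.cast_sub (by omega : k / 2 ≤ N + 1)] at h8
        push_cast at h8 ⊢
        linarith
      have h5 : |((N : ℤ) + 1) * ((1 : ℕ) : ℤ) - ((k / 2 : ℕ) : ℤ)| = N + 1 - ((k / 2 : ℕ) : ℤ) := by
        have : ((k / 2 : ℕ) : ℤ) ≤ N := by exact_mod_cast hκN
        rw [Nat.cast_one, mul_one, abs_of_nonneg (by linarith)]
      rw [h5, h4] at habs
      exact (mul_left_cancel₀ hN.ne' habs).symm
    refine ⟨?_, fun _ => h6.le⟩
    rw [← h6]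
    have := mono_choose (M := N) (a := k / 2 - 1) (j := k / 2) (by omega) (by omega)
    exact_mod_cast this

lemma tot_sum {R : ℕ} (hR : 0 < R) :
    ∑ s ∈ R.divisors.erase 1, ((2 * s).totient : ℤ) ≤ 2 * ((R : ℤ) - 1) := by
  have h5 : (∑ s ∈ R.divisors.erase 1, (s.totient : ℤ)) = R - 1 := by
    have h6 := Finset.add_sum_erase R.divisors (fun s => (s.totient : ℤ))
      (Nat.mem_divisors.2 ⟨one_dvd R, hR.ne'⟩)
    have h7 : (∑ f ∈ R.divisors, (f.totient : ℤ)) = R := by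
      exact_mod_cast Nat.sum_totient R
    rw [h7] at h6
    simp only [Nat.totient_one, Nat.cast_one] at h6
    linarith
  rw [← h5, Finset.mul_sum]
  refine Finset.sum_le_sum fun s _ => ?_
  exact_mod_cast tot_le Nat.prime_two

lemma two_bound {R s k : ℕ} (hs : 0 < s) (hsR : s ∣ R) (hR : 0 < R) (hk : k < R) :
    |HH (2 * R) k (2 * s) 2| ≤ ((R / s - 1).choose (k / 2 / s) : ℤ) := by
  obtain ⟨M, rfl⟩ := hsR
  have hM0 : 0 < M := by
    rcases Nat.eq_zero_or_pos M with h | h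
    · rw [h, mul_zero] at hR
      omega
    · exact h
  have h1 := HH_bound (q := 2) (s := s) (M := M) (k := k) Nat.prime_two hs hM0
    (by rw [mul_assoc]; omega)
  rw [mul_assoc] at h1
  rw [Nat.mul_div_cancel_left _ hs, Nat.div_div_eq_div_mul]
  refine h1.trans (le_of_eq ?_)
  norm_num

/-- large `k` -/
lemma ev_large {R k : ℕ} (hk10 : 10 ≤ k) (hk : k < R) (hR : 25 ≤ R) :
    (Ph k (2 * R) : ℤ) +
      ∑ s ∈ R.divisors.erase 1, ((2 * s).totient : ℤ) * |HH (2 * R) k (2 * s) 2| <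
      |HH (2 * R) k 2 2| := by
  have hm := (main_term (by omega : 3 ≤ k) hk).1
  set κ := k / 2 with hκ
  have hκ5 : 5 ≤ κ := by omega
  have hκR : 2 * κ ≤ R - 1 := by omega
  set C : ℤ := ((R - 2).choose (κ - 1) : ℤ) with hC
  have hRZ : (25 : ℤ) ≤ R := by exact_mod_cast hR
  have hterm : ∀ s ∈ R.divisors.erase 1, ((R : ℤ) - 2) * (R - 4) *
      |HH (2 * R) k (2 * s) 2| ≤ 8 * C := by
    intro s hs
    obtain ⟨hs1, hs2⟩ := mem_erase.1 hs
    have hs0 : 0 < s := Nat.pos_of_mem_divisors hs2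
    have hsR := Nat.dvd_of_mem_divisors hs2
    have h1 := two_bound (k := k) hs0 hsR (by omega) hk
    rw [← hκ] at h1
    have h2s : 2 ≤ s := by omega
    obtain ⟨w, hw⟩ := hsR
    have hw0 : 0 < w := by
      rcases Nat.eq_zero_or_pos w with h | h
      · rw [h, mul_zero] at hw
        omega
      · exact h
    have hRs : R / s = w := by rw [hw, Nat.mul_div_cancel_left _ hs0]
    rw [hRs] at h1
    have h3 := vander (w - 1) (R - 1 - w) (κ / s) (κ - 1 - κ / s)
    have h4 : κ / s ≤ κ / 2 := Nat.div_le_div_left h2s (by norm_num)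
    have h5 : 2 * w ≤ R := by rw [hw]; exact Nat.mul_le_mul_right w h2s
    rw [show w - 1 + (R - 1 - w) = R - 2 by omega,
      show κ / s + (κ - 1 - κ / s) = κ - 1 by omega] at h3
    have h6 : κ - 1 - κ / s + 2 ≤ R - 1 - w := by
      rcases Nat.lt_or_ge s 3 with h7 | h7
      · have : s = 2 := by omega
        subst this
        omega
      · have h8 : 3 * w ≤ R := by
          rw [hw]
          exact Nat.mul_le_mul_right w h7
        refine le_trans (Nat.add_le_add_right (Nat.sub_le (κ - 1) (κ / s)) 2) ?_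
        omega
    have h9 := choose_two_le (L := R - 1 - w) (r := κ - 1 - κ / s) (by omega) h6
    have h10 : ((w - 1).choose (κ / s) : ℤ) * ((R - 1 - w).choose 2 : ℤ) ≤ C := by
      have h11 : (w - 1).choose (κ / s) * (R - 1 - w).choose 2 ≤ (R - 2).choose (κ - 1) :=
        (Nat.mul_le_mul_left _ h9).trans h3
      rw [hC]
      exact_mod_cast h11
    have h12 : ((R : ℤ) - 2) * (R - 4) ≤ 8 * ((R - 1 - w).choose 2 : ℤ) := by
      obtain ⟨B, hB⟩ : ∃ B, R - 1 - w = B + 2 := ⟨R - 1 - w - 2, by omega⟩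
      have h13 : 2 * ((B + 2).choose 2 : ℤ) = (B + 2) * (B + 1) := by
        have h14 := Nat.add_one_mul_choose_eq (B + 1) 1
        rw [Nat.choose_one_right] at h14
        have h15 : ((B + 2 : ℕ) : ℤ) * ((B + 1 : ℕ) : ℤ) = ((B + 2).choose 2 : ℤ) * 2 := by
          exact_mod_cast h14
        push_cast at h15
        linarith
      rw [hB]
      have h16 : (R : ℤ) ≤ 2 * B + 6 := by
        have : R ≤ 2 * B + 6 := by omega
        exact_mod_cast this
      have hB0 : (0 : ℤ) ≤ B := by positivity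
      nlinarith
    have h17 : (0 : ℤ) ≤ |HH (2 * R) k (2 * s) 2| := abs_nonneg _
    have h18 : (0 : ℤ) ≤ ((R - 1 - w).choose 2 : ℤ) := by positivity
    calc ((R : ℤ) - 2) * (R - 4) * |HH (2 * R) k (2 * s) 2|
        ≤ (8 * ((R - 1 - w).choose 2 : ℤ)) * |HH (2 * R) k (2 * s) 2| :=
          mul_le_mul_of_nonneg_right h12 h17
      _ ≤ (8 * ((R - 1 - w).choose 2 : ℤ)) * ((w - 1).choose (κ / s) : ℤ) :=
          mul_le_mul_of_nonneg_left h1 (by positivity)
      _ = 8 * (((w - 1).choose (κ / s) : ℤ) * ((R - 1 - w).choose 2 : ℤ)) := by ring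
      _ ≤ 8 * C := by linarith
  have hsum : ((R : ℤ) - 2) * (R - 4) *
      ∑ s ∈ R.divisors.erase 1, ((2 * s).totient : ℤ) * |HH (2 * R) k (2 * s) 2| ≤
      8 * C * (2 * (R - 1)) := by
    have hC0 : 0 ≤ C := by positivity
    calc ((R : ℤ) - 2) * (R - 4) *
          ∑ s ∈ R.divisors.erase 1, ((2 * s).totient : ℤ) * |HH (2 * R) k (2 * s) 2|
        = ∑ s ∈ R.divisors.erase 1, ((2 * s).totient : ℤ) *
            (((R : ℤ) - 2) * (R - 4) * |HH (2 * R) k (2 * s) 2|) := by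
          rw [Finset.mul_sum]
          exact Finset.sum_congr rfl fun s _ => by ring
      _ ≤ ∑ s ∈ R.divisors.erase 1, ((2 * s).totient : ℤ) * (8 * C) :=
          Finset.sum_le_sum fun s hs => mul_le_mul_of_nonneg_left (hterm s hs) (by positivity)
      _ = 8 * C * ∑ s ∈ R.divisors.erase 1, ((2 * s).totient : ℤ) := by
          rw [← Finset.sum_mul]
          ring
      _ ≤ 8 * C * (2 * (R - 1)) :=
          mul_le_mul_of_nonneg_left (tot_sum (by omega)) (by positivity)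
  have hC2 : ((R : ℤ) - 2) * (R - 3) ≤ 2 * C := by
    have h1 := mono_choose (M := R - 2) (a := 2) (j := κ - 1) (by omega) (by omega)
    obtain ⟨B, hB⟩ : ∃ B, R = B + 4 := ⟨R - 4, by omega⟩
    have h13 : 2 * ((B + 2).choose 2 : ℤ) = (B + 2) * (B + 1) := by
      have h14 := Nat.add_one_mul_choose_eq (B + 1) 1
      rw [Nat.choose_one_right] at h14
      have h15 : ((B + 2 : ℕ) : ℤ) * ((B + 1 : ℕ) : ℤ) = ((B + 2).choose 2 : ℤ) * 2 := by
        exact_mod_cast h14
      push_cast at h15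
      linarith
    have h2 : ((R - 2).choose 2 : ℤ) ≤ C := by
      rw [hC]
      exact_mod_cast h1
    have h3 : R - 2 = B + 2 := by omega
    rw [h3] at h2
    have h4 : (R : ℤ) = B + 4 := by exact_mod_cast hB
    rw [h4]
    linarith
  set X : ℤ := ∑ s ∈ R.divisors.erase 1, ((2 * s).totient : ℤ) * |HH (2 * R) k (2 * s) 2| with hX
  have hP : (Ph k (2 * R) : ℤ) < R := by
    have h1 := Ph_le k (2 * R)
    have h2 : Ph k (2 * R) < R := by omega
    exact_mod_cast h2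
  -- the conclusion
  have hprod : (0 : ℤ) < ((R : ℤ) - 2) * (R - 4) := by nlinarith
  have key : ((R : ℤ) - 2) * (R - 4) * ((Ph k (2 * R) : ℤ) + X) < ((R : ℤ) - 2) * (R - 4) * C := by
    have h1 : ((R : ℤ) - 2) * (R - 4) * (Ph k (2 * R) : ℤ) < ((R : ℤ) - 2) * (R - 4) * R :=
      mul_lt_mul_of_pos_left hP hprod
    have h2 : ((R : ℤ) - 2) * (R - 4) * R ≤ C * (((R : ℤ) - 2) * (R - 4) - 16 * (R - 1)) := by
      have h3 : (0 : ℤ) ≤ ((R : ℤ) - 2) * (R - 4) - 16 * (R - 1) := by nlinarith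
      have h4 : ((R : ℤ) - 2) * (R - 3) * (((R : ℤ) - 2) * (R - 4) - 16 * (R - 1)) ≤
          2 * C * (((R : ℤ) - 2) * (R - 4) - 16 * (R - 1)) :=
        mul_le_mul_of_nonneg_right hC2 h3
      have h5 : 2 * (((R : ℤ) - 4) * R) ≤ (R - 3) * (((R : ℤ) - 2) * (R - 4) - 16 * (R - 1)) := by
        obtain ⟨z, hz⟩ : ∃ z : ℤ, (R : ℤ) = z + 25 := ⟨R - 25, by ring⟩
        have hz0 : 0 ≤ z := by linarith
        rw [hz]
        nlinarith [mul_nonneg hz0 hz0, mul_nonneg hz0 (mul_nonneg hz0 hz0)]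
      have h6 : ((R : ℤ) - 2) * (2 * (((R : ℤ) - 4) * R)) ≤
          (R - 2) * ((R - 3) * (((R : ℤ) - 2) * (R - 4) - 16 * (R - 1))) :=
        mul_le_mul_of_nonneg_left h5 (by linarith)
      linarith
    linarith
  have := lt_of_mul_lt_mul_left key hprod.le
  linarith

end Pool.Agent.H95.SD
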