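import Pool.Agent.H95.SD.EvI

set_option autoImplicit false

/-! # The case of even `n`: small values -/

open Finset

namespace Pool.Agent.H95.SD

lemma small_R : ∀ R ∈ Icc 4 24, ∀ k ∈ Ico 3 R,
    ¬ (R = 4 ∨ R = 6 ∨ (R = 8 ∧ k = 4)) →
    (Ph k (2 * R) : ℤ) +
      ∑ s ∈ R.divisors.erase 1, ((2 * s).totient : ℤ) * |HH (2 * R) k (2 * s) 2| <
      |HH (2 * R) k 2 2| := by
  decide +kernel

lemma sum_le_Icc {R k : ℕ} (hR : 0 < R) (hk : k < R) :
    ∑ s ∈ R.divisors.erase 1, ((2 * s).totient : ℤ) * |HH (2 * R) k (2 * s) 2| ≤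
      ∑ s ∈ Icc 2 k, (if s ∣ R then ((2 * s).totient : ℤ) * |HH (2 * R) k (2 * s) 2| else 0) := by
  rw [← Finset.sum_filter]
  apply le_of_eq
  symm
  apply Finset.sum_subset
  · intro s hs
    rw [mem_filter, mem_Icc] at hs
    rw [mem_erase, Nat.mem_divisors]
    exact ⟨by omega, hs.2, hR.ne'⟩
  · intro s hs hs'
    rw [HH_zero, abs_zero, mul_zero]
    by_contra hcon
    apply hs'
    rw [mem_erase, Nat.mem_divisors] at hs
    have hs0 : s ≠ 0 := by
      rintro rfl
      have := hs.2.1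
      rw [Nat.zero_dvd] at this
      omega
    rw [mem_filter, mem_Icc]
    exact ⟨⟨by omega, by omega⟩, hs.2.1⟩

lemma sum_le_choose {R k : ℕ} (hR : 0 < R) (hk : k < R) :
    ∑ s ∈ R.divisors.erase 1, ((2 * s).totient : ℤ) * |HH (2 * R) k (2 * s) 2| ≤
      ∑ s ∈ Icc 2 k, ((2 * s).totient : ℤ) * ((R / s - 1).choose (k / 2 / s) : ℤ) := by
  refine (sum_le_Icc hR hk).trans (Finset.sum_le_sum fun s hs => ?_)
  split_ifs with h
  · exact mul_le_mul_of_nonneg_left
      (two_bound (by rw [mem_Icc] at hs; omega) h hR hk) (by positivity)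
  · positivity

lemma choose_two_int (N : ℕ) : 2 * ((N + 2).choose 2 : ℤ) = (N + 2) * (N + 1) := by
  have h14 := Nat.add_one_mul_choose_eq (N + 1) 1
  rw [Nat.choose_one_right] at h14
  have h15 : ((N + 2 : ℕ) : ℤ) * ((N + 1 : ℕ) : ℤ) = ((N + 2).choose 2 : ℤ) * 2 := by
    exact_mod_cast h14
  push_cast at h15
  linarith

/-- small `k` -/
lemma ev_small {R k : ℕ} (hk3 : 3 ≤ k) (hk9 : k ≤ 9) (hR : 25 ≤ R) :
    (Ph k (2 * R) : ℤ) +
      ∑ s ∈ R.divisors.erase 1, ((2 * s).totient : ℤ) * |HH (2 * R) k (2 * s) 2| <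
      |HH (2 * R) k 2 2| := by
  have hkR : k < R := by omega
  obtain ⟨hm, hm2⟩ := main_term hk3 hkR
  have hP : (Ph k (2 * R) : ℤ) ≤ k := by exact_mod_cast Ph_le k (2 * R)
  have hsum := sum_le_choose (by omega : 0 < R) hkR
  have t4 : Nat.totient 4 = 2 := by decide
  have t6 : Nat.totient 6 = 2 := by decide
  have t8 : Nat.totient 8 = 4 := by decide
  have t10 : Nat.totient 10 = 4 := by decide
  have t12 : Nat.totient 12 = 4 := by decide
  have t14 : Nat.totient 14 = 6 := by decide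
  have t16 : Nat.totient 16 = 8 := by decide
  have t18 : Nat.totient 18 = 6 := by decide
  obtain ⟨N, hN⟩ : ∃ N, R = N + 4 := ⟨R - 4, by omega⟩
  have hR2 : R - 2 = N + 2 := by omega
  have hc2 := choose_two_int N
  have hNR : (R : ℤ) = N + 4 := by exact_mod_cast hN
  have hN21 : (21 : ℤ) ≤ N := by
    have : 21 ≤ N := by omega
    exact_mod_cast this
  have h2 : ((R / 2 : ℕ) : ℤ) * 2 ≤ R := by exact_mod_cast Nat.div_mul_le_self R 2
  have h3 : ((R / 3 : ℕ) : ℤ) * 3 ≤ R := by exact_mod_cast Nat.div_mul_le_self R 3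
  have h4 : ((R / 4 : ℕ) : ℤ) * 4 ≤ R := by exact_mod_cast Nat.div_mul_le_self R 4
  have g2 : ((R / 2 - 1 : ℕ) : ℤ) = ((R / 2 : ℕ) : ℤ) - 1 := by
    rw [Nat.cast_sub (by omega), Nat.cast_one]
  have g3 : ((R / 3 - 1 : ℕ) : ℤ) = ((R / 3 : ℕ) : ℤ) - 1 := by
    rw [Nat.cast_sub (by omega), Nat.cast_one]
  have g4 : ((R / 4 - 1 : ℕ) : ℤ) = ((R / 4 : ℕ) : ℤ) - 1 := by
    rw [Nat.cast_sub (by omega), Nat.cast_one]
  have hcc : ((N + 2).choose 2 : ℤ) ≤ ((N + 2).choose 3 : ℤ) := by
    exact_mod_cast mono_choose (M := N + 2) (a := 2) (j := 3) (by norm_num) (by omega)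
  rw [hR2] at hm hm2
  interval_cases k
  · -- k = 3
    have e : Icc 2 3 = {2, 3} := by decide
    rw [e] at hsum
    simp [t4, t6] at hsum
    have := hm2 (by norm_num)
    simp at this
    push_cast at hP
    linarith
  · -- k = 4
    have h5 := sum_le_Icc (by omega : 0 < R) hkR
    have e : Icc 2 4 = {2, 3, 4} := by decide
    rw [e, Finset.sum_insert (by decide), Finset.sum_insert (by decide), Finset.sum_singleton] at h5
    have b2 : (if 2 ∣ R then ((2 * 2 : ℕ).totient : ℤ) * |HH (2 * R) 4 (2 * 2) 2| else 0) ≤ 2 := by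
      split_ifs with hd
      · obtain ⟨M, hM⟩ := hd
        have hv := HH_val (q := 2) (s := 2) (M := M) (k := 4) Nat.prime_two two_pos (by omega)
        have hM1 : ((M : ℤ) - 1) ≠ 0 := by
          have : (2 : ℤ) ≤ M := by
            have : 2 ≤ M := by omega
            exact_mod_cast this
          linarith
        have hHH : HH (2 * R) 4 (2 * 2) 2 = 1 := by
          apply mul_left_cancel₀ hM1
          rw [hM, ← mul_assoc, hv]
          have : ((M - 1 : ℕ) : ℤ) = (M : ℤ) - 1 := by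
            rw [Nat.cast_sub (by omega), Nat.cast_one]
          norm_num
          rw [this]
        rw [hHH]
        simp [t4]
      · norm_num
    have b3 : (if 3 ∣ R then ((2 * 3 : ℕ).totient : ℤ) * |HH (2 * R) 4 (2 * 3) 2| else 0) ≤ 2 := by
      split_ifs with hd
      · have h6 := two_bound (s := 3) (k := 4) (by norm_num) hd (by omega) hkR
        norm_num at h6 ⊢
        rw [t6]
        push_cast
        linarith
      · norm_num
    have b4 : (if 4 ∣ R then ((2 * 4 : ℕ).totient : ℤ) * |HH (2 * R) 4 (2 * 4) 2| else 0) ≤ 4 := by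
      split_ifs with hd
      · have h6 := two_bound (s := 4) (k := 4) (by norm_num) hd (by omega) hkR
        norm_num at h6 ⊢
        rw [t8]
        push_cast
        linarith
      · norm_num
    simp at hm
    push_cast at hP
    linarith
  · -- k = 5
    have e : Icc 2 5 = {2, 3, 4, 5} := by decide
    rw [e] at hsum
    simp [t4, t6, t8, t10] at hsum
    rw [g2] at hsum
    have := hm2 (by norm_num)
    norm_num at this hP
    nlinarith
  · -- k = 6
    have e : Icc 2 6 = {2, 3, 4, 5, 6} := by decide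
    rw [e] at hsum
    simp [t4, t6, t8, t10, t12] at hsum
    rw [g2, g3] at hsum
    norm_num at hm hP
    nlinarith
  · -- k = 7
    have e : Icc 2 7 = {2, 3, 4, 5, 6, 7} := by decide
    rw [e] at hsum
    simp [t4, t6, t8, t10, t12, t14] at hsum
    rw [g2, g3] at hsum
    norm_num at hm hP
    nlinarith
  · -- k = 8
    have e : Icc 2 8 = {2, 3, 4, 5, 6, 7, 8} := by decide
    rw [e] at hsum
    simp [t4, t6, t8, t10, t12, t14, t16] at hsum
    obtain ⟨w, hw⟩ : ∃ w, R / 2 - 1 = w + 2 := ⟨R / 2 - 1 - 2, by omega⟩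
    have hcw := choose_two_int w
    have hw2 : 2 * (w : ℤ) + 6 ≤ N + 4 := by
      have : 2 * w + 6 ≤ N + 4 := by omega
      exact_mod_cast this
    rw [hw, g3, g4] at hsum
    norm_num at hm hP
    nlinarith
  · -- k = 9
    have e : Icc 2 9 = {2, 3, 4, 5, 6, 7, 8, 9} := by decide
    rw [e] at hsum
    simp [t4, t6, t8, t10, t12, t14, t16, t18] at hsum
    obtain ⟨w, hw⟩ : ∃ w, R / 2 - 1 = w + 2 := ⟨R / 2 - 1 - 2, by omega⟩
    have hcw := choose_two_int w
    have hw2 : 2 * (w : ℤ) + 6 ≤ N + 4 := by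
      have : 2 * w + 6 ≤ N + 4 := by omega
      exact_mod_cast this
    rw [hw, g3, g4] at hsum
    norm_num at hm hP
    nlinarith

end Pool.Agent.H95.SD
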