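import Pool.Agent.H95.SD.EvJ

set_option autoImplicit false

/-! # The theorem for even `n` -/

open Finset

namespace Pool.Agent.H95.SD

lemma exc8 : ∀ x : ZMod 8, ∃ y y' : ZMod 8, y ≠ 0 ∧ y' ≠ 0 ∧ dg 8 3 x y ≠ dg 8 3 x y' := by
  decide +kernel

lemma exc12 : ∀ k ∈ Icc 3 5, ∀ x : ZMod 12, ∃ y y' : ZMod 12, y ≠ 0 ∧ y' ≠ 0 ∧
    dg 12 k x y ≠ dg 12 k x y' := by
  decide +kernel

lemma exc16 : ∀ x : ZMod 16, ∃ y y' : ZMod 16, y ≠ 0 ∧ y' ≠ 0 ∧ dg 16 4 x y ≠ dg 16 4 x y' := by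
  decide +kernel

/-- every element is in a block -/
lemma des_pos {n k : ℕ} [NeZero n] (hk : 1 ≤ k) {x : ZMod n} (h : IsDes n k x) {y : ZMod n}
    (hy : y ≠ 0) : ∃ T ∈ blk n k x, y ∈ T := by
  obtain ⟨⟨T, hT⟩, r, hr⟩ := h
  have hT' := hT
  unfold blk at hT'
  rw [mem_filter, mem_powersetCard] at hT'
  obtain ⟨t, ht⟩ : T.Nonempty := by
    rw [← card_pos]
    omega
  have ht0 : t ≠ 0 := (mem_erase.1 (hT'.1.1 ht)).1
  have h1 : 0 < dg n k x t := by
    unfold dg
    exact card_pos.2 ⟨T, mem_filter.2 ⟨hT, ht⟩⟩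
  have h2 : 0 < dg n k x y := by
    rw [hr y hy, ← hr t ht0]
    exact h1
  unfold dg at h2
  obtain ⟨T', hT'⟩ := card_pos.1 h2
  rw [mem_filter] at hT'
  exact ⟨T', hT'.1, hT'.2⟩

lemma not_one {n : ℕ} [NeZero n] (hn : 3 ≤ n) (x : ZMod n) : ¬ IsDes n 1 x := by
  intro h
  have key : ∀ y : ZMod n, y ≠ 0 → y = x := by
    intro y hy
    obtain ⟨T, hT, hyT⟩ := des_pos le_rfl h hy
    unfold blk at hT
    rw [mem_filter, mem_powersetCard, card_eq_one] at hT
    obtain ⟨⟨-, t, rfl⟩, h2⟩ := hT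
    rw [sum_singleton] at h2
    rw [mem_singleton.1 hyT, h2]
  have h1 : ((1 : ℕ) : ZMod n) ≠ 0 := by
    intro h0
    rw [ZMod.natCast_eq_zero_iff] at h0
    have := Nat.le_of_dvd one_pos h0
    omega
  have h2 : ((2 : ℕ) : ZMod n) ≠ 0 := by
    intro h0
    rw [ZMod.natCast_eq_zero_iff] at h0
    have := Nat.le_of_dvd two_pos h0
    omega
  have h3 := (key _ h1).trans (key _ h2).symm
  rw [ZMod.natCast_eq_natCast_iff] at h3
  have := Nat.ModEq.eq_of_lt_of_lt h3 (by omega) (by omega)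
  omega

lemma not_two {n : ℕ} [NeZero n] (hn : 3 ≤ n) (x : ZMod n) (hx : x ≠ 0 ∨ 2 ∣ n) :
    ¬ IsDes n 2 x := by
  intro h
  have key : ∀ y : ZMod n, y ≠ 0 → x - y ≠ 0 ∧ x - y ≠ y := by
    intro y hy
    obtain ⟨T, hT, hyT⟩ := des_pos one_le_two h hy
    unfold blk at hT
    rw [mem_filter, mem_powersetCard, card_eq_two] at hT
    obtain ⟨⟨h1, a, b, hab, rfl⟩, h2⟩ := hT
    rw [sum_pair hab] at h2
    have ha := (mem_erase.1 (h1 (mem_insert_self a {b}))).1
    have hb := (mem_erase.1 (h1 (mem_insert_of_mem (mem_singleton_self b)))).1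
    rw [← h2]
    rcases mem_insert.1 hyT with rfl | hy'
    · rw [add_sub_cancel_left]
      exact ⟨hb, fun h => hab h.symm⟩
    · rw [mem_singleton] at hy'
      subst hy'
      rw [add_sub_cancel_right]
      exact ⟨ha, hab⟩
  by_cases hx0 : x = 0
  · rcases hx with hx | ⟨R, hR⟩
    · exact hx hx0
    · have h3 : ((R : ℕ) : ZMod n) ≠ 0 := by
        intro h0
        rw [ZMod.natCast_eq_zero_iff] at h0
        have := Nat.le_of_dvd (by omega) h0
        omega
      apply (key _ h3).2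
      rw [hx0, zero_sub, neg_eq_iff_add_eq_zero, ← Nat.cast_add, ZMod.natCast_eq_zero_iff]
      exact ⟨1, by omega⟩
  · exact (key x hx0).1 (sub_self x)

lemma even_half {R k : ℕ} (hR : 0 < R) [NeZero (2 * R)] (hk1 : 1 ≤ k) (hk : k < R)
    (x : ZMod (2 * R)) : ¬ IsDes (2 * R) k x := by
  intro h
  by_cases h1 : k = 1
  · subst h1
    exact not_one (by omega) x h
  by_cases h2 : k = 2
  · subst h2
    exact not_two (by omega) x (Or.inr (dvd_mul_right _ _)) h
  obtain ⟨-, r, hr⟩ := h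
  have hineq := even_ineq hR (by omega : k < 2 * R) hr
  by_cases hR4 : R = 4
  · subst hR4
    have hk3 : k = 3 := by omega
    subst hk3
    obtain ⟨y, y', hy, hy', hne⟩ := exc8 x
    exact hne ((hr y hy).trans (hr y' hy').symm)
  by_cases hR6 : R = 6
  · subst hR6
    obtain ⟨y, y', hy, hy', hne⟩ := exc12 k (mem_Icc.2 ⟨by omega, by omega⟩) x
    exact hne ((hr y hy).trans (hr y' hy').symm)
  by_cases hR8 : R = 8 ∧ k = 4
  · obtain ⟨rfl, rfl⟩ := hR8
    obtain ⟨y, y', hy, hy', hne⟩ := exc16 x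
    exact hne ((hr y hy).trans (hr y' hy').symm)
  have key : (Ph k (2 * R) : ℤ) +
      ∑ s ∈ R.divisors.erase 1, ((2 * s).totient : ℤ) * |HH (2 * R) k (2 * s) 2| <
      |HH (2 * R) k 2 2| := by
    rcases Nat.lt_or_ge R 25 with h3 | h3
    · exact small_R R (mem_Icc.2 ⟨by omega, by omega⟩) k (mem_Ico.2 ⟨by omega, hk⟩) (by tauto)
    · rcases Nat.lt_or_ge k 10 with h4 | h4
      · exact ev_small (by omega) (by omega) h3
      · exact ev_large h4 hk h3
  exact absurd hineq (not_le.2 key)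

/-- **Even `n`.** -/
theorem even_main {n k : ℕ} [NeZero n] (hn : Even n) (hk1 : 1 ≤ k) (hk : k ≤ n - 1)
    (x : ZMod n) : IsDes n k x ↔ k = n - 1 ∧ x = sg n := by
  constructor
  · intro h
    by_cases h1 : k = n - 1
    · refine ⟨h1, ?_⟩
      rw [h1] at h
      exact blk_full x h.1
    · exfalso
      obtain ⟨R, hR⟩ := hn
      have hR' : n = 2 * R := by omega
      subst hR'
      rcases Nat.lt_or_ge k R with h2 | h2
      · exact even_half (by omega) hk1 h2 x h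
      · have h3 := des_compl' hk h
        exact even_half (by omega) (by omega) (by omega) _ h3
  · rintro ⟨rfl, rfl⟩
    exact des_full

end Pool.Agent.H95.SD
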