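import Pool.Agent.H95.SD.Ord

set_option autoImplicit false

/-! # Evaluation of the contributions -/

open Finset

namespace Pool.Agent.H95.SD

/-- the number of `c ∈ [1, y]` which are coprime to `r` -/
def Ph (y r : ℕ) : ℕ := ((Icc 1 y).filter (fun c => Nat.Coprime r c)).card

lemma card_per {d r k : ℕ} (hd : 0 < d) (hr : r ∣ d) (hk : d ≤ k) :
    ((range d).filter (fun j => Nat.gcd d (k - j) * r = d)).card = r.totient := by
  have hr0 : 0 < r := Nat.pos_of_dvd_of_pos hr hd
  have h1 : ((range d).filter (fun j => Nat.gcd d (k - j) * r = d)).card =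
      ((Ico (k - d + 1) (k - d + 1 + d)).filter (fun c => Nat.gcd d c * r = d)).card := by
    refine Finset.card_nbij' (fun j => k - j) (fun c => k - c) ?_ ?_ ?_ ?_
    · intro j hj
      simp only [coe_filter, mem_range, Set.mem_ofPred_eq, mem_Ico] at hj ⊢
      exact ⟨by omega, hj.2⟩
    · intro c hc
      simp only [coe_filter, mem_range, Set.mem_ofPred_eq, mem_Ico] at hc ⊢
      refine ⟨by omega, ?_⟩
      rw [show k - (k - c) = c by omega]
      exact hc.2
    · intro j hj
      simp only [coe_filter, mem_range, Set.mem_ofPred_eq] at hj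
      show k - (k - j) = j
      omega
    · intro c hc
      simp only [coe_filter, Set.mem_ofPred_eq, mem_Ico] at hc
      show k - (k - c) = c
      omega
  rw [h1, Nat.filter_Ico_card_eq_of_periodic, Nat.count_eq_card_filter_range]
  · have h2 := Nat.totient_div_of_dvd (Nat.div_dvd_of_dvd hr)
    rw [Nat.div_div_self hr hd.ne'] at h2
    rw [h2]
    congr 1
    ext c
    simp only [mem_filter, mem_range]
    refine and_congr_right fun _ => ?_
    constructor
    · intro h
      exact (Nat.div_eq_of_eq_mul_left hr0 h.symm).symm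
    · intro h
      rw [h]
      exact Nat.div_mul_cancel hr
  · intro c
    simp

lemma split_sum {d r m : ℕ} (hd : 0 < d) (hr : r ∣ d) (hm : m < d) (κ : ℕ) : ∀ e : ℕ → ℤ,
    ∑ j ∈ range (d * κ + m), (if Nat.gcd d (d * κ + m - j) * r = d then e (j / d) else 0) =
      (r.totient : ℤ) * ∑ l ∈ range κ, e l +
        e κ * (((Icc 1 m).filter (fun c => Nat.gcd d c * r = d)).card : ℤ) := by
  induction κ with
  | zero =>
    intro e
    rw [mul_zero, zero_add, Finset.range_zero, Finset.sum_empty, mul_zero, zero_add]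
    have h1 : ∀ j ∈ range m, (if Nat.gcd d (m - j) * r = d then e (j / d) else 0) =
        if Nat.gcd d (m - j) * r = d then e 0 else 0 := by
      intro j hj
      rw [Nat.div_eq_of_lt ((mem_range.1 hj).trans hm)]
    rw [Finset.sum_congr rfl h1, ← Finset.sum_filter, Finset.sum_const, nsmul_eq_mul, mul_comm]
    congr 2
    refine Finset.card_nbij' (fun j => m - j) (fun c => m - c) ?_ ?_ ?_ ?_
    · intro j hj
      simp only [coe_filter, mem_range, Set.mem_ofPred_eq, mem_Icc] at hj ⊢
      exact ⟨by omega, hj.2⟩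
    · intro c hc
      simp only [coe_filter, mem_range, Set.mem_ofPred_eq, mem_Icc] at hc ⊢
      refine ⟨by omega, ?_⟩
      rw [show m - (m - c) = c by omega]
      exact hc.2
    · intro j hj
      simp only [coe_filter, mem_range, Set.mem_ofPred_eq] at hj
      show m - (m - j) = j
      omega
    · intro c hc
      simp only [coe_filter, Set.mem_ofPred_eq, mem_Icc] at hc
      show m - (m - c) = c
      omega
  | succ κ ih =>
    intro e
    rw [show d * (κ + 1) + m = d + (d * κ + m) by ring, Finset.sum_range_add]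
    have h1 : ∀ j ∈ range d, (if Nat.gcd d (d + (d * κ + m) - j) * r = d then e (j / d) else 0) =
        if Nat.gcd d (d + (d * κ + m) - j) * r = d then e 0 else 0 := by
      intro j hj
      rw [Nat.div_eq_of_lt (mem_range.1 hj)]
    have h2 : ∀ j ∈ range (d * κ + m), (if Nat.gcd d (d + (d * κ + m) - (d + j)) * r = d then
        e ((d + j) / d) else 0) =
        if Nat.gcd d (d * κ + m - j) * r = d then (fun l => e (l + 1)) (j / d) else 0 := by
      intro j _
      rw [Nat.add_sub_add_left, Nat.add_div_left _ hd]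
    rw [Finset.sum_congr rfl h1, Finset.sum_congr rfl h2, ih (fun l => e (l + 1)),
      ← Finset.sum_filter, Finset.sum_const, card_per hd hr (by omega), nsmul_eq_mul,
      Finset.sum_range_succ']
    ring

lemma HH_split {d r m κ M : ℕ} (hd : 0 < d) (hr : r ∣ d) (hm : m < d) :
    HH (d * M) (d * κ + m) d r = (r.totient : ℤ) * ∑ l ∈ range κ, (-1) ^ l * ((M - 1).choose l : ℤ) +
      (-1) ^ κ * ((M - 1).choose κ : ℤ) *
        (((Icc 1 m).filter (fun c => Nat.gcd d c * r = d)).card : ℤ) := by
  rw [← split_sum hd hr hm κ (fun l => (-1) ^ l * ((M - 1).choose l : ℤ))]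
  unfold HH
  rw [Finset.sum_filter, ← Finset.sum_range_reflect]
  refine Finset.sum_congr rfl fun j hj => ?_
  have hj' := mem_range.1 hj
  rw [show d * κ + m - 1 - j + 1 = d * κ + m - j by omega,
    show d * κ + m - 1 - (d * κ + m - 1 - j) = j by omega, eps, Nat.mul_div_cancel_left _ hd]

lemma alt_mul (N κ : ℕ) : (N : ℤ) * ∑ l ∈ range κ, (-1) ^ l * (N.choose l : ℤ) =
    -(κ * ((-1) ^ κ * (N.choose κ : ℤ))) := by
  induction κ with
  | zero => simp
  | succ κ ih =>
    rw [Finset.sum_range_succ, mul_add, ih]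
    have h1 := Nat.choose_succ_right_eq N κ
    have h2 : (N.choose (κ + 1) : ℤ) * (κ + 1) = (N.choose κ : ℤ) * (N - κ) := by
      rcases le_or_gt κ N with h | h
      · have := congrArg (Nat.cast : ℕ → ℤ) h1
        push_cast [Nat.cast_sub h] at this
        exact this
      · rw [Nat.choose_eq_zero_of_lt h, Nat.choose_eq_zero_of_lt (h.trans (Nat.lt_succ_self κ))]
        simp
    push_cast
    rw [pow_succ]
    linear_combination -((-1 : ℤ) ^ κ) * h2

lemma BB_eq {r s m : ℕ} (hr : 0 < r) (hs : 0 < s) :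
    ((Icc 1 m).filter (fun c => Nat.gcd (r * s) c * r = r * s)).card = Ph (m / s) r := by
  unfold Ph
  refine Finset.card_nbij' (fun c => c / s) (fun c => s * c) ?_ ?_ ?_ ?_
  · intro c hc
    simp only [coe_filter, mem_Icc, Set.mem_ofPred_eq] at hc ⊢
    have h1 : Nat.gcd (r * s) c = s := by
      have := hc.2
      rw [mul_comm r s] at this
      rw [mul_comm r s]
      exact Nat.eq_of_mul_eq_mul_right hr this
    have h2 : s ∣ c := by
      conv_lhs => rw [← h1]
      exact Nat.gcd_dvd_right _ _
    obtain ⟨c', rfl⟩ := h2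
    rw [Nat.mul_div_cancel_left _ hs]
    rw [mul_comm r s, Nat.gcd_mul_left] at h1
    refine ⟨⟨?_, ?_⟩, ?_⟩
    · rcases Nat.eq_zero_or_pos c' with h | h
      · rw [h, mul_zero] at hc
        omega
      · exact h
    · rw [Nat.le_div_iff_mul_le hs, mul_comm]
      exact hc.1.2
    · exact Nat.eq_of_mul_eq_mul_left hs (by rw [h1, mul_one])
  · intro c hc
    simp only [coe_filter, mem_Icc, Set.mem_ofPred_eq] at hc ⊢
    refine ⟨⟨Nat.mul_pos hs hc.1.1, ?_⟩, ?_⟩
    · have := (Nat.le_div_iff_mul_le hs).1 hc.1.2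
      rw [mul_comm]
      exact this
    · rw [mul_comm r s, Nat.gcd_mul_left, Nat.Coprime.gcd_eq_one hc.2, mul_one]
  · intro c hc
    simp only [coe_filter, mem_Icc, Set.mem_ofPred_eq] at hc
    have h1 : Nat.gcd (r * s) c = s := by
      have := hc.2
      rw [mul_comm r s] at this
      rw [mul_comm r s]
      exact Nat.eq_of_mul_eq_mul_right hr this
    have h2 : s ∣ c := by
      conv_lhs => rw [← h1]
      exact Nat.gcd_dvd_right _ _
    exact Nat.mul_div_cancel' h2
  · intro c _
    exact Nat.mul_div_cancel_left _ hs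

/-- **The contribution of the order `d = r s < n`.** -/
lemma HH_mul {r s m κ M : ℕ} (hr : 0 < r) (hs : 0 < s) (hm : m < r * s) (hM : 0 < M) :
    ((M : ℤ) - 1) * HH (r * s * M) (r * s * κ + m) (r * s) r =
      (-1) ^ κ * ((M - 1).choose κ : ℤ) * ((M - 1) * (Ph (m / s) r : ℤ) - r.totient * κ) := by
  rw [HH_split (Nat.mul_pos hr hs) (dvd_mul_right _ _) hm, BB_eq hr hs]
  obtain ⟨N, rfl⟩ : ∃ N, M = N + 1 := ⟨M - 1, by omega⟩
  have h := alt_mul N κ
  rw [Nat.add_sub_cancel]
  push_cast
  linear_combination (r.totient : ℤ) * h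

/-- the contribution of the order `n` -/
lemma HH_top {r s k : ℕ} (hr : 0 < r) (hs : 0 < s) (hk : k < r * s) :
    HH (r * s) k (r * s) r = (Ph (k / s) r : ℤ) := by
  have h := HH_split (d := r * s) (r := r) (m := k) (κ := 0) (M := 1) (Nat.mul_pos hr hs)
    (dvd_mul_right _ _) hk
  rw [mul_one, mul_zero, zero_add, BB_eq hr hs] at h
  rw [h]
  simp

/-- no contribution -/
lemma HH_ndvd {n k d r : ℕ} (h : ¬ r ∣ d) : HH n k d r = 0 := by
  unfold HH
  apply Finset.sum_eq_zero
  intro i hi
  exfalso
  exact h ⟨Nat.gcd d (i + 1), by rw [mul_comm]; exact (mem_filter.1 hi).2.symm⟩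

end Pool.Agent.H95.SD
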