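import Pool.Agent.H95.SD.Nec3
import Pool.Graph.R_pool_sql_team_seeded_64922ed1.X147.SsdA

set_option autoImplicit false

/-! # Complements, existence of blocks, and the case `x = 0` -/

open Finset

namespace Pool.Agent.H95.SD

/-- `(ℤ/n \ 0, B_k^{x,*})` is a 1-design. -/
def IsDes (n k : ℕ) [NeZero n] (x : ZMod n) : Prop :=
  (blk n k x).Nonempty ∧ ∃ r : ℕ, ∀ y : ZMod n, y ≠ 0 → dg n k x y = r

/-- the sum of all elements -/
def sg (n : ℕ) [NeZero n] : ZMod n := ∑ t ∈ (univ : Finset (ZMod n)).erase 0, t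

lemma card_erase_zero {n : ℕ} [NeZero n] : ((univ : Finset (ZMod n)).erase 0).card = n - 1 := by
  rw [card_erase_of_mem (mem_univ _), card_univ, ZMod.card]

lemma compl_mem {n k : ℕ} [NeZero n] (hk : k ≤ n - 1) {x : ZMod n} {T : Finset (ZMod n)}
    (hT : T ∈ blk n k x) : (univ : Finset (ZMod n)).erase 0 \ T ∈ blk n (n - 1 - k) (sg n - x) := by
  unfold blk at hT ⊢
  rw [mem_filter, mem_powersetCard] at hT ⊢
  refine ⟨⟨sdiff_subset, ?_⟩, ?_⟩
  · rw [card_sdiff_of_subset hT.1.1, card_erase_zero, hT.1.2]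
  · rw [← hT.2, eq_sub_iff_add_eq]
    exact Finset.sum_sdiff hT.1.1

lemma sub_sub_sg {n : ℕ} [NeZero n] (x : ZMod n) : sg n - (sg n - x) = x := by ring

lemma dg_compl {n k : ℕ} [NeZero n] (hk : k ≤ n - 1) (x : ZMod n) {y : ZMod n} (hy : y ≠ 0) :
    dg n (n - 1 - k) (sg n - x) y + dg n k x y = (blk n k x).card := by
  have h1 : dg n (n - 1 - k) (sg n - x) y = ((blk n k x).filter (fun T => ¬ y ∈ T)).card := by
    unfold dg
    refine Finset.card_nbij' (fun T => (univ : Finset (ZMod n)).erase 0 \ T)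
      (fun T => (univ : Finset (ZMod n)).erase 0 \ T) ?_ ?_ ?_ ?_
    · intro T hT
      simp only [coe_filter, Set.mem_ofPred_eq] at hT ⊢
      have h2 := compl_mem (by omega) hT.1
      rw [sub_sub_sg, show n - 1 - (n - 1 - k) = k by omega] at h2
      exact ⟨h2, fun h => (mem_sdiff.1 h).2 hT.2⟩
    · intro T hT
      simp only [coe_filter, Set.mem_ofPred_eq] at hT ⊢
      exact ⟨compl_mem hk hT.1, mem_sdiff.2 ⟨mem_erase.2 ⟨hy, mem_univ y⟩, hT.2⟩⟩
    · intro T hT
      simp only [coe_filter, Set.mem_ofPred_eq] at hT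
      have h2 := (mem_powersetCard.1 (mem_filter.1 hT.1).1).1
      exact Finset.sdiff_sdiff_eq_self h2
    · intro T hT
      simp only [coe_filter, Set.mem_ofPred_eq] at hT
      have h2 := (mem_powersetCard.1 (mem_filter.1 hT.1).1).1
      exact Finset.sdiff_sdiff_eq_self h2
  rw [h1, add_comm]
  exact Finset.card_filter_add_card_filter_not _

lemma des_compl' {n k : ℕ} [NeZero n] (hk : k ≤ n - 1) {x : ZMod n} (h : IsDes n k x) :
    IsDes n (n - 1 - k) (sg n - x) := by
  obtain ⟨⟨T, hT⟩, r, hr⟩ := h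
  refine ⟨⟨_, compl_mem hk hT⟩, (blk n k x).card - r, fun y hy => ?_⟩
  have h1 := dg_compl hk x hy
  rw [hr y hy] at h1
  omega

lemma des_compl {n k : ℕ} [NeZero n] (hk : k ≤ n - 1) (x : ZMod n) :
    IsDes n k x ↔ IsDes n (n - 1 - k) (sg n - x) := by
  refine ⟨des_compl' hk, fun h => ?_⟩
  have h1 := des_compl' (by omega) h
  rwa [sub_sub_sg, show n - 1 - (n - 1 - k) = k by omega] at h1

/-- existence of blocks -/
lemma nonempty_blk {n k : ℕ} [NeZero n] (h2 : 2 ≤ k) (h3 : k + 3 ≤ n) (x : ZMod n) :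
    (blk n k x).Nonempty := by
  have hb : n ≤ k * (n - 1 - k) + 1 := by
    obtain ⟨m, rfl⟩ : ∃ m, n = k + 3 + m := ⟨n - (k + 3), by omega⟩
    obtain ⟨l, rfl⟩ : ∃ l, k = 2 + l := ⟨k - 2, by omega⟩
    rw [show 2 + l + 3 + m - 1 - (2 + l) = m + 2 by omega]
    nlinarith
  obtain ⟨t, ht, htc, hts⟩ := Pool.Agent.X147.Ssd.exists_residue (M := n - 1) (K := k) (N := n)
    (by omega) (by omega) hb x.val
  have hinj : Set.InjOn (fun i : ℕ => (i : ZMod n)) (t : Set ℕ) := by
    intro a ha b hb hab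
    have ha' := mem_Icc.1 (ht ha)
    have hb' := mem_Icc.1 (ht hb)
    have h := (ZMod.natCast_eq_natCast_iff a b n).1 hab
    exact Nat.ModEq.eq_of_lt_of_lt h (by omega) (by omega)
  refine ⟨t.image (fun i : ℕ => (i : ZMod n)), ?_⟩
  unfold blk
  rw [mem_filter, mem_powersetCard]
  refine ⟨⟨?_, ?_⟩, ?_⟩
  · intro z hz
    obtain ⟨i, hi, rfl⟩ := mem_image.1 hz
    have hi' := mem_Icc.1 (ht hi)
    rw [mem_erase]
    refine ⟨fun h => ?_, mem_univ _⟩
    have := (ZMod.natCast_eq_zero_iff i n).1 h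
    have := Nat.le_of_dvd (by omega) this
    omega
  · rw [card_image_of_injOn hinj, htc]
  · rw [sum_image hinj, ← Nat.cast_sum]
    have h := (ZMod.natCast_eq_natCast_iff _ _ n).2 hts
    rw [h, ZMod.natCast_zmod_val]

lemma empty_one {n : ℕ} [NeZero n] : ¬ (blk n 1 0).Nonempty := by
  rintro ⟨T, hT⟩
  unfold blk at hT
  rw [mem_filter, mem_powersetCard, card_eq_one] at hT
  obtain ⟨⟨h1, t, rfl⟩, h2⟩ := hT
  rw [sum_singleton] at h2
  exact (mem_erase.1 (h1 (mem_singleton_self t))).1 h2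

lemma blk_full {n : ℕ} [NeZero n] (x : ZMod n) (h : (blk n (n - 1) x).Nonempty) : x = sg n := by
  obtain ⟨T, hT⟩ := h
  unfold blk at hT
  rw [mem_filter, mem_powersetCard] at hT
  have h1 : T = (univ : Finset (ZMod n)).erase 0 := by
    apply Finset.eq_of_subset_of_card_le hT.1.1
    rw [card_erase_zero, hT.1.2]
  rw [← hT.2, h1]
  rfl

lemma des_full {n : ℕ} [NeZero n] : IsDes n (n - 1) (sg n) := by
  have h1 : blk n (n - 1) (sg n) = {(univ : Finset (ZMod n)).erase 0} := by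
    ext T
    unfold blk
    rw [mem_filter, mem_powersetCard, mem_singleton]
    constructor
    · rintro ⟨⟨h1, h2⟩, -⟩
      apply Finset.eq_of_subset_of_card_le h1
      rw [card_erase_zero, h2]
    · rintro rfl
      exact ⟨⟨Subset.rfl, card_erase_zero⟩, rfl⟩
  refine ⟨by rw [h1]; exact singleton_nonempty _, 1, fun y hy => ?_⟩
  unfold dg
  rw [h1, filter_singleton, if_pos (mem_erase.2 ⟨hy, mem_univ y⟩), card_singleton]

lemma sg_odd {n : ℕ} [NeZero n] (hn : Odd n) : sg n = 0 := by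
  have h1 : sg n = - sg n := by
    unfold sg
    rw [← Finset.sum_neg_distrib]
    refine Finset.sum_nbij' (fun t => -t) (fun t => -t) ?_ ?_ ?_ ?_ ?_
    · intro t ht
      simpa using ht
    · intro t ht
      simpa using ht
    · intro t _
      exact neg_neg t
    · intro t _
      exact neg_neg t
    · intro t _
      exact (neg_neg t).symm
  have h2 : (2 : ZMod n) * sg n = 0 := by linear_combination h1
  have h3 : IsUnit (2 : ZMod n) := by
    have : ((2 : ℕ) : ZMod n) = 2 := by norm_num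
    rw [← this, ZMod.isUnit_iff_coprime]
    exact (Nat.coprime_two_left).2 hn
  exact (h3.mul_right_eq_zero).1 h2

/-- from the degrees to the sums -/
lemma SS_of_const {n k : ℕ} [NeZero n] (hn : 1 < n) (hk : k < n)
    (h : ∃ r : ℕ, ∀ y : ZMod n, y ≠ 0 → dg n k 0 y = r) :
    ∀ r : ℕ, r ∣ n → 1 < r → SS n k r = (r.totient : ℤ) * Ph k n := by
  obtain ⟨c, hc⟩ := (crit hk.le).1 h
  have h1 := hc n dvd_rfl hn
  rw [SS_top hk] at h1
  have h2 : (n.totient : ℤ) ≠ 0 := by
    have := Nat.totient_pos.2 (by omega : 0 < n)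
    exact_mod_cast this.ne'
  have h3 := mul_left_cancel₀ h2 h1
  intro r hr hr1
  rw [hc r hr hr1, h3]

lemma des_div {n k : ℕ} [NeZero n] (hn : 1 < n) (h1 : 2 ≤ k) (h2 : k + 3 ≤ n)
    (h : ∀ q : ℕ, q.Prime → q ∣ n → (n - 1) ∣ k * (q - 1)) : IsDes n k 0 := by
  refine ⟨nonempty_blk h1 h2 0, ?_⟩
  rw [crit (by omega)]
  obtain ⟨c, hc⟩ : Nat.gcd (n - 1) k ∣ n - 1 := Nat.gcd_dvd_left _ _
  obtain ⟨b, hb⟩ : Nat.gcd (n - 1) k ∣ k := Nat.gcd_dvd_right _ _
  have hG0 : 0 < Nat.gcd (n - 1) k := Nat.gcd_pos_of_pos_left _ (by omega)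
  set G := Nat.gcd (n - 1) k with hG
  have hcop : Nat.Coprime c b := by
    have h3 : G * Nat.gcd c b = G * 1 := by
      rw [← Nat.gcd_mul_left, ← hc, ← hb, mul_one]
    exact Nat.eq_of_mul_eq_mul_left hG0 h3
  have hc0 : 0 < c := by
    rcases Nat.eq_zero_or_pos c with h0 | h0
    · rw [h0, mul_zero] at hc
      omega
    · exact h0
  have hbc : b ≤ c := by
    apply Nat.le_of_mul_le_mul_left _ hG0
    rw [← hc, ← hb]
    omega
  rw [hb, mul_comm G b]
  apply suf_div (c := c) hn hc0 hbc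
  · rw [mul_comm, ← hc]
    omega
  · intro q hq hqn
    have h4 := h q hq hqn
    rw [hc, hb, mul_assoc, Nat.mul_dvd_mul_iff_left hG0] at h4
    exact hcop.dvd_of_dvd_mul_left h4

/-- **The case `x = 0`, `n` odd.** -/
theorem odd_zero {n k : ℕ} [NeZero n] (hn : Odd n) (hn3 : 3 ≤ n) (hk1 : 1 ≤ k) (hk : k ≤ n - 1) :
    IsDes n k 0 ↔ k = n - 1 ∨ (2 ≤ k ∧ k + 3 ≤ n ∧ (k < n.minFac ∨ n - 1 - k < n.minFac ∨
      ∀ q : ℕ, q.Prime → q ∣ n → (n - 1) ∣ k * (q - 1))) := by
  have hs : ∀ k, k ≤ n - 1 → (IsDes n k 0 ↔ IsDes n (n - 1 - k) 0) := by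
    intro k hk
    have h := des_compl hk (0 : ZMod n)
    rwa [sg_odd hn, sub_zero] at h
  constructor
  · intro h
    by_cases h1 : k = n - 1
    · exact Or.inl h1
    right
    have h2 : k ≠ 1 := by
      rintro rfl
      exact empty_one h.1
    have h3 : k ≠ n - 2 := by
      intro h4
      have h5 := (hs k hk).1 h
      rw [show n - 1 - k = 1 by omega] at h5
      exact empty_one h5.1
    refine ⟨by omega, by omega, ?_⟩
    rcases Nat.lt_or_ge (2 * k) n with h4 | h4
    · rcases nec hn hn3 h4 (SS_of_const (by omega) (by omega) h.2) with h5 | h5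
      · exact Or.inl h5
      · exact Or.inr (Or.inr h5)
    · have h5 := (hs k hk).1 h
      obtain ⟨m, hm⟩ := hn
      rcases nec (k := n - 1 - k) ⟨m, hm⟩ hn3 (by omega)
        (SS_of_const (by omega) (by omega) h5.2) with h6 | h6
      · exact Or.inr (Or.inl h6)
      · refine Or.inr (Or.inr fun q hq hqn => ?_)
        have h7 := h6 q hq hqn
        have h8 : (n - 1 - k) * (q - 1) + k * (q - 1) = (n - 1) * (q - 1) := by
          rw [← Nat.add_mul, Nat.sub_add_cancel hk]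
        exact (Nat.dvd_add_right h7).1 (h8 ▸ dvd_mul_right _ _)
  · rintro (h | ⟨h1, h2, h3⟩)
    · rw [h]
      have := des_full (n := n)
      rwa [sg_odd hn] at this
    · rcases h3 with h3 | h3 | h3
      · refine ⟨nonempty_blk h1 h2 0, ?_⟩
        rw [crit (by omega)]
        exact suf_small (by omega) h3
      · rw [hs k hk]
        refine ⟨nonempty_blk (by omega) (by omega) 0, ?_⟩
        rw [crit (by omega)]
        exact suf_small (by omega) h3
      · exact des_div (by omega) h1 h2 h3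

end Pool.Agent.H95.SD
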