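import Mathlib
import Pool.Graph.R_pool_sql_team_seeded_843ab51a.V11199.SD.Fourier

set_option autoImplicit false

/-! # Fourier coefficients of the degrees of `(ℤ/n \ 0, B_k^{0,*})` -/

open Finset

namespace Pool.Agent.H95.SD

open Pool.Agent.V11199.SD (qj qj_eq char_sum order_pos order_dvd char_sum_eq n_ne)

/-- `B_k^{x,*}`: the `k`-element subsets of `ℤ/n \ {0}` with sum `x`. -/
def blk (n k : ℕ) [NeZero n] (x : ZMod n) : Finset (Finset (ZMod n)) :=
  (powersetCard k ((univ : Finset (ZMod n)).erase 0)).filter (fun T => ∑ t ∈ T, t = x)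

/-- the number of blocks which contain `y` -/
def dg (n k : ℕ) [NeZero n] (x y : ZMod n) : ℕ := ((blk n k x).filter (fun T => y ∈ T)).card

/-- the sums over the subsets containing `y` -/
noncomputable def qy (n : ℕ) [NeZero n] (a y : ZMod n) (j : ℕ) : ℂ :=
  ∑ T ∈ (powersetCard j ((univ : Finset (ZMod n)).erase 0)).filter (fun T => y ∈ T),
    ∏ t ∈ T, (ZMod.stdAddChar (a * t) : ℂ)

lemma gen_succ {ι : Type*} [DecidableEq ι] (S : Finset ι) (f : ι → ℂ) {y : ι} (hy : y ∈ S)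
    (j : ℕ) : ∑ T ∈ (powersetCard (j + 1) S).filter (fun T => y ∈ T), ∏ t ∈ T, f t =
      f y * ∑ T ∈ (powersetCard j S).filter (fun T => y ∉ T), ∏ t ∈ T, f t := by
  rw [Finset.mul_sum]
  refine Finset.sum_nbij' (fun T => T.erase y) (fun T => insert y T) ?_ ?_ ?_ ?_ ?_
  · intro T hT
    simp only [mem_filter, mem_powersetCard] at hT ⊢
    refine ⟨⟨(erase_subset _ _).trans hT.1.1, ?_⟩, notMem_erase _ _⟩
    rw [card_erase_of_mem hT.2, hT.1.2]
    rfl
  · intro T hT
    simp only [mem_filter, mem_powersetCard] at hT ⊢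
    refine ⟨⟨?_, ?_⟩, mem_insert_self _ _⟩
    · intro t ht
      rcases mem_insert.1 ht with rfl | ht
      · exact hy
      · exact hT.1.1 ht
    · rw [card_insert_of_notMem hT.2, hT.1.2]
  · intro T hT
    simp only [mem_filter] at hT
    exact insert_erase hT.2
  · intro T hT
    simp only [mem_filter] at hT
    exact erase_insert hT.2
  · intro T hT
    simp only [mem_filter] at hT
    exact (mul_prod_erase _ _ hT.2).symm

lemma qy_succ {n : ℕ} [NeZero n] (a : ZMod n) {y : ZMod n} (hy : y ≠ 0) (j : ℕ) :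
    qy n a y (j + 1) = (ZMod.stdAddChar (a * y) : ℂ) * (qj n a 0 j - qy n a y j) := by
  unfold qy qj
  rw [gen_succ _ _ (mem_erase.2 ⟨hy, mem_univ y⟩)]
  congr 1
  rw [eq_sub_iff_add_eq, add_comm]
  exact Finset.sum_filter_add_sum_filter_not _ _ _

lemma qy_eq {n : ℕ} [NeZero n] (a : ZMod n) {y : ZMod n} (hy : y ≠ 0) (k : ℕ) :
    qy n a y k = ∑ i ∈ range k, (-1) ^ i * (ZMod.stdAddChar (((i + 1 : ℕ) : ZMod n) * a * y) : ℂ) *
      qj n a 0 (k - 1 - i) := by
  induction k with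
  | zero =>
    unfold qy
    rw [Finset.range_zero, Finset.sum_empty]
    apply Finset.sum_eq_zero
    intro T hT
    simp only [mem_filter, mem_powersetCard, card_eq_zero] at hT
    exfalso
    rw [hT.1.2] at hT
    exact absurd hT.2 (notMem_empty _)
  | succ k ih =>
    rw [qy_succ a hy, ih, Finset.sum_range_succ', mul_sub, sub_eq_add_neg, add_comm,
      Finset.mul_sum, ← Finset.sum_neg_distrib]
    congr 1
    · refine Finset.sum_congr rfl fun i hi => ?_
      have h1 : (ZMod.stdAddChar (((i + 1 + 1 : ℕ) : ZMod n) * a * y) : ℂ) =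
          (ZMod.stdAddChar (a * y) : ℂ) * (ZMod.stdAddChar (((i + 1 : ℕ) : ZMod n) * a * y) : ℂ) := by
        rw [← AddChar.map_add_eq_mul]
        congr 1
        push_cast
        ring
      rw [h1, show k + 1 - 1 - (i + 1) = k - 1 - i by omega]
      ring
    · simp

/-- `(-1) ^ ⌊j/d⌋ C(n/d - 1, ⌊j/d⌋)` -/
def eps (n d j : ℕ) : ℤ := (-1) ^ (j / d) * ((n / d - 1).choose (j / d) : ℤ)

/-- the essential part of the Fourier coefficient -/
noncomputable def W (n k : ℕ) [NeZero n] (v : ZMod n) : ℤ :=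
  ∑ i ∈ range k, ∑ a ∈ (univ : Finset (ZMod n)).filter (fun a => ((i + 1 : ℕ) : ZMod n) * a = v),
    eps n (addOrderOf a) (k - 1 - i)

lemma qj_zero {n : ℕ} [NeZero n] (a : ZMod n) {j : ℕ} (hj : j + 1 ≤ n) :
    qj n a 0 j = (-1) ^ j * (eps n (addOrderOf a) j : ℂ) := by
  rw [qj_eq a 0 hj, eps, mul_zero, AddChar.map_zero_eq_one]
  push_cast
  ring

lemma sum_erase {n : ℕ} [NeZero n] (b : ZMod n) :
    ∑ y ∈ (univ : Finset (ZMod n)).erase 0, (ZMod.stdAddChar (b * y) : ℂ) =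
      (if b = 0 then (n : ℂ) else 0) - 1 := by
  have h := char_sum_eq b
  rw [← Finset.add_sum_erase _ _ (mem_univ (0 : ZMod n))] at h
  rw [← h, zero_mul, AddChar.map_zero_eq_one]
  have h2 : ∀ y : ZMod n, (ZMod.stdAddChar (b * y) : ℂ) = ZMod.stdAddChar (y * b) := fun y => by
    rw [mul_comm]
  simp_rw [h2]
  ring

lemma dg_four {n : ℕ} [NeZero n] (k : ℕ) (y : ZMod n) :
    (n : ℂ) * (dg n k 0 y : ℂ) = ∑ a : ZMod n, qy n a y k := by
  unfold qy
  rw [Finset.sum_comm]
  have h1 : ∀ T : Finset (ZMod n), ∑ a : ZMod n, ∏ t ∈ T, (ZMod.stdAddChar (a * t) : ℂ) =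
      if ∑ t ∈ T, t = 0 then (n : ℂ) else 0 := by
    intro T
    rw [← char_sum_eq]
    refine Finset.sum_congr rfl fun a _ => ?_
    rw [← char_sum, Finset.mul_sum]
  simp_rw [h1]
  rw [← Finset.sum_filter, Finset.sum_const, nsmul_eq_mul, mul_comm]
  congr 2
  unfold dg blk
  rw [Finset.filter_filter, Finset.filter_filter]
  congr 1
  ext T
  simp only [mem_filter]
  tauto

/-- the constant -/
noncomputable def K0 (n k : ℕ) [NeZero n] : ℂ :=
  ∑ a : ZMod n, ∑ i ∈ range k, (-1) ^ i * qj n a 0 (k - 1 - i)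

lemma hat {n k : ℕ} [NeZero n] (hk : k ≤ n) (v : ZMod n) :
    (n : ℂ) * ∑ y ∈ (univ : Finset (ZMod n)).erase 0, (dg n k 0 y : ℂ) *
      (ZMod.stdAddChar (v * y) : ℂ) = (n : ℂ) * ((-1) ^ (k - 1) * (W n k (-v) : ℂ)) - K0 n k := by
  rw [Finset.mul_sum]
  have h1 : ∀ y ∈ (univ : Finset (ZMod n)).erase 0, (n : ℂ) * ((dg n k 0 y : ℂ) *
      (ZMod.stdAddChar (v * y) : ℂ)) = ∑ a : ZMod n, ∑ i ∈ range k, (-1) ^ i *
        qj n a 0 (k - 1 - i) * (ZMod.stdAddChar ((v + ((i + 1 : ℕ) : ZMod n) * a) * y) : ℂ) := by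
    intro y hy
    rw [← mul_assoc, dg_four, Finset.sum_mul]
    refine Finset.sum_congr rfl fun a _ => ?_
    rw [qy_eq a (mem_erase.1 hy).1, Finset.sum_mul]
    refine Finset.sum_congr rfl fun i _ => ?_
    have h2 : (ZMod.stdAddChar ((v + ((i + 1 : ℕ) : ZMod n) * a) * y) : ℂ) =
        (ZMod.stdAddChar (((i + 1 : ℕ) : ZMod n) * a * y) : ℂ) *
          (ZMod.stdAddChar (v * y) : ℂ) := by
      rw [← AddChar.map_add_eq_mul]
      congr 1
      ring
    rw [h2]
    ring
  rw [Finset.sum_congr rfl h1, Finset.sum_comm]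
  have h3 : ∀ a : ZMod n, ∑ y ∈ (univ : Finset (ZMod n)).erase 0, ∑ i ∈ range k, (-1) ^ i *
      qj n a 0 (k - 1 - i) * (ZMod.stdAddChar ((v + ((i + 1 : ℕ) : ZMod n) * a) * y) : ℂ) =
      ∑ i ∈ range k, ((n : ℂ) * (if v + ((i + 1 : ℕ) : ZMod n) * a = 0 then
        (-1) ^ (k - 1) * (eps n (addOrderOf a) (k - 1 - i) : ℂ) else 0) -
          (-1) ^ i * qj n a 0 (k - 1 - i)) := by
    intro a
    rw [Finset.sum_comm]
    refine Finset.sum_congr rfl fun i hi => ?_
    have hi' := mem_range.1 hi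
    rw [← Finset.mul_sum, sum_erase]
    split_ifs with h
    · rw [qj_zero a (by omega)]
      have h4 : ((-1 : ℂ)) ^ (k - 1) = (-1) ^ i * (-1) ^ (k - 1 - i) := by
        rw [← pow_add]
        congr 1
        omega
      rw [h4]
      ring
    · ring
  rw [Finset.sum_congr rfl fun a _ => h3 a]
  simp_rw [Finset.sum_sub_distrib, ← Finset.mul_sum]
  unfold K0
  congr 2
  unfold W
  push_cast
  rw [Finset.sum_comm, Finset.mul_sum]
  refine Finset.sum_congr rfl fun i _ => ?_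
  rw [Finset.mul_sum, Finset.sum_filter]
  refine Finset.sum_congr rfl fun a _ => ?_
  have h5 : (v + ((i + 1 : ℕ) : ZMod n) * a = 0) ↔ ((i + 1 : ℕ) : ZMod n) * a = -v := by
    rw [add_comm, add_eq_zero_iff_eq_neg]
  push_cast at h5
  simp only [h5]

/-- **The Fourier criterion.** -/
lemma const_iff {n k : ℕ} [NeZero n] (hk : k ≤ n) :
    (∃ r : ℕ, ∀ y : ZMod n, y ≠ 0 → dg n k 0 y = r) ↔
      ∀ v v' : ZMod n, v ≠ 0 → v' ≠ 0 → W n k v = W n k v' := by
  have hn : (n : ℂ) ≠ 0 := n_ne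
  constructor
  · rintro ⟨r, hr⟩ v v' hv hv'
    have key : ∀ v : ZMod n, v ≠ 0 → (n : ℂ) * ((-1) ^ (k - 1) * (W n k v : ℂ)) =
        K0 n k - n * r := by
      intro v hv
      have h1 := hat hk (-v)
      rw [neg_neg] at h1
      have h2 : ∑ y ∈ (univ : Finset (ZMod n)).erase 0, (dg n k 0 y : ℂ) *
          (ZMod.stdAddChar (-v * y) : ℂ) = -r := by
        have h3 : ∀ y ∈ (univ : Finset (ZMod n)).erase 0, (dg n k 0 y : ℂ) *
            (ZMod.stdAddChar (-v * y) : ℂ) = (r : ℂ) * (ZMod.stdAddChar (-v * y) : ℂ) := by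
          intro y hy
          rw [hr y (mem_erase.1 hy).1]
        rw [Finset.sum_congr rfl h3, ← Finset.mul_sum, sum_erase, if_neg (neg_ne_zero.2 hv)]
        ring
      rw [h2] at h1
      linear_combination -h1
    have h4 := (key v hv).trans (key v' hv').symm
    have h5 := mul_left_cancel₀ hn h4
    have h6 := mul_left_cancel₀ (pow_ne_zero _ (by norm_num : (-1 : ℂ) ≠ 0)) h5
    exact_mod_cast h6
  · intro hW
    refine ⟨dg n k 0 1, fun y hy => ?_⟩
    have : Nontrivial (ZMod n) := ⟨⟨y, 0, hy⟩⟩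
    set F : ZMod n → ℂ := fun v => ∑ y ∈ (univ : Finset (ZMod n)).erase 0, (dg n k 0 y : ℂ) *
      (ZMod.stdAddChar (v * y) : ℂ) with hF
    have hc : ∀ v : ZMod n, v ≠ 0 → F v = F 1 := by
      intro v hv
      apply mul_left_cancel₀ hn
      rw [hF]
      simp only
      rw [hat hk v, hat hk 1, hW (-v) (-1) (neg_ne_zero.2 hv) (neg_ne_zero.2 one_ne_zero)]
    have inv : ∀ y : ZMod n, y ≠ 0 → (n : ℂ) * (dg n k 0 y : ℂ) = F 0 - F 1 := by
      intro z hz
      have h1 : ∑ v : ZMod n, F v * (ZMod.stdAddChar (v * (-z)) : ℂ) = (n : ℂ) * dg n k 0 z := by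
        rw [hF]
        simp only [Finset.sum_mul]
        rw [Finset.sum_comm]
        have h2 : ∀ w ∈ (univ : Finset (ZMod n)).erase 0, ∑ v : ZMod n, (dg n k 0 w : ℂ) *
            (ZMod.stdAddChar (v * w) : ℂ) * (ZMod.stdAddChar (v * (-z)) : ℂ) =
            if w = z then (n : ℂ) * dg n k 0 z else 0 := by
          intro w _
          have h3 : ∀ v : ZMod n, (dg n k 0 w : ℂ) *
            (ZMod.stdAddChar (v * w) : ℂ) * (ZMod.stdAddChar (v * (-z)) : ℂ) =
            (dg n k 0 w : ℂ) * (ZMod.stdAddChar (v * (w - z)) : ℂ) := by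
            intro v
            rw [mul_assoc, ← AddChar.map_add_eq_mul]
            congr 2
            ring
          rw [Finset.sum_congr rfl fun v _ => h3 v, ← Finset.mul_sum, char_sum_eq]
          by_cases h : w = z
          · rw [h, sub_self, if_pos rfl, if_pos rfl, mul_comm]
          · rw [if_neg (sub_ne_zero.2 h), if_neg h, mul_zero]
        rw [Finset.sum_congr rfl h2, Finset.sum_ite_eq', if_pos (mem_erase.2 ⟨hz, mem_univ z⟩)]
      rw [← h1, ← Finset.add_sum_erase _ _ (mem_univ (0 : ZMod n)), zero_mul,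
        AddChar.map_zero_eq_one, mul_one]
      have h4 : ∀ v ∈ (univ : Finset (ZMod n)).erase 0, F v * (ZMod.stdAddChar (v * (-z)) : ℂ) =
          F 1 * (ZMod.stdAddChar ((-z) * v) : ℂ) := by
        intro v hv
        rw [hc v (mem_erase.1 hv).1, mul_comm v]
      rw [Finset.sum_congr rfl h4, ← Finset.mul_sum, sum_erase, if_neg (neg_ne_zero.2 hz)]
      ring
    have h5 := (inv y hy).trans (inv 1 one_ne_zero).symm
    have h6 := mul_left_cancel₀ hn h5
    exact_mod_cast h6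

end Pool.Agent.H95.SD
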