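import Mathlib
import Pool.Graph.R_pool_sql_team_seeded_843ab51a.V11199.SD.Ineq

set_option autoImplicit false

/-! # Inequalities for binomial coefficients -/

namespace Pool.Agent.H95.SD

open Pool.Agent.V11199.SD (vander)

lemma mono_choose {M a j : ℕ} (h1 : a ≤ j) : j ≤ M / 2 → M.choose a ≤ M.choose j := by
  induction j, h1 using Nat.le_induction with
  | base => intro _; exact le_rfl
  | succ j hj ih =>
    intro h
    exact (ih (by omega)).trans (Nat.choose_le_succ_of_lt_half_left (by omega))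

lemma vand {R s κ : ℕ} (hs : 1 < s) (hsR : s ∣ R) (hR : 0 < R) :
    (R / s - 1).choose (κ / s) * (R - R / s).choose (κ - κ / s) ≤ (R - 1).choose κ := by
  have h := vander (R / s - 1) (R - R / s) (κ / s) (κ - κ / s)
  have h1 : 0 < R / s := Nat.div_pos (Nat.le_of_dvd hR hsR) (by omega)
  have h2 : R / s ≤ R := Nat.div_le_self _ _
  have h3 : κ / s ≤ κ := Nat.div_le_self _ _
  rwa [show R / s - 1 + (R - R / s) = R - 1 by omega, show κ / s + (κ - κ / s) = κ by omega] at h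

lemma half_le {R s κ : ℕ} (hs : 1 < s) (hs2 : Odd s) (hsR : s ∣ R) (hκ : 2 * κ ≤ R - 1)
    (hR : 0 < R) : κ - κ / s ≤ (R - R / s) / 2 := by
  obtain ⟨w, rfl⟩ := hsR
  rw [Nat.mul_div_cancel_left _ (by omega : 0 < s), Nat.le_div_iff_mul_le two_pos]
  obtain ⟨t, ht⟩ := hs2
  have hb := Nat.mod_lt κ (by omega : 0 < s)
  have hd := Nat.div_add_mod κ s
  generalize κ / s = a at *
  generalize κ % s = b at *
  subst hd
  have h1 : s * a + b - a = (s - 1) * a + b := by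
    rw [Nat.sub_mul, one_mul]
    have : a ≤ s * a := Nat.le_mul_of_pos_left a (by omega)
    omega
  have h2 : s * w - w = (s - 1) * w := by
    rw [Nat.sub_mul, one_mul]
  rw [h1, h2]
  have h3 : s - 1 = 2 * t := by omega
  rw [h3]
  rcases le_or_gt (2 * a + 2) w with h | h
  · nlinarith
  · have h4 : w ≤ 2 * a + 1 := by omega
    have h5 : s * w = 2 * t * w + w := by rw [ht]; ring
    have h6 : s * a = 2 * t * a + a := by rw [ht]; ring
    have hw : 0 < s * w := hR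
    rw [h6] at hκ
    rw [h5] at hκ hw
    generalize 2 * t * w = x at *
    generalize 2 * t * a = y at *
    omega

lemma big5 {R s κ q : ℕ} (hs : 5 ≤ s) (hs2 : Odd s) (hsR : s ∣ R) (hR : 35 ≤ R) (hκ7 : 7 ≤ κ)
    (hκ : 2 * κ ≤ R - 1) (hq : q ≤ R) :
    3 * q * R * (R - 1) * (R / s - 1).choose (κ / s) ≤ 4 * (R - 1).choose κ := by
  have hv := vand (κ := κ) (by omega : 1 < s) hsR (by omega)
  have hh := half_le (κ := κ) (by omega : 1 < s) hs2 hsR hκ (by omega)
  have hM : 5 * (R - R / s) ≥ 4 * R := by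
    have : R / s ≤ R / 5 := Nat.div_le_div_left hs (by norm_num)
    omega
  have hj : 6 ≤ κ - κ / s := by
    have : κ / s ≤ κ / 5 := Nat.div_le_div_left hs (by norm_num)
    omega
  generalize R - R / s = M at *
  generalize κ - κ / s = j at *
  have h1 := mono_choose (M := M) hj hh
  have h2 := Nat.pow_sub_le_descFactorial M 6
  rw [Nat.descFactorial_eq_factorial_mul_choose] at h2
  have h3 : Nat.factorial 6 = 720 := rfl
  rw [h3, show M + 1 - 6 = M - 5 by omega] at h2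
  obtain ⟨a, ha⟩ : ∃ a, M = a + 5 := ⟨M - 5, by omega⟩
  subst ha
  rw [Nat.add_sub_cancel] at h2
  have h4 : 9 * R ≤ a ^ 2 := by
    have : 4 * R ≤ 5 * a + 25 := by omega
    nlinarith
  have h5 : (9 * R) ^ 3 ≤ a ^ 6 := by
    calc (9 * R) ^ 3 ≤ (a ^ 2) ^ 3 := Nat.pow_le_pow_left h4 3
      _ = a ^ 6 := by ring
  have h6 : 3 * q * R * (R - 1) ≤ 4 * (a + 5).choose j := by
    have h7 : 3 * q * R * (R - 1) ≤ 3 * R ^ 3 := by
      have : R - 1 ≤ R := Nat.sub_le _ _
      calc 3 * q * R * (R - 1) ≤ 3 * R * R * R := by gcongr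
        _ = 3 * R ^ 3 := by ring
    have h8 : (9 * R) ^ 3 = 729 * R ^ 3 := by ring
    rw [h8] at h5
    generalize R ^ 3 = z at *
    omega
  calc 3 * q * R * (R - 1) * (R / s - 1).choose (κ / s)
      ≤ 4 * (a + 5).choose j * (R / s - 1).choose (κ / s) := Nat.mul_le_mul_right _ h6
    _ = 4 * ((R / s - 1).choose (κ / s) * (a + 5).choose j) := by ring
    _ ≤ _ := Nat.mul_le_mul_left _ hv

lemma big3 {R s κ : ℕ} (hs : 3 ≤ s) (hs2 : Odd s) (hsR : s ∣ R) (hR : 24 ≤ R) (hκ7 : 8 ≤ κ)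
    (hκ : 2 * κ ≤ R - 1) :
    3 * 3 * R * (R - 1) * (R / s - 1).choose (κ / s) ≤ 4 * (R - 1).choose κ := by
  have hv := vand (κ := κ) (by omega : 1 < s) hsR (by omega)
  have hh := half_le (κ := κ) (by omega : 1 < s) hs2 hsR hκ (by omega)
  have hM : 3 * (R - R / s) ≥ 2 * R := by
    have : R / s ≤ R / 3 := Nat.div_le_div_left hs (by norm_num)
    omega
  have hj : 5 ≤ κ - κ / s := by
    have : κ / s ≤ κ / 3 := Nat.div_le_div_left hs (by norm_num)
    omega
  generalize R - R / s = M at *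
  generalize κ - κ / s = j at *
  have h1 := mono_choose (M := M) hj hh
  have h2 := Nat.pow_sub_le_descFactorial M 5
  rw [Nat.descFactorial_eq_factorial_mul_choose] at h2
  have h3 : Nat.factorial 5 = 120 := rfl
  rw [h3, show M + 1 - 5 = M - 4 by omega] at h2
  obtain ⟨a, ha⟩ : ∃ a, M = a + 4 := ⟨M - 4, by omega⟩
  subst ha
  rw [Nat.add_sub_cancel] at h2
  have h4 : R ≤ 2 * a := by omega
  have h5 : R ^ 5 ≤ 32 * a ^ 5 := by
    calc R ^ 5 ≤ (2 * a) ^ 5 := Nat.pow_le_pow_left h4 5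
      _ = 32 * a ^ 5 := by ring
  have h6 : 3 * 3 * R * (R - 1) ≤ 4 * (a + 4).choose j := by
    have h7 : 3 * 3 * R * (R - 1) ≤ 9 * R ^ 2 := by
      have : R - 1 ≤ R := Nat.sub_le _ _
      calc 3 * 3 * R * (R - 1) ≤ 3 * 3 * R * R := by gcongr
        _ = 9 * R ^ 2 := by ring
    have h8 : 24 ^ 3 * R ^ 2 ≤ R ^ 5 := by
      calc 24 ^ 3 * R ^ 2 ≤ R ^ 3 * R ^ 2 := Nat.mul_le_mul_right _ (Nat.pow_le_pow_left hR 3)
        _ = R ^ 5 := by ring
    generalize R ^ 5 = y at *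
    generalize R ^ 2 = z at *
    generalize a ^ 5 = x at *
    omega
  calc 3 * 3 * R * (R - 1) * (R / s - 1).choose (κ / s)
      ≤ 4 * (a + 4).choose j * (R / s - 1).choose (κ / s) := Nat.mul_le_mul_right _ h6
    _ = 4 * ((R / s - 1).choose (κ / s) * (a + 4).choose j) := by ring
    _ ≤ _ := Nat.mul_le_mul_left _ hv

lemma small25 {s κ q : ℕ} (hs : 1 < s) (hsR : s ∣ 25) (hκ5 : 5 ≤ κ) (hκ : κ ≤ 12) (hq : q ≤ 23) :
    3 * q * 25 * (25 - 1) * (25 / s - 1).choose (κ / s) ≤ 4 * (25 - 1).choose κ := by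
  have hs5 : s = 5 ∨ s = 25 := by
    have h1 : s ≤ 25 := Nat.le_of_dvd (by norm_num) hsR
    interval_cases s <;> revert hsR <;> decide
  have key : 3 * 23 * 25 * (25 - 1) * (25 / s - 1).choose (κ / s) ≤ 4 * (25 - 1).choose κ := by
    rcases hs5 with rfl | rfl <;> interval_cases κ <;> decide +kernel
  refine le_trans ?_ key
  gcongr

lemma small15 {s κ : ℕ} (hs : 1 < s) (hsR : s ∣ 15) (hκ5 : 5 ≤ κ) (hκ : κ ≤ 7) :
    3 * 3 * 15 * (15 - 1) * (15 / s - 1).choose (κ / s) ≤ 4 * (15 - 1).choose κ := by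
  have hs5 : s = 3 ∨ s = 5 ∨ s = 15 := by
    have h1 : s ≤ 15 := Nat.le_of_dvd (by norm_num) hsR
    interval_cases s <;> revert hsR <;> decide
  rcases hs5 with rfl | rfl | rfl <;> interval_cases κ <;> decide +kernel

lemma small21 {s κ : ℕ} (hs : 1 < s) (hsR : s ∣ 21) (hκ5 : 7 ≤ κ) (hκ : κ ≤ 10) :
    3 * 3 * 21 * (21 - 1) * (21 / s - 1).choose (κ / s) ≤ 4 * (21 - 1).choose κ := by
  have hs5 : s = 3 ∨ s = 7 ∨ s = 21 := by
    have h1 : s ≤ 21 := Nat.le_of_dvd (by norm_num) hsR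
    interval_cases s <;> revert hsR <;> decide
  rcases hs5 with rfl | rfl | rfl <;> interval_cases κ <;> decide +kernel

end Pool.Agent.H95.SD
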