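import Pool.Agent.H95.SD.Eval

set_option autoImplicit false

/-! # Necessary conditions: the magnitude argument -/

open Finset

namespace Pool.Agent.H95.SD

lemma Ph_prime {q y : ℕ} (hq : q.Prime) (hy : y < q) : Ph y q = y := by
  unfold Ph
  rw [Finset.filter_true_of_mem, Nat.card_Icc, Nat.add_sub_cancel]
  intro c hc
  rw [mem_Icc] at hc
  exact Nat.coprime_of_lt_prime (by omega) (by omega) hq

lemma Ph_le (y r : ℕ) : Ph y r ≤ y := by
  unfold Ph
  refine (Finset.card_filter_le _ _).trans ?_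
  simp

/-- the coefficient of the order `n` -/
lemma SS_top {n k : ℕ} (hk : k < n) : SS n k n = (n.totient : ℤ) * Ph k n := by
  have hn : 0 < n := by omega
  unfold SS
  rw [Finset.sum_eq_single n]
  · have h := HH_top (r := n) (s := 1) (k := k) hn one_pos (by rwa [mul_one])
    rw [mul_one, Nat.div_one] at h
    rw [h]
  · intro d hd hdn
    rw [HH_ndvd, mul_zero]
    intro h
    exact hdn (Nat.dvd_antisymm (Nat.dvd_of_mem_divisors hd) h)
  · intro h
    exact absurd (Nat.mem_divisors.2 ⟨dvd_rfl, hn.ne'⟩) h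

lemma SS_prime {q R k : ℕ} (hq : q.Prime) (hR : 0 < R) :
    SS (q * R) k q = ∑ s ∈ R.divisors, ((q * s).totient : ℤ) * HH (q * R) k (q * s) q := by
  have hinj : Set.InjOn (fun s => q * s) (R.divisors : Set ℕ) := by
    intro a _ b _ h
    exact Nat.eq_of_mul_eq_mul_left hq.pos h
  unfold SS
  rw [← Finset.sum_image (f := fun d => (d.totient : ℤ) * HH (q * R) k d q) hinj]
  symm
  apply Finset.sum_subset
  · intro d hd
    obtain ⟨s, hs, rfl⟩ := Finset.mem_image.1 hd
    exact Nat.mem_divisors.2 ⟨Nat.mul_dvd_mul_left q (Nat.dvd_of_mem_divisors hs),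
      (Nat.mul_pos hq.pos hR).ne'⟩
  · intro d hd hd'
    rw [HH_ndvd, mul_zero]
    rintro ⟨s, rfl⟩
    apply hd'
    refine Finset.mem_image.2 ⟨s, Nat.mem_divisors.2 ⟨?_, hR.ne'⟩, rfl⟩
    exact Nat.dvd_of_mul_dvd_mul_left hq.pos (Nat.dvd_of_mem_divisors hd)

/-- the value of a contribution -/
lemma HH_val {q s M k : ℕ} (hq : q.Prime) (hs : 0 < s) (hM : 0 < M) :
    ((M : ℤ) - 1) * HH (q * s * M) k (q * s) q =
      (-1) ^ (k / (q * s)) * ((M - 1).choose (k / (q * s)) : ℤ) *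
        ((M - 1) * ((k % (q * s) / s : ℕ) : ℤ) - (q - 1) * ((k / (q * s) : ℕ) : ℤ)) := by
  have hm : k % (q * s) < q * s := Nat.mod_lt _ (Nat.mul_pos hq.pos hs)
  have h := HH_mul (r := q) (s := s) (m := k % (q * s)) (κ := k / (q * s)) (M := M) hq.pos hs hm hM
  rw [Nat.div_add_mod, Ph_prime hq ((Nat.div_lt_iff_lt_mul hs).2 hm), Nat.totient_prime hq] at h
  rw [h, Nat.cast_sub hq.one_le]
  push_cast
  ring

lemma HH_bound {q s M k : ℕ} (hq : q.Prime) (hs : 0 < s) (hM : 0 < M) (hk : k < q * s * M) :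
    |HH (q * s * M) k (q * s) q| ≤ ((q : ℤ) - 1) * ((M - 1).choose (k / (q * s)) : ℤ) := by
  have hq1 : (1 : ℤ) ≤ q := by exact_mod_cast hq.one_le
  by_cases h1 : M = 1
  · subst h1
    rw [mul_one] at hk ⊢
    rw [HH_top hq.pos hs hk, Ph_prime hq ((Nat.div_lt_iff_lt_mul hs).2 hk), Nat.div_eq_of_lt hk]
    have h2 : k / s < q := (Nat.div_lt_iff_lt_mul hs).2 hk
    have h3 : ((k / s : ℕ) : ℤ) + 1 ≤ q := by exact_mod_cast h2
    rw [abs_of_nonneg (by positivity)]
    simp only [Nat.sub_self, Nat.choose_self, Nat.cast_one, mul_one]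
    linarith
  · have hM2 : 2 ≤ M := by omega
    have hMZ : (0 : ℤ) < (M : ℤ) - 1 := by
      have : (2 : ℤ) ≤ M := by exact_mod_cast hM2
      linarith
    have hqs : 0 < q * s := Nat.mul_pos hq.pos hs
    have h := HH_val (q := q) (s := s) (M := M) (k := k) hq hs hM
    have hm : k % (q * s) < q * s := Nat.mod_lt _ hqs
    have h2 : k % (q * s) / s < q := (Nat.div_lt_iff_lt_mul hs).2 hm
    have h3 : ((k % (q * s) / s : ℕ) : ℤ) + 1 ≤ q := by exact_mod_cast h2
    have h4 : k / (q * s) < M := (Nat.div_lt_iff_lt_mul hqs).2 (by rwa [mul_comm M])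
    have h5 : ((k / (q * s) : ℕ) : ℤ) + 1 ≤ M := by exact_mod_cast h4
    have h6 : (0 : ℤ) ≤ ((k % (q * s) / s : ℕ) : ℤ) := by positivity
    have h7 : (0 : ℤ) ≤ ((k / (q * s) : ℕ) : ℤ) := by positivity
    generalize ((k % (q * s) / s : ℕ) : ℤ) = y at *
    generalize hκ : k / (q * s) = κ at *
    have h8 : |((M : ℤ) - 1) * y - (q - 1) * κ| ≤ (M - 1) * (q - 1) := by
      rw [abs_le]
      constructor
      · nlinarith
      · nlinarith
    have h9 : ((M : ℤ) - 1) * |HH (q * s * M) k (q * s) q| ≤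
        ((M : ℤ) - 1) * (((q : ℤ) - 1) * ((M - 1).choose κ : ℤ)) := by
      rw [← abs_of_pos hMZ, ← abs_mul, h, abs_mul, abs_mul, abs_pow, abs_neg, abs_one, one_pow,
        one_mul, abs_of_nonneg (by positivity : (0 : ℤ) ≤ ((M - 1).choose κ : ℤ)), abs_of_pos hMZ]
      have h10 : (0 : ℤ) ≤ ((M - 1).choose κ : ℤ) := by positivity
      nlinarith
    exact le_of_mul_le_mul_left h9 hMZ

lemma tot_le {q s : ℕ} (hq : q.Prime) : (q * s).totient ≤ q * s.totient := by
  by_cases h : q ∣ s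
  · rw [Nat.totient_mul_of_prime_of_dvd hq h]
  · rw [Nat.totient_mul_of_prime_of_not_dvd hq h]
    exact Nat.mul_le_mul_right _ (Nat.sub_le _ _)

/-- the final computation -/
lemma dvd_of_zero {q R k : ℕ} (hq : 0 < q)
    (h : ((R : ℤ) - 1) * ((k % q : ℕ) : ℤ) - (q - 1) * ((k / q : ℕ) : ℤ) = 0) :
    ((q * R - 1 : ℕ) : ℤ) * ((k % q : ℕ) : ℤ) = k * ((q : ℤ) - 1) ∨ q * R = 0 := by
  rcases Nat.eq_zero_or_pos (q * R) with h0 | h0
  · exact Or.inr h0
  · left
    have h1 : (k : ℤ) = q * ((k / q : ℕ) : ℤ) + ((k % q : ℕ) : ℤ) := by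
      exact_mod_cast (Nat.div_add_mod k q).symm
    generalize ((k / q : ℕ) : ℤ) = x at *
    generalize ((k % q : ℕ) : ℤ) = y at *
    rw [Nat.cast_sub h0]
    push_cast
    rw [h1]
    linear_combination (q : ℤ) * h

/-- **The magnitude argument.** -/
lemma main_mag {q R k : ℕ} (hq : q.Prime) (hq2 : Odd q) (hR : 1 < R) (hR2 : Odd R)
    (hk : 2 * k < q * R)
    (hJ : ∀ s, s ∣ R → 1 < s →
      3 * q * R * (R - 1) * (R / s - 1).choose (k / q / s) ≤ 4 * (R - 1).choose (k / q))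
    (hS : SS (q * R) k q = (q.totient : ℤ) * Ph k (q * R)) :
    (q * R - 1) ∣ k * (q - 1) := by
  have hR0 : 0 < R := by omega
  have hkn : k < q * R := by omega
  set Δ : ℤ := ((R : ℤ) - 1) * ((k % q : ℕ) : ℤ) - (q - 1) * ((k / q : ℕ) : ℤ) with hΔ
  have hq1 : (2 : ℤ) ≤ q := by exact_mod_cast hq.two_le
  have hR1 : (2 : ℤ) ≤ R := by exact_mod_cast hR
  by_cases h0 : Δ = 0
  · rcases dvd_of_zero hq.pos h0 with h | h
    · have h1 : ((k * (q - 1) : ℕ) : ℤ) = ((q * R - 1 : ℕ) : ℤ) * ((k % q : ℕ) : ℤ) := by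
        rw [h]
        push_cast [Nat.cast_sub hq.one_le]
        ring
      exact Int.natCast_dvd_natCast.1 ⟨_, h1⟩
    · omega
  · exfalso
    -- the main term
    have hv := HH_val (q := q) (s := 1) (M := R) (k := k) hq one_pos hR0
    rw [mul_one, Nat.div_one] at hv
    rw [← hΔ] at hv
    have heven : (2 : ℤ) ∣ Δ := by
      obtain ⟨a, ha⟩ := hq2
      obtain ⟨b, hb⟩ := hR2
      rw [hΔ, ha, hb]
      push_cast
      refine ⟨(b : ℤ) * ((k % (2 * a + 1) : ℕ) : ℤ) - a * ((k / (2 * a + 1) : ℕ) : ℤ), ?_⟩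
      push_cast
      ring
    have hΔ2 : 2 ≤ |Δ| := by
      obtain ⟨z, hz⟩ := heven
      have hz0 : z ≠ 0 := by
        rintro rfl
        exact h0 (by rw [hz, mul_zero])
      rw [hz, abs_mul]
      have := Int.one_le_abs hz0
      norm_num
      linarith
    set A : ℤ := HH (q * R) k q q with hA
    set C : ℤ := ((R - 1).choose (k / q) : ℤ) with hC
    have hC0 : 0 ≤ C := by positivity
    have hRA : ((R : ℤ) - 1) * |A| = C * |Δ| := by
      rw [← abs_of_pos (show (0 : ℤ) < (R : ℤ) - 1 by linarith), ← abs_mul, hv, abs_mul, abs_mul,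
        abs_pow, abs_neg, abs_one, one_pow, one_mul, abs_of_nonneg hC0]
    have hRA2 : 2 * C ≤ ((R : ℤ) - 1) * |A| := by
      rw [hRA]
      nlinarith
    -- the sum
    have hsum := SS_prime (q := q) (R := R) (k := k) hq hR0
    rw [hS, ← Finset.add_sum_erase _ _ (Nat.mem_divisors.2 ⟨one_dvd R, hR0.ne'⟩), mul_one,
      ← hA, Nat.totient_prime hq, Nat.cast_sub hq.one_le] at hsum
    push_cast at hsum
    have hb : ∀ s ∈ R.divisors.erase 1, |((q * s).totient : ℤ) * HH (q * R) k (q * s) q| ≤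
        ((q : ℤ) - 1) * (q * (s.totient * ((R / s - 1).choose (k / q / s) : ℤ))) := by
      intro s hs
      obtain ⟨hs1, hs2⟩ := mem_erase.1 hs
      obtain ⟨M, hM⟩ := Nat.dvd_of_mem_divisors hs2
      have hs0 : 0 < s := Nat.pos_of_mem_divisors hs2
      have hM0 : 0 < M := by
        rcases Nat.eq_zero_or_pos M with h | h
        · rw [h, mul_zero] at hM
          omega
        · exact h
      have hRs : R / s = M := by rw [hM, Nat.mul_div_cancel_left _ hs0]
      have h1 := HH_bound (q := q) (s := s) (M := M) (k := k) hq hs0 hM0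
        (by rw [mul_assoc, ← hM]; exact hkn)
      rw [mul_assoc, ← hM] at h1
      rw [abs_mul, abs_of_nonneg (by positivity : (0 : ℤ) ≤ ((q * s).totient : ℤ)), hRs,
        Nat.div_div_eq_div_mul]
      have h2 : ((q * s).totient : ℤ) ≤ q * s.totient := by exact_mod_cast tot_le hq
      have h3 : (0 : ℤ) ≤ ((q : ℤ) - 1) * ((M - 1).choose (k / (q * s)) : ℤ) := by
        have : (0 : ℤ) ≤ ((M - 1).choose (k / (q * s)) : ℤ) := by positivity
        nlinarith
      calc ((q * s).totient : ℤ) * |HH (q * R) k (q * s) q|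
          ≤ (q * s.totient) * (((q : ℤ) - 1) * ((M - 1).choose (k / (q * s)) : ℤ)) :=
            mul_le_mul h2 h1 (abs_nonneg _) (by positivity)
        _ = _ := by ring
    set T : ℤ := ∑ s ∈ R.divisors.erase 1, ((s.totient : ℤ) * ((R / s - 1).choose (k / q / s) : ℤ))
      with hT
    have hb2 : |∑ s ∈ R.divisors.erase 1, ((q * s).totient : ℤ) * HH (q * R) k (q * s) q| ≤
        ((q : ℤ) - 1) * (q * T) := by
      refine (Finset.abs_sum_le_sum_abs _ _).trans ((Finset.sum_le_sum hb).trans ?_)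
      rw [← Finset.mul_sum, ← Finset.mul_sum]
    -- the bound for T
    have hTb : 3 * q * R * ((R : ℤ) - 1) * T ≤ (R - 1) * (4 * C) := by
      rw [hT, Finset.mul_sum]
      have h1 : ∀ s ∈ R.divisors.erase 1, 3 * (q : ℤ) * R * ((R : ℤ) - 1) *
          ((s.totient : ℤ) * ((R / s - 1).choose (k / q / s) : ℤ)) ≤ (s.totient : ℤ) * (4 * C) := by
        intro s hs
        obtain ⟨hs1, hs2⟩ := mem_erase.1 hs
        have hs0 : 0 < s := Nat.pos_of_mem_divisors hs2
        have h2 := hJ s (Nat.dvd_of_mem_divisors hs2) (by omega)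
        have h3 : 3 * (q : ℤ) * R * ((R : ℤ) - 1) * ((R / s - 1).choose (k / q / s) : ℤ) ≤
            4 * C := by
          have : ((3 * q * R * (R - 1) * (R / s - 1).choose (k / q / s) : ℕ) : ℤ) ≤
            ((4 * (R - 1).choose (k / q) : ℕ) : ℤ) := by exact_mod_cast h2
          push_cast [Nat.cast_sub hR0] at this
          exact this
        have h4 : (0 : ℤ) ≤ (s.totient : ℤ) := by positivity
        nlinarith
      refine (Finset.sum_le_sum h1).trans ?_
      rw [← Finset.sum_mul]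
      have h5 : (∑ s ∈ R.divisors.erase 1, (s.totient : ℤ)) = R - 1 := by
        have h6 := Finset.add_sum_erase R.divisors (fun s => (s.totient : ℤ))
          (Nat.mem_divisors.2 ⟨one_dvd R, hR0.ne'⟩)
        have h7 : (∑ f ∈ R.divisors, (f.totient : ℤ)) = R := by
          exact_mod_cast Nat.sum_totient R
        rw [h7] at h6
        simp only [Nat.totient_one, Nat.cast_one] at h6
        linarith
      rw [h5]
    have hT0 : 0 ≤ T := Finset.sum_nonneg fun s _ => by positivity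
    -- the bound for `k`
    have hkb : 3 * ((R : ℤ) - 1) * (2 * k) < 4 * C := by
      have h2 := hJ R dvd_rfl hR
      rw [Nat.div_self hR0, Nat.sub_self, Nat.div_eq_of_lt
        ((Nat.div_lt_iff_lt_mul hq.pos).2 (by rw [mul_comm]; exact hkn)), Nat.choose_self,
        mul_one] at h2
      have h3 : 3 * (q : ℤ) * R * ((R : ℤ) - 1) ≤ 4 * C := by
        have : ((3 * q * R * (R - 1) : ℕ) : ℤ) ≤
            ((4 * (R - 1).choose (k / q) : ℕ) : ℤ) := by exact_mod_cast h2
        push_cast [Nat.cast_sub hR0] at this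
        exact this
      have h4 : (2 : ℤ) * k + 1 ≤ q * R := by exact_mod_cast hk
      nlinarith
    -- the conclusion
    set P : ℤ := (Ph k (q * R) : ℤ) with hP
    have hP0 : 0 ≤ P := by positivity
    have hPk : P ≤ k := by
      rw [hP]
      exact_mod_cast Ph_le k (q * R)
    set X : ℤ := ∑ s ∈ R.divisors.erase 1, ((q * s).totient : ℤ) * HH (q * R) k (q * s) q with hX
    have h1 : |((q : ℤ) - 1) * A| ≤ ((q : ℤ) - 1) * (P + q * T) := by
      have h2 : ((q : ℤ) - 1) * A = ((q : ℤ) - 1) * P - X := by linarith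
      rw [h2]
      refine (abs_sub _ _).trans ?_
      rw [abs_of_nonneg (by nlinarith : (0 : ℤ) ≤ ((q : ℤ) - 1) * P)]
      linarith
    have h2 : |A| ≤ P + q * T := by
      rw [abs_mul, abs_of_pos (by linarith : (0 : ℤ) < (q : ℤ) - 1)] at h1
      exact le_of_mul_le_mul_left h1 (by linarith)
    -- 2 C ≤ (R - 1) (k + q T)
    have h3 : 2 * C ≤ ((R : ℤ) - 1) * (k + q * T) := by
      have : ((R : ℤ) - 1) * |A| ≤ ((R : ℤ) - 1) * (k + q * T) := by
        apply mul_le_mul_of_nonneg_left _ (by linarith)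
        linarith
      linarith
    -- multiply by 3 R
    have h4 : 3 * (R : ℤ) * (((R : ℤ) - 1) * (q * T)) ≤ (R - 1) * (4 * C) := by
      calc 3 * (R : ℤ) * (((R : ℤ) - 1) * (q * T)) = 3 * q * R * ((R : ℤ) - 1) * T := by ring
        _ ≤ _ := hTb
    have h5 : 3 * ((R : ℤ) - 1) * k < 2 * C := by linarith
    have h6 : 3 * (R : ℤ) * (2 * C) ≤ 3 * (R : ℤ) * (((R : ℤ) - 1) * (k + q * T)) :=
      mul_le_mul_of_nonneg_left h3 (by linarith)
    have h7 : 3 * (R : ℤ) * (((R : ℤ) - 1) * (k + q * T)) =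
        R * (3 * ((R : ℤ) - 1) * k) + 3 * (R : ℤ) * (((R : ℤ) - 1) * (q * T)) := by ring
    have h8 : (R : ℤ) * (3 * ((R : ℤ) - 1) * k) ≤ R * (2 * C) :=
      mul_le_mul_of_nonneg_left h5.le (by linarith)
    have h9 : C ≤ 0 := by nlinarith
    have h10 : (0 : ℤ) ≤ 3 * ((R : ℤ) - 1) * k := by
      have : (0 : ℤ) ≤ k := by positivity
      nlinarith
    linarith

end Pool.Agent.H95.SD
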