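import Pool.Agent.H95.SD.Eval

set_option autoImplicit false

/-! # The sufficient conditions -/

open Finset

namespace Pool.Agent.H95.SD

/-- Small `k`. -/
lemma suf_small {n k : ℕ} (hn : 1 < n) (hk : k < n.minFac) :
    ∃ c : ℤ, ∀ r : ℕ, r ∣ n → 1 < r → SS n k r = (r.totient : ℤ) * c := by
  refine ⟨k, fun r hr h1 => ?_⟩
  have hn0 : n ≠ 0 := by omega
  have key : ∀ d ∈ n.divisors, (d.totient : ℤ) * HH n k d r =
      if d = r then (r.totient : ℤ) * k else 0 := by
    intro d hd
    have hdn := Nat.dvd_of_mem_divisors hd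
    have hg : ∀ i < k, Nat.gcd d (i + 1) = 1 := by
      intro i hi
      by_contra h
      have h2 : Nat.gcd d (i + 1) ∣ n := (Nat.gcd_dvd_left _ _).trans hdn
      have h3 : Nat.gcd d (i + 1) ≤ i + 1 := Nat.le_of_dvd (Nat.succ_pos i) (Nat.gcd_dvd_right _ _)
      have h4 : 0 < Nat.gcd d (i + 1) := Nat.gcd_pos_of_pos_right _ (Nat.succ_pos i)
      have h5 : n.minFac ≤ Nat.gcd d (i + 1) := Nat.minFac_le_of_dvd (by omega) h2
      omega
    split_ifs with h
    · subst h
      congr 1
      unfold HH
      rw [Finset.filter_true_of_mem]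
      · have h6 : ∀ i ∈ range k, eps n d (k - 1 - i) = 1 := by
          intro i hi
          have hi' := mem_range.1 hi
          have h7 : n.minFac ≤ d := Nat.minFac_le_of_dvd h1 hdn
          unfold eps
          rw [Nat.div_eq_of_lt (show k - 1 - i < d by omega)]
          simp
        rw [Finset.sum_congr rfl h6]
        simp
      · intro i hi
        rw [hg i (mem_range.1 hi), one_mul]
    · have h8 : HH n k d r = 0 := by
        unfold HH
        apply Finset.sum_eq_zero
        intro i hi
        rw [mem_filter] at hi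
        exfalso
        apply h
        rw [← hi.2, hg i (mem_range.1 hi.1), one_mul]
      rw [h8, mul_zero]
  unfold SS
  rw [Finset.sum_congr rfl key, Finset.sum_ite_eq', if_pos (Nat.mem_divisors.2 ⟨hr, hn0⟩)]

lemma modeq_one {c : ℕ} : ∀ e : ℕ, 0 < e → (∀ q : ℕ, q.Prime → q ∣ e → c ∣ q - 1) →
    ∃ v, e = 1 + c * v := by
  intro e
  induction e using Nat.strong_induction_on with
  | _ e ih =>
    intro he h
    by_cases h1 : e = 1
    · exact ⟨0, by omega⟩
    · have hq := Nat.minFac_prime h1
      obtain ⟨f, hf⟩ := Nat.minFac_dvd e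
      have hf0 : 0 < f := by
        rcases Nat.eq_zero_or_pos f with h2 | h2
        · rw [h2, mul_zero] at hf
          omega
        · exact h2
      have hlt : f < e := by
        conv_rhs => rw [hf]
        nlinarith [hq.two_le]
      obtain ⟨v, hv⟩ := ih f hlt hf0 (fun q hq' hqf => h q hq' (hf ▸ hqf.mul_left _))
      obtain ⟨w, hw⟩ := h _ hq (Nat.minFac_dvd e)
      have hq1 : e.minFac = 1 + c * w := by
        have := hq.one_lt
        omega
      refine ⟨w + v + c * w * v, ?_⟩
      rw [hf, hq1, hv]
      ring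

lemma floor_lem {c t u e v : ℕ} (hc : 0 < c) (ht : t ≤ c) (he : 0 < e)
    (h : e * (1 + c * v) = 1 + c * u) : t * u / e = t * v := by
  have h1 : c * (t * u) + t = t * e + c * (t * v * e) := by
    have h0 : t * (e * (1 + c * v)) = t * (1 + c * u) := by rw [h]
    nlinarith
  apply Nat.div_eq_of_lt_le
  · apply Nat.le_of_mul_le_mul_left _ hc
    nlinarith [Nat.le_mul_of_pos_right t he]
  · apply Nat.lt_of_mul_lt_mul_left (a := c)
    have h2 : t * e ≤ c * e := Nat.mul_le_mul_right e ht
    have h3 : c * ((t * v + 1) * e) = c * (t * v * e) + c * e := by ring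
    rw [h3]
    rcases Nat.eq_zero_or_pos t with h0 | h0
    · subst h0
      have : 0 < c * e := Nat.mul_pos hc he
      simp at h1 ⊢
      exact ⟨hc, he⟩
    · omega

lemma sum_Ph {r y : ℕ} (hr : 0 < r) : ∑ f ∈ r.divisors, Ph (y / (r / f)) f = y := by
  have h1 : ∀ f ∈ r.divisors, Ph (y / (r / f)) f =
      ((Icc 1 y).filter (fun c => r / Nat.gcd r c = f)).card := by
    intro f hf
    obtain ⟨s, hs⟩ := Nat.dvd_of_mem_divisors hf
    have hf0 : 0 < f := Nat.pos_of_mem_divisors hf
    have hs0 : 0 < s := by
      rcases Nat.eq_zero_or_pos s with h | h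
      · rw [h, mul_zero] at hs
        omega
      · exact h
    have h2 : r / f = s := by rw [hs, Nat.mul_div_cancel_left _ hf0]
    rw [h2, ← BB_eq hf0 hs0, ← hs]
    congr 1
    ext c
    simp only [mem_filter, mem_Icc]
    refine and_congr_right fun hc => ?_
    have h3 : Nat.gcd r c ∣ r := Nat.gcd_dvd_left _ _
    have h4 : 0 < Nat.gcd r c := Nat.gcd_pos_of_pos_left _ hr
    constructor
    · intro h
      exact Nat.div_eq_of_eq_mul_right h4 h.symm
    · rintro rfl
      exact Nat.mul_div_cancel' h3
  rw [Finset.sum_congr rfl h1, ← Finset.card_eq_sum_card_fiberwise]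
  · simp
  · intro c hc
    simp only [coe_Icc, Set.mem_Icc] at hc
    simp only [mem_coe, Nat.mem_divisors]
    exact ⟨Nat.div_dvd_of_dvd (Nat.gcd_dvd_left _ _), hr.ne'⟩

/-- the numbers which are coprime to `r` are equidistributed -/
lemma Ph_eq {c t : ℕ} (hc : 0 < c) (ht : t ≤ c) : ∀ r : ℕ, 1 < r →
    (∀ q : ℕ, q.Prime → q ∣ r → c ∣ q - 1) → ∀ u : ℕ, r = 1 + c * u →
    c * Ph (t * u) r = t * r.totient := by
  intro r
  induction r using Nat.strong_induction_on with
  | _ r ih =>
    intro hr h u hu
    have hr0 : 0 < r := by omega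
    have hs := sum_Ph (r := r) (y := t * u) hr0
    have key : ∀ f ∈ r.divisors, ((c : ℤ) * (Ph (t * u / (r / f)) f : ℤ) - t * f.totient +
        (if f = 1 then (t : ℤ) else 0)) =
        if f = r then (c : ℤ) * (Ph (t * u) r : ℤ) - t * r.totient else 0 := by
      intro f hf
      obtain ⟨s, hs'⟩ := Nat.dvd_of_mem_divisors hf
      have hf0 : 0 < f := Nat.pos_of_mem_divisors hf
      have hs0 : 0 < s := by
        rcases Nat.eq_zero_or_pos s with h0 | h0
        · rw [h0, mul_zero] at hs'
          omega
        · exact h0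
      have h2 : r / f = s := by rw [hs', Nat.mul_div_cancel_left _ hf0]
      rw [h2]
      by_cases hfr : f = r
      · have hs1 : s = 1 := by
          rw [hfr] at hs'
          exact Nat.eq_of_mul_eq_mul_left hr0 (by rw [← hs', mul_one])
        rw [if_pos hfr, hs1, Nat.div_one, if_neg (by omega), hfr]
        ring
      · rw [if_neg hfr]
        by_cases hf1 : f = 1
        · subst hf1
          rw [one_mul] at hs'
          rw [if_pos rfl, ← hs', Nat.div_eq_of_lt]
          · simp [Ph]
          · rw [hu]
            have : t * u ≤ c * u := Nat.mul_le_mul_right u ht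
            omega
        · rw [if_neg hf1]
          obtain ⟨v, hv⟩ := modeq_one f hf0
            (fun q hq hqf => h q hq (hqf.trans (Nat.dvd_of_mem_divisors hf)))
          have h3 : t * u / s = t * v := by
            apply floor_lem hc ht hs0
            rw [← hv, ← hu, hs', mul_comm]
          have hlt : f < r := lt_of_le_of_ne (Nat.le_of_dvd hr0 (Nat.dvd_of_mem_divisors hf)) hfr
          have h4 := ih f hlt (by omega)
            (fun q hq hqf => h q hq (hqf.trans (Nat.dvd_of_mem_divisors hf))) v hv
          rw [h3]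
          have h5 : (c : ℤ) * (Ph (t * v) f : ℤ) = t * f.totient := by exact_mod_cast h4
          rw [h5]
          ring
    have hsum := Finset.sum_congr rfl key
    rw [Finset.sum_ite_eq', if_pos (Nat.mem_divisors.2 ⟨dvd_rfl, hr0.ne'⟩),
      Finset.sum_add_distrib, Finset.sum_sub_distrib, ← Finset.mul_sum, ← Finset.mul_sum,
      Finset.sum_ite_eq', if_pos (Nat.mem_divisors.2 ⟨one_dvd _, hr0.ne'⟩)] at hsum
    have h6 : (∑ f ∈ r.divisors, (Ph (t * u / (r / f)) f : ℤ)) = t * u := by
      exact_mod_cast hs
    have h7 : (∑ f ∈ r.divisors, (f.totient : ℤ)) = r := by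
      exact_mod_cast Nat.sum_totient r
    rw [h6, h7] at hsum
    have h8 : (r : ℤ) = 1 + c * u := by exact_mod_cast hu
    have h9 : (c : ℤ) * (Ph (t * u) r : ℤ) = t * r.totient := by
      rw [h8] at hsum
      linear_combination -hsum
    exact_mod_cast h9

/-- **The case `(n - 1) ∣ k (q - 1)` for all primes `q ∣ n`.** -/
lemma suf_div {n c b u : ℕ} (hn : 1 < n) (hc : 0 < c) (hb : b ≤ c) (hu : n = 1 + c * u)
    (h : ∀ q : ℕ, q.Prime → q ∣ n → c ∣ q - 1) :
    ∃ C : ℤ, ∀ r : ℕ, r ∣ n → 1 < r → SS n (b * u) r = (r.totient : ℤ) * C := by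
  refine ⟨(Ph (b * u) n : ℤ), fun r hr h1 => ?_⟩
  have hn0 : n ≠ 0 := by omega
  have hr0 : 0 < r := by omega
  have hP : ∀ f : ℕ, f ∣ n → ∃ v, f = 1 + c * v := fun f hf =>
    modeq_one f (Nat.pos_of_dvd_of_pos hf (by omega)) fun q hq hqf => h q hq (hqf.trans hf)
  have hcZ : (c : ℤ) ≠ 0 := by exact_mod_cast hc.ne'
  obtain ⟨w, hw⟩ := hP r hr
  have hPr : (c : ℤ) * (Ph (b * w) r : ℤ) = b * r.totient := by
    exact_mod_cast Ph_eq hc hb r h1 (fun q hq hqf => h q hq (hqf.trans hr)) w hw
  have key : ∀ d ∈ n.divisors, (d.totient : ℤ) * HH n (b * u) d r =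
      if d = n then (r.totient : ℤ) * (Ph (b * u) n : ℤ) else 0 := by
    intro d hd
    obtain ⟨M, hM⟩ := Nat.dvd_of_mem_divisors hd
    have hd0 : 0 < d := Nat.pos_of_mem_divisors hd
    by_cases hrd : r ∣ d
    · obtain ⟨s, hs⟩ := hrd
      have hs0 : 0 < s := by
        rcases Nat.eq_zero_or_pos s with h0 | h0
        · rw [h0, mul_zero] at hs
          omega
        · exact h0
      obtain ⟨v, hv⟩ := hP d (Nat.dvd_of_mem_divisors hd)
      have hfl : ∀ z : ℕ, d = 1 + c * z → b * z / s = b * w := by
        intro z hz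
        apply floor_lem hc hb hs0
        rw [← hw, ← hz, hs, mul_comm]
      split_ifs with hdn
      · subst hdn
        have hlt : b * u < d := by
          have : b * u ≤ c * u := Nat.mul_le_mul_right u hb
          omega
        have h2 : HH d (b * u) d r = (Ph (b * w) r : ℤ) := by
          have h3 := HH_top (r := r) (s := s) (k := b * u) hr0 hs0 (by rw [← hs]; exact hlt)
          rw [← hs, hfl u hu] at h3
          exact h3
        rw [h2]
        have h4 : (c : ℤ) * (Ph (b * u) d : ℤ) = b * d.totient := by
          exact_mod_cast Ph_eq hc hb d hn h u hu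
        apply mul_left_cancel₀ hcZ
        linear_combination (d.totient : ℤ) * hPr - (r.totient : ℤ) * h4
      · have hM1 : M ≠ 1 := by
          rintro rfl
          rw [mul_one] at hM
          exact hdn hM.symm
        have hM0 : 0 < M := by
          rcases Nat.eq_zero_or_pos M with h0 | h0
          · rw [h0, mul_zero] at hM
            omega
          · exact h0
        obtain ⟨x, hx⟩ := hP M ⟨d, by rw [hM, mul_comm]⟩
        have hu' : u = d * x + v := by
          have h5 : c * u = c * (d * x + v) := by
            have h6 : 1 + c * u = d * M := by rw [← hu, hM]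
            have h7 : d * M = d * (1 + c * x) := by rw [hx]
            have h8 : d * (1 + c * x) = d + c * (d * x) := by ring
            have h9 : c * (d * x + v) = c * (d * x) + c * v := by ring
            omega
          exact Nat.eq_of_mul_eq_mul_left hc h5
        have hk : b * u = r * s * (b * x) + b * v := by
          rw [hu', hs]
          ring
        have hm : b * v < r * s := by
          rw [← hs]
          have : b * v ≤ c * v := Nat.mul_le_mul_right v hb
          omega
        have h10 := HH_mul (r := r) (s := s) (m := b * v) (κ := b * x) (M := M) hr0 hs0 hm hM0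
        rw [← hk, ← hs, ← hM, hfl v hv] at h10
        have hx0 : x ≠ 0 := by
          rintro rfl
          exact hM1 (by omega)
        have hMZ : (M : ℤ) - 1 = c * x := by
          rw [hx]
          push_cast
          ring
        have h11 : (c : ℤ) * (((M : ℤ) - 1) * HH n (b * u) d r) = 0 := by
          rw [h10, hMZ]
          push_cast
          linear_combination (c : ℤ) * ((-1) ^ (b * x) * ((M - 1).choose (b * x) : ℤ)) * x * hPr
        have h12 : HH n (b * u) d r = 0 := by
          rcases mul_eq_zero.1 h11 with h13 | h13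
          · exact absurd h13 hcZ
          · rcases mul_eq_zero.1 h13 with h14 | h14
            · rw [hMZ] at h14
              rcases mul_eq_zero.1 h14 with h15 | h15
              · exact absurd h15 hcZ
              · exact absurd (by exact_mod_cast h15) hx0
            · exact h14
        rw [h12, mul_zero]
    · rw [HH_ndvd hrd, mul_zero, if_neg]
      rintro rfl
      exact hrd hr
  unfold SS
  rw [Finset.sum_congr rfl key, Finset.sum_ite_eq', if_pos (Nat.mem_divisors.2 ⟨dvd_rfl, hn0⟩)]

end Pool.Agent.H95.SD
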