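import Pool.Agent.H95.SD.Nec
import Pool.Agent.H95.SD.Suf
import Pool.Agent.H95.SD.Jneq

set_option autoImplicit false

/-! # Necessary conditions -/

open Finset
open scoped Pointwise

namespace Pool.Agent.H95.SD

lemma Ph_pos {y r : ℕ} (hy : 1 ≤ y) : 0 < Ph y r := by
  unfold Ph
  apply Finset.card_pos.2
  exact ⟨1, mem_filter.2 ⟨mem_Icc.2 ⟨le_rfl, hy⟩, Nat.coprime_one_right r⟩⟩

/-- **Step 0.** -/
lemma step0 {p r k : ℕ} (hp : p.Prime) (hr : 1 < r) (hk : k < r)
    (h : SS (r * p) k r = (r.totient : ℤ) * Ph k (r * p)) : k < p := by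
  have hr0 : 0 < r := by omega
  have hrp : k < r * p := lt_of_lt_of_le hk (Nat.le_mul_of_pos_right r hp.pos)
  have hne : r ≠ r * p := by
    intro h0
    have : r * 1 = r * p := by rw [mul_one]; exact h0
    have := Nat.eq_of_mul_eq_mul_left hr0 this
    exact hp.one_lt.ne this
  have h1 : SS (r * p) k r = (r.totient : ℤ) * HH (r * p) k r r +
      ((r * p).totient : ℤ) * HH (r * p) k (r * p) r := by
    unfold SS
    rw [← Finset.sum_pair (f := fun d => (d.totient : ℤ) * HH (r * p) k d r) hne]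
    symm
    apply Finset.sum_subset
    · intro d hd
      rw [Nat.mem_divisors]
      refine ⟨?_, (Nat.mul_pos hr0 hp.pos).ne'⟩
      rcases Finset.mem_insert.1 hd with rfl | hd
      · exact dvd_mul_right _ _
      · rw [Finset.mem_singleton.1 hd]
    · intro d hd hd'
      rw [HH_ndvd, mul_zero]
      rintro ⟨e, rfl⟩
      have h2 : e ∣ p := Nat.dvd_of_mul_dvd_mul_left hr0 (Nat.dvd_of_mem_divisors hd)
      apply hd'
      rcases (Nat.dvd_prime hp).1 h2 with rfl | rfl
      · rw [mul_one]
        exact Finset.mem_insert_self _ _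
      · exact Finset.mem_insert_of_mem (Finset.mem_singleton_self _)
  have h2 : HH (r * p) k r r = (Ph k r : ℤ) := by
    have h3 := HH_split (d := r) (r := r) (m := k) (κ := 0) (M := p) hr0 dvd_rfl hk
    have h4 := BB_eq (r := r) (s := 1) (m := k) hr0 one_pos
    rw [mul_one, Nat.div_one] at h4
    rw [mul_zero, zero_add, h4] at h3
    rw [h3]
    simp
  rw [h1, h2, HH_top hr0 hp.pos hrp] at h
  have h5 : Ph k (r * p) ≤ Ph k r := by
    unfold Ph
    apply Finset.card_le_card
    intro c hc
    rw [mem_filter] at hc ⊢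
    exact ⟨hc.1, Nat.Coprime.coprime_dvd_left (dvd_mul_right _ _) hc.2⟩
  have h6 : (Ph k (r * p) : ℤ) ≤ Ph k r := by exact_mod_cast h5
  have h7 : (0 : ℤ) < r.totient := by exact_mod_cast Nat.totient_pos.2 hr0
  have h8 : (0 : ℤ) < (r * p).totient := by
    exact_mod_cast Nat.totient_pos.2 (Nat.mul_pos hr0 hp.pos)
  by_contra hkp
  have h9 : 0 < Ph (k / p) r := Ph_pos (Nat.div_pos (not_lt.1 hkp) hp.pos)
  have h10 : (0 : ℤ) < Ph (k / p) r := by exact_mod_cast h9
  nlinarith

lemma Ph_two {q R k : ℕ} (hq : q.Prime) (hR : R.Prime) (hk : k < q * R) :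
    (q ≠ R → Ph k (q * R) + k / q + k / R = k) ∧ (q = R → Ph k (q * R) + k / q = k) := by
  have hs := sum_Ph (r := q * R) (y := k) (Nat.mul_pos hq.pos hR.pos)
  constructor
  · intro hne
    have hd : (q * R).divisors = {1, q, R, q * R} := by
      rw [Nat.divisors_mul, hq.divisors, hR.divisors]
      ext x
      simp only [Finset.mem_mul, Finset.mem_insert, Finset.mem_singleton]
      constructor
      · rintro ⟨a, ha, b, hb, rfl⟩
        rcases ha with rfl | rfl <;> rcases hb with rfl | rfl <;> simp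
      · rintro (rfl | rfl | rfl | rfl)
        · exact ⟨1, Or.inl rfl, 1, Or.inl rfl, rfl⟩
        · exact ⟨_, Or.inr rfl, 1, Or.inl rfl, mul_one _⟩
        · exact ⟨1, Or.inl rfl, _, Or.inr rfl, one_mul _⟩
        · exact ⟨_, Or.inr rfl, _, Or.inr rfl, rfl⟩
    have hq1 := hq.one_lt
    have hR1 := hR.one_lt
    have e1 : (1 : ℕ) ≠ q * R := by nlinarith
    have e2 : q ≠ q * R := by nlinarith
    have e3 : R ≠ q * R := by nlinarith
    rw [hd, Finset.sum_insert (by simp [hq1.ne, hR1.ne, e1]), Finset.sum_insert (by simp [hne, e2]),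
      Finset.sum_insert (by simp [e3]), Finset.sum_singleton, Nat.div_one, Nat.div_eq_of_lt hk,
      Nat.mul_div_cancel_left _ hq.pos, Nat.mul_div_cancel _ hR.pos,
      Nat.div_self (Nat.mul_pos hq.pos hR.pos), Nat.div_one,
      Ph_prime hq ((Nat.div_lt_iff_lt_mul hR.pos).2 hk),
      Ph_prime hR ((Nat.div_lt_iff_lt_mul hq.pos).2 (by rwa [mul_comm]))] at hs
    have : Ph 0 1 = 0 := rfl
    omega
  · rintro rfl
    have hd : (q * q).divisors = {1, q, q * q} := by
      rw [Nat.divisors_mul, hq.divisors]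
      ext x
      simp only [Finset.mem_mul, Finset.mem_insert, Finset.mem_singleton]
      constructor
      · rintro ⟨a, ha, b, hb, rfl⟩
        rcases ha with rfl | rfl <;> rcases hb with rfl | rfl <;> simp
      · rintro (rfl | rfl | rfl)
        · exact ⟨1, Or.inl rfl, 1, Or.inl rfl, rfl⟩
        · exact ⟨_, Or.inr rfl, 1, Or.inl rfl, mul_one _⟩
        · exact ⟨_, Or.inr rfl, _, Or.inr rfl, rfl⟩
    have hq1 := hq.one_lt
    have e1 : (1 : ℕ) ≠ q * q := by nlinarith
    have e2 : q ≠ q * q := by nlinarith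
    rw [hd, Finset.sum_insert (by simp [hq1.ne, e1]), Finset.sum_insert (by simp [e2]),
      Finset.sum_singleton, Nat.div_one, Nat.div_eq_of_lt hk,
      Nat.mul_div_cancel_left _ hq.pos,
      Nat.div_self (Nat.mul_pos hq.pos hq.pos), Nat.div_one,
      Ph_prime hq ((Nat.div_lt_iff_lt_mul hq.pos).2 hk)] at hs
    have : Ph 0 1 = 0 := rfl
    omega

/-- **Two primes.** -/
lemma two_primes {q R k : ℕ} (hq : q.Prime) (hq2 : Odd q) (hR : R.Prime) (hR2 : Odd R)
    (hqR : q ≤ R) (hk : 2 * k < q * R) (hRk : R ≤ k)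
    (hS : SS (q * R) k q = (q.totient : ℤ) * Ph k (q * R)) :
    (q * R - 1) ∣ k * (q - 1) := by
  have hkn : k < q * R := by omega
  have hR0 := hR.pos
  set Δ : ℤ := ((R : ℤ) - 1) * ((k % q : ℕ) : ℤ) - (q - 1) * ((k / q : ℕ) : ℤ) with hΔ
  have hq1 : (2 : ℤ) ≤ q := by exact_mod_cast hq.two_le
  have hR1 : (2 : ℤ) ≤ R := by exact_mod_cast hR.two_le
  by_cases h0 : Δ = 0
  · rcases dvd_of_zero hq.pos h0 with h | h
    · have h1 : ((k * (q - 1) : ℕ) : ℤ) = ((q * R - 1 : ℕ) : ℤ) * ((k % q : ℕ) : ℤ) := by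
        rw [h]
        push_cast [Nat.cast_sub hq.one_le]
        ring
      exact Int.natCast_dvd_natCast.1 ⟨_, h1⟩
    · omega
  · exfalso
    have hv := HH_val (q := q) (s := 1) (M := R) (k := k) hq one_pos hR0
    rw [mul_one, Nat.div_one, ← hΔ] at hv
    have heven : (2 : ℤ) ∣ Δ := by
      obtain ⟨a, ha⟩ := hq2
      obtain ⟨b, hb⟩ := hR2
      rw [hΔ, ha, hb]
      refine ⟨(b : ℤ) * ((k % (2 * a + 1) : ℕ) : ℤ) - a * ((k / (2 * a + 1) : ℕ) : ℤ), ?_⟩
      push_cast
      ring
    have hΔ2 : 2 ≤ |Δ| := by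
      obtain ⟨z, hz⟩ := heven
      have hz0 : z ≠ 0 := by
        rintro rfl
        exact h0 (by rw [hz, mul_zero])
      rw [hz, abs_mul]
      have := Int.one_le_abs hz0
      norm_num
      linarith
    have hsum := SS_prime (q := q) (R := R) (k := k) hq hR0
    have h1R : (1 : ℕ) ≠ R := hR.one_lt.ne
    rw [hS, hR.divisors, Finset.sum_pair h1R, mul_one, HH_top hq.pos hR0 hkn,
      Ph_prime hq ((Nat.div_lt_iff_lt_mul hR0).2 hkn), Nat.totient_prime hq] at hsum
    have hcast : ((q - 1 : ℕ) : ℤ) = (q : ℤ) - 1 := by rw [Nat.cast_sub hq.one_le, Nat.cast_one]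
    rw [hcast] at hsum
    have hmod : (k : ℤ) = R * ((k / R : ℕ) : ℤ) + ((k % R : ℕ) : ℤ) := by
      exact_mod_cast (Nat.div_add_mod k R).symm
    have hA : HH (q * R) k q q = ((k % R : ℕ) : ℤ) - ((k / q : ℕ) : ℤ) := by
      have hq10 : (q : ℤ) - 1 ≠ 0 := by linarith
      apply mul_left_cancel₀ hq10
      obtain ⟨c1, c2⟩ := Ph_two hq hR hkn
      by_cases hne : q = R
      · have h3 : (Ph k (q * R) : ℤ) + ((k / q : ℕ) : ℤ) = k := by exact_mod_cast c2 hne
        have h4 : ((q * R).totient : ℤ) = q * (q - 1) := by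
          rw [← hne, Nat.totient_mul_of_prime_of_dvd hq dvd_rfl, Nat.totient_prime hq]
          push_cast
          rw [hcast]
        rw [h4] at hsum
        subst hne
        generalize ((k % q : ℕ) : ℤ) = m at *
        generalize ((k / q : ℕ) : ℤ) = κ at *
        linear_combination -hsum + ((q : ℤ) - 1) * h3 + ((q : ℤ) - 1) * hmod
      · have h3 : (Ph k (q * R) : ℤ) + ((k / q : ℕ) : ℤ) + ((k / R : ℕ) : ℤ) = k := by
          exact_mod_cast c1 hne
        have h4 : ((q * R).totient : ℤ) = (R - 1) * (q - 1) := by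
          rw [Nat.totient_mul_of_prime_of_not_dvd hq, Nat.totient_prime hR]
          · push_cast
            rw [hcast, Nat.cast_sub hR.one_le]
            push_cast
            ring
          · intro h
            exact hne ((Nat.prime_dvd_prime_iff_eq hq hR).1 h)
        rw [h4] at hsum
        generalize ((k % R : ℕ) : ℤ) = m' at *
        generalize ((k / R : ℕ) : ℤ) = κ' at *
        generalize ((k / q : ℕ) : ℤ) = κ at *
        linear_combination -hsum + ((q : ℤ) - 1) * h3 + ((q : ℤ) - 1) * hmod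
    rw [hA] at hv
    -- the cases of κ
    have hκ2 : 2 * (k / q) < R := by
      have h1 := Nat.div_mul_le_self k q
      by_contra h
      have h2 : R ≤ 2 * (k / q) := not_lt.1 h
      have h3 : R * q ≤ 2 * (k / q) * q := Nat.mul_le_mul_right q h2
      have h4 : 2 * (k / q) * q ≤ 2 * k := by linarith
      have h5 : R * q = q * R := mul_comm _ _
      omega
    have hκ1 : 1 ≤ k / q := Nat.div_pos (hqR.trans hRk) hq.pos
    have hmR : k % R < R := Nat.mod_lt _ hR0
    have hmq : k % q < q := Nat.mod_lt _ hq.pos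
    have hdq := Nat.div_add_mod k q
    obtain ⟨a, ha⟩ := hq2
    obtain ⟨b, hb⟩ := hR2
    rcases Nat.lt_or_ge (k / q) 3 with h3 | h3
    · have h12 : k / q = 1 ∨ k / q = 2 := by omega
      rcases h12 with h1 | h2
      · rw [h1] at hdq hv hΔ
        have hkm : k % R = k - R := by
          rw [Nat.mod_eq_sub_mod hRk, Nat.mod_eq_of_lt]
          omega
        have hc : ((R - 1).choose 1 : ℤ) = R - 1 := by
          rw [Nat.choose_one_right, Nat.cast_sub hR.one_le]
          simp
        rw [hkm, hc, Nat.cast_sub hRk] at hv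
        have hkk : (k : ℤ) = q + ((k % q : ℕ) : ℤ) := by
          have : q * 1 + k % q = k := hdq
          rw [mul_one] at this
          exact_mod_cast this.symm
        have hR10 : (R : ℤ) - 1 ≠ 0 := by linarith
        have h6 : ((k : ℤ) - R) - 1 = -Δ := by
          apply mul_left_cancel₀ hR10
          push_cast at hv
          linear_combination hv
        rw [hΔ, hkk] at h6
        have h7 : (R : ℤ) * ((k % q : ℕ) : ℤ) = R * 1 := by
          push_cast at h6 ⊢
          linear_combination h6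
        have h8 : ((k % q : ℕ) : ℤ) = 1 := mul_left_cancel₀ (by linarith) h7
        have h9 : k % q = 1 := by exact_mod_cast h8
        have h10 : R = q := by omega
        apply h0
        rw [hΔ, h9, h10]
        push_cast
        ring
      · rw [h2] at hdq hv
        have h4 := Nat.choose_two_right (R - 1)
        have h5 : 2 * ((R - 1).choose 2 : ℤ) = (R - 1) * (R - 2) := by
          rw [h4, hb]
          have : (2 * b + 1 - 1) * (2 * b + 1 - 1 - 1) / 2 = b * (2 * b - 1) := by
            rw [Nat.add_sub_cancel, mul_assoc, Nat.mul_div_cancel_left _ two_pos]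
          rw [this]
          have hb1 : 1 ≤ 2 * b := by omega
          push_cast [Nat.cast_sub hb1]
          ring
        have hR10 : (0 : ℤ) < (R : ℤ) - 1 := by linarith
        have h6 : 2 * (((k % R : ℕ) : ℤ) - 2) = (R - 2) * Δ := by
          apply mul_left_cancel₀ hR10.ne'
          push_cast at hv ⊢
          linear_combination 2 * hv + Δ * h5
        have hR5 : (5 : ℤ) ≤ R := by
          have : 5 ≤ R := by omega
          exact_mod_cast this
        have h7 : |2 * (((k % R : ℕ) : ℤ) - 2)| = (R - 2) * |Δ| := by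
          rw [h6, abs_mul, abs_of_pos (by linarith : (0 : ℤ) < (R : ℤ) - 2)]
        have h8 : ((k % R : ℕ) : ℤ) + 1 ≤ R := by exact_mod_cast hmR
        have h9 : (0 : ℤ) ≤ ((k % R : ℕ) : ℤ) := by positivity
        have h10 : |2 * (((k % R : ℕ) : ℤ) - 2)| < (R - 2) * 2 := by
          rw [abs_lt]
          constructor <;> linarith
        nlinarith
    · have h4 := mono_choose (M := R - 1) h3 (by omega)
      have h5 : ((R - 1).choose 3 : ℤ) * 6 = (R - 1) * (R - 2) * (R - 3) := by
        have h6 := Nat.descFactorial_eq_factorial_mul_choose (R - 1) 3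
        obtain ⟨R', hR'⟩ : ∃ R', R = R' + 3 := ⟨R - 3, by omega⟩
        subst hR'
        have h7 : (R' + 3 - 1).descFactorial 3 = (R' + 2) * (R' + 1) * R' := by
          rw [show R' + 3 - 1 = R' + 2 by omega]
          simp [Nat.descFactorial]
          ring
        rw [h7, show Nat.factorial 3 = 6 from rfl] at h6
        have h8 : ((R' + 2) * (R' + 1) * R' : ℤ) = 6 * ((R' + 3 - 1).choose 3 : ℤ) := by
          exact_mod_cast h6
        rw [show R' + 3 - 1 = R' + 2 from rfl] at h8 ⊢
        push_cast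
        linear_combination -h8
      have h6 : ((R - 1).choose 3 : ℤ) ≤ ((R - 1).choose (k / q) : ℤ) := by exact_mod_cast h4
      have h7 : ((R - 1).choose (k / q) : ℤ) * |Δ| =
          ((R : ℤ) - 1) * |((k % R : ℕ) : ℤ) - ((k / q : ℕ) : ℤ)| := by
        rw [← abs_of_pos (show (0 : ℤ) < (R : ℤ) - 1 by linarith), ← abs_mul, hv, abs_mul, abs_mul,
          abs_pow, abs_neg, abs_one, one_pow, one_mul,
          abs_of_nonneg (by positivity : (0 : ℤ) ≤ ((R - 1).choose (k / q) : ℤ))]
      have h8 : |((k % R : ℕ) : ℤ) - ((k / q : ℕ) : ℤ)| ≤ R - 1 := by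
        have h9 : ((k % R : ℕ) : ℤ) + 1 ≤ R := by exact_mod_cast hmR
        have h10 : (0 : ℤ) ≤ ((k % R : ℕ) : ℤ) := by positivity
        have h11 : ((k / q : ℕ) : ℤ) + 1 ≤ R := by
          have : k / q + 1 ≤ R := by omega
          exact_mod_cast this
        have h12 : (0 : ℤ) ≤ ((k / q : ℕ) : ℤ) := by positivity
        rw [abs_le]
        constructor <;> linarith
      have hR7 : (7 : ℤ) ≤ R := by
        have : 7 ≤ R := by omega
        exact_mod_cast this
      have h9 : 2 * ((R - 1).choose (k / q) : ℤ) ≤ ((R : ℤ) - 1) * (R - 1) := by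
        have h10 : (0 : ℤ) ≤ ((R - 1).choose (k / q) : ℤ) := by positivity
        nlinarith
      have h13 : ((R : ℤ) - 1) * (R - 2) * (R - 3) ≤ 3 * (((R : ℤ) - 1) * (R - 1)) := by
        linarith
      have h14 : ((R : ℤ) - 2) * (R - 3) ≤ 3 * (R - 1) := by
        have hR10 : (0 : ℤ) < (R : ℤ) - 1 := by linarith
        apply le_of_mul_le_mul_left _ hR10
        linarith
      nlinarith

end Pool.Agent.H95.SD
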