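import Pool.Agent.H95.SD.Nec2

set_option autoImplicit false

/-! # Necessary conditions: the end of the proof -/

open Finset

namespace Pool.Agent.H95.SD

lemma case27 : ∀ k ∈ Finset.Icc 9 12, SS 27 k 3 ≠ ((3 : ℕ).totient : ℤ) * Ph k 27 := by
  decide +kernel

/-- the magnitude argument applies -/
lemma composite_case {p q R k : ℕ} (hp : p = (q * R).minFac) (hq : q.Prime) (hn : Odd (q * R))
    (hqR : q ≤ R) (hR : 1 < R) (hRp : ¬ R.Prime) (hk : 2 * k < q * R) (hpk : q * R ≤ p * k)
    (h3 : p = 3 → q = 3)
    (hS : SS (q * R) k q = (q.totient : ℤ) * Ph k (q * R)) :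
    (q * R - 1) ∣ k * (q - 1) := by
  obtain ⟨hq2, hR2⟩ := Nat.odd_mul.1 hn
  have hn1 : q * R ≠ 1 := by
    have := hq.two_le
    nlinarith
  have hpp : p.Prime := hp ▸ Nat.minFac_prime hn1
  have hpR : p ≤ R.minFac := by
    rw [hp]
    exact Nat.minFac_le_of_dvd (Nat.minFac_prime hR.ne').two_le
      ((Nat.minFac_dvd R).trans (dvd_mul_left _ _))
  have hpq : p ≤ q := by
    rw [hp]
    exact Nat.minFac_le_of_dvd hq.two_le (dvd_mul_right _ _)
  have hpodd : Odd p := by
    rw [hp]
    exact hn.of_dvd_nat (Nat.minFac_dvd _)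
  have hp3 : 3 ≤ p := by
    obtain ⟨a, ha⟩ := hpodd
    have := hpp.two_le
    omega
  have hR9 : p ^ 2 ≤ R := (Nat.pow_le_pow_left hpR 2).trans (Nat.minFac_sq_le_self (by omega) hRp)
  have hκ1 : R / p ≤ k / q := by
    rw [Nat.le_div_iff_mul_le hq.pos]
    have h1 : R / p * p ≤ R := Nat.div_mul_le_self R p
    have h2 : p * (R / p * q) ≤ p * k := by
      calc p * (R / p * q) = (R / p * p) * q := by ring
        _ ≤ R * q := Nat.mul_le_mul_right q h1
        _ = q * R := mul_comm _ _
        _ ≤ p * k := hpk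
    exact Nat.le_of_mul_le_mul_left h2 hpp.pos
  have hκ2 : 2 * (k / q) ≤ R - 1 := by
    have h1 := Nat.div_mul_le_self k q
    by_contra h
    have h2 : R ≤ 2 * (k / q) := by omega
    have h3 : R * q ≤ 2 * (k / q) * q := Nat.mul_le_mul_right q h2
    have h4 : 2 * (k / q) * q ≤ 2 * k := by linarith
    have h5 : R * q = q * R := mul_comm _ _
    omega
  have hsodd : ∀ s, s ∣ R → Odd s := fun s hs => hR2.of_dvd_nat hs
  have hsp : ∀ s, s ∣ R → 1 < s → p ≤ s := fun s hs hs1 =>
    hpR.trans (Nat.minFac_le_of_dvd hs1 hs)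
  by_cases hp3' : p = 3
  · have hq3 := h3 hp3'
    subst hq3
    rw [hp3'] at hR9 hκ1 hsp hpk
    by_cases hR27 : R = 9
    · subst hR27
      have h4 : k ∈ Finset.Icc 9 12 ∨ k = 13 := by
        rw [mem_Icc]
        omega
      rcases h4 with h4 | h4
      · exact absurd hS (case27 k h4)
      · subst h4
        norm_num
    · have h5 : R = 15 ∨ R = 21 ∨ 24 ≤ R := by
        by_contra hcon
        have h6 : R < 24 := by omega
        have h7 : R ≠ 15 := by omega
        have h8 : R ≠ 21 := by omega
        obtain ⟨b, hb⟩ := hR2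
        interval_cases R <;> first | omega | exact absurd (by norm_num) hRp
      apply main_mag hq hq2 hR hR2 hk _ hS
      intro s hs hs1
      rcases h5 with rfl | rfl | h5
      · exact small15 hs1 hs (by omega) (by omega)
      · exact small21 hs1 hs (by omega) (by omega)
      · exact big3 (hsp s hs hs1) (hsodd s hs) hs h5 (by omega) hκ2
  · have hp5 : 5 ≤ p := by
      obtain ⟨a, ha⟩ := hpodd
      omega
    apply main_mag hq hq2 hR hR2 hk _ hS
    intro s hs hs1
    by_cases hR25 : R = 25
    · subst hR25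
      have hp5' : p = 5 := by nlinarith
      subst hp5'
      have hq23 : q ≤ 23 := by
        by_contra hcon
        have : q = 24 ∨ q = 25 := by omega
        rcases this with rfl | rfl <;> norm_num at hq
      exact small25 hs1 hs (by omega) (by omega) hq23
    · have hR35 : 35 ≤ R ∧ 7 ≤ R / p := by
        by_cases hp7 : 7 ≤ p
        · constructor
          · nlinarith
          · rw [Nat.le_div_iff_mul_le hpp.pos]
            nlinarith
        · have hp5' : p = 5 := by
            obtain ⟨a, ha⟩ := hpodd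
            omega
          rw [hp5'] at hR9 hpR ⊢
          have h6 : 35 ≤ R := by
            by_contra hcon
            have h7 : R < 35 := by omega
            have h8 : 25 ≤ R := by omega
            have h27 : R ≠ 27 := by
              rintro rfl
              have := hsp 3 (by norm_num) (by norm_num)
              omega
            have h33 : R ≠ 33 := by
              rintro rfl
              have := hsp 3 (by norm_num) (by norm_num)
              omega
            obtain ⟨b, hb⟩ := hR2
            interval_cases R <;> first | omega | exact absurd (by norm_num) hRp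
          omega
      exact big5 (hp5.trans (hsp s hs hs1)) (hsodd s hs) hs hR35.1 (hR35.2.trans hκ1) hκ2 hqR

/-- **The necessary conditions.** -/
theorem nec {n k : ℕ} (hn : Odd n) (hn3 : 3 ≤ n) (hk : 2 * k < n)
    (h : ∀ r : ℕ, r ∣ n → 1 < r → SS n k r = (r.totient : ℤ) * Ph k n) :
    k < n.minFac ∨ ∀ q : ℕ, q.Prime → q ∣ n → (n - 1) ∣ k * (q - 1) := by
  by_cases hkp : k < n.minFac
  · exact Or.inl hkp
  right
  have hpp : n.minFac.Prime := Nat.minFac_prime (by omega)
  obtain ⟨r, hr⟩ := Nat.minFac_dvd n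
  set p := n.minFac with hp
  have hr0 : 0 < r := by
    rcases Nat.eq_zero_or_pos r with h0 | h0
    · rw [h0, mul_zero] at hr
      omega
    · exact h0
  have hr1 : 1 < r := by
    by_contra hcon
    have : r = 1 := by omega
    rw [this, mul_one] at hr
    omega
  have hrk : r ≤ k := by
    by_contra hcon
    apply hkp
    have h1 := h r ⟨p, by rw [hr, mul_comm]⟩ hr1
    rw [hr, mul_comm p r] at h1
    exact step0 hpp hr1 (by omega) h1
  have hpk : n ≤ p * k := by
    rw [hr]
    exact Nat.mul_le_mul_left p hrk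
  have hpodd : Odd p := hn.of_dvd_nat (Nat.minFac_dvd _)
  -- Claim A
  have claimA : ∀ q : ℕ, q.Prime → ∀ R : ℕ, n = q * R → q ≤ R → (p = 3 → q = 3) →
      (n - 1) ∣ k * (q - 1) := by
    intro q hq R hnR hqR h3
    have hR1 : 1 < R := lt_of_lt_of_le hq.one_lt hqR
    have hS := h q ⟨R, hnR⟩ hq.one_lt
    rw [hnR] at hS hk hn hpk ⊢
    obtain ⟨hq2, hR2⟩ := Nat.odd_mul.1 hn
    by_cases hRp : R.Prime
    · apply two_primes hq hq2 hRp hR2 hqR hk _ hS
      have hpq : p = q := by
        have h4 : p ∣ q * R := by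
          rw [← hnR]
          exact Nat.minFac_dvd n
        have h5 : p ≤ q := Nat.minFac_le_of_dvd hq.two_le ⟨R, hnR⟩
        rcases hpp.dvd_mul.1 h4 with h6 | h6
        · exact (Nat.prime_dvd_prime_iff_eq hpp hq).1 h6
        · have h7 := (Nat.prime_dvd_prime_iff_eq hpp hRp).1 h6
          omega
      rw [hpq] at hpk
      exact Nat.le_of_mul_le_mul_left hpk hq.pos
    · exact composite_case (p := p) (by rw [hp, hnR]) hq hn hqR hR1 hRp hk hpk h3 hS
  by_cases hp3 : p = 3
  · have h1 := claimA p hpp r hr (by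
      have h2 : p ≤ r.minFac := by
        rw [hp]
        exact Nat.minFac_le_of_dvd (Nat.minFac_prime hr1.ne').two_le
          ((Nat.minFac_dvd r).trans ⟨p, by rw [hr, mul_comm]⟩)
      exact h2.trans (Nat.minFac_le hr0)) (fun h => h)
    rw [hp3] at h1
    intro q hq hqn
    obtain ⟨b, hb⟩ := hn.of_dvd_nat hqn
    rw [hb, Nat.add_sub_cancel, ← mul_assoc]
    exact Dvd.dvd.mul_right h1 b
  · -- the quotient
    set G := Nat.gcd (n - 1) k with hG
    have hG0 : 0 < G := Nat.gcd_pos_of_pos_left _ (by omega)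
    obtain ⟨c, hc⟩ : G ∣ n - 1 := Nat.gcd_dvd_left _ _
    obtain ⟨b, hb⟩ : G ∣ k := Nat.gcd_dvd_right _ _
    have hcop : Nat.Coprime c b := by
      have h1 : G * Nat.gcd c b = G * 1 := by
        rw [← Nat.gcd_mul_left, ← hc, ← hb, mul_one]
      exact Nat.eq_of_mul_eq_mul_left hG0 h1
    have hiff : ∀ z : ℕ, (n - 1) ∣ k * z ↔ c ∣ z := by
      intro z
      rw [hc, hb, mul_assoc, Nat.mul_dvd_mul_iff_left hG0]
      exact ⟨fun h => hcop.dvd_of_dvd_mul_left h, fun h => h.mul_left b⟩
    intro q hq hqn
    obtain ⟨R, hR⟩ := hqn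
    rcases le_or_gt q R with hqR | hqR
    · exact claimA q hq R hR hqR (fun h => absurd h hp3)
    · rw [hiff]
      have hR0 : 0 < R := by
        rcases Nat.eq_zero_or_pos R with h0 | h0
        · rw [h0, mul_zero] at hR
          omega
        · exact h0
      obtain ⟨v, hv⟩ := modeq_one (c := c) R hR0 (fun x hx hxR => by
        rw [← hiff]
        obtain ⟨y, hy⟩ := hxR
        have hxR' : x ≤ R := Nat.le_of_dvd hR0 ⟨y, hy⟩
        have hy0 : 0 < y := by
          rcases Nat.eq_zero_or_pos y with h0 | h0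
          · rw [h0, mul_zero] at hy
            omega
          · exact h0
        refine claimA x hx (q * y) (by rw [hR, hy]; ring) ?_ (fun h => absurd h hp3)
        calc x ≤ q := by omega
          _ ≤ q * y := Nat.le_mul_of_pos_right q hy0)
      have h1 : n = 1 + G * c := by omega
      have h2 : q * (1 + c * v) = 1 + G * c := by rw [← hv, ← hR, h1]
      have h3 : c ∣ q - 1 := by
        have hq1 := hq.one_le
        have h4 : (c : ℤ) ∣ ((q - 1 : ℕ) : ℤ) := by
          refine ⟨(G : ℤ) - q * v, ?_⟩
          rw [Nat.cast_sub hq1]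
          have h5 : (q : ℤ) * (1 + c * v) = 1 + G * c := by exact_mod_cast h2
          push_cast
          linear_combination h5
        exact Int.natCast_dvd_natCast.1 h4
      exact h3

end Pool.Agent.H95.SD
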