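import Pool.Agent.H95.SD.Four

set_option autoImplicit false

/-! # The Fourier coefficients in terms of the orders -/

open Finset

namespace Pool.Agent.H95.SD

open Pool.Agent.V11199.SD (order_pos order_dvd)

/-- the contribution of one element of the order `d` to the elements of the order `r` -/
def HH (n k d r : ℕ) : ℤ :=
  ∑ i ∈ (range k).filter (fun i => Nat.gcd d (i + 1) * r = d), eps n d (k - 1 - i)

/-- the sum of the coefficients over the elements of the order `r` -/
def SS (n k r : ℕ) : ℤ := ∑ d ∈ n.divisors, (d.totient : ℤ) * HH n k d r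

lemma card_ord {n d : ℕ} [NeZero n] (hd : d ∣ n) :
    ((univ : Finset (ZMod n)).filter (fun a => addOrderOf a = d)).card = d.totient := by
  apply IsAddCyclic.card_addOrderOf_eq_totient
  rwa [ZMod.card]

lemma ord_mul {n : ℕ} [NeZero n] (a : ZMod n) (i r : ℕ) :
    addOrderOf (((i : ℕ) : ZMod n) * a) = r ↔ Nat.gcd (addOrderOf a) i * r = addOrderOf a := by
  rw [← nsmul_eq_mul, addOrderOf_nsmul]
  have h0 := order_pos a
  have h1 : Nat.gcd (addOrderOf a) i ∣ addOrderOf a := Nat.gcd_dvd_left _ _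
  have h2 : 0 < Nat.gcd (addOrderOf a) i := Nat.gcd_pos_of_pos_left _ h0
  constructor
  · rintro rfl
    exact Nat.mul_div_cancel' h1
  · intro h
    exact Nat.div_eq_of_eq_mul_right h2 h.symm

lemma sum_W {n k : ℕ} [NeZero n] (r : ℕ) :
    ∑ v ∈ (univ : Finset (ZMod n)).filter (fun v => addOrderOf v = r), W n k v = SS n k r := by
  unfold W SS HH
  rw [Finset.sum_comm]
  have h1 : ∀ i ∈ range k, ∑ v ∈ (univ : Finset (ZMod n)).filter (fun v => addOrderOf v = r),
      ∑ a ∈ (univ : Finset (ZMod n)).filter (fun a => ((i + 1 : ℕ) : ZMod n) * a = v),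
        eps n (addOrderOf a) (k - 1 - i) =
      ∑ d ∈ n.divisors, (d.totient : ℤ) *
        (if Nat.gcd d (i + 1) * r = d then eps n d (k - 1 - i) else 0) := by
    intro i _
    have h2 : ∀ v : ZMod n, ∑ a ∈ (univ : Finset (ZMod n)).filter
        (fun a => ((i + 1 : ℕ) : ZMod n) * a = v), eps n (addOrderOf a) (k - 1 - i) =
        ∑ a : ZMod n, if ((i + 1 : ℕ) : ZMod n) * a = v then
          eps n (addOrderOf a) (k - 1 - i) else 0 := fun v => Finset.sum_filter _ _
    rw [Finset.sum_congr rfl fun v _ => h2 v, Finset.sum_comm]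
    simp only [Finset.sum_ite_eq, mem_filter, mem_univ, true_and, ord_mul]
    rw [← Finset.sum_fiberwise_of_maps_to (s := univ) (t := n.divisors)
      (g := fun a : ZMod n => addOrderOf a)
      (fun a _ => Nat.mem_divisors.2 ⟨order_dvd a, NeZero.ne n⟩)]
    refine Finset.sum_congr rfl fun d hd => ?_
    rw [← card_ord (n := n) (Nat.dvd_of_mem_divisors hd), ← nsmul_eq_mul, ← Finset.sum_const]
    refine Finset.sum_congr rfl fun a ha => ?_
    rw [(mem_filter.1 ha).2]
  rw [Finset.sum_congr rfl h1, Finset.sum_comm]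
  refine Finset.sum_congr rfl fun d _ => ?_
  rw [← Finset.mul_sum, ← Finset.sum_filter]

lemma ord_unit {n : ℕ} [NeZero n] (u : (ZMod n)ˣ) (a : ZMod n) :
    addOrderOf ((u : ZMod n) * a) = addOrderOf a :=
  addOrderOf_injective (AddMonoidHom.mulLeft (u : ZMod n))
    (fun _ _ h => (Units.mul_right_inj u).1 h) a

lemma W_unit {n k : ℕ} [NeZero n] (u : (ZMod n)ˣ) (v : ZMod n) :
    W n k ((u : ZMod n) * v) = W n k v := by
  unfold W
  refine Finset.sum_congr rfl fun i _ => ?_
  refine Finset.sum_nbij' (fun a => (u⁻¹ : (ZMod n)ˣ) * a) (fun a => (u : ZMod n) * a) ?_ ?_ ?_ ?_ ?_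
  · intro a ha
    simp only [mem_filter, mem_univ, true_and] at ha ⊢
    rw [mul_left_comm, ha, Units.inv_mul_cancel_left]
  · intro a ha
    simp only [mem_filter, mem_univ, true_and] at ha ⊢
    rw [mul_left_comm, ha]
  · intro a _
    simp
  · intro a _
    simp
  · intro a _
    rw [ord_unit]

lemma ord_div {n d : ℕ} [NeZero n] (hd : d ∣ n) : addOrderOf ((d : ℕ) : ZMod n) = n / d := by
  rw [ZMod.addOrderOf_coe _ (NeZero.ne n), Nat.gcd_eq_right hd]

lemma W_ord {n k : ℕ} [NeZero n] {v v' : ZMod n} (h : addOrderOf v = addOrderOf v') :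
    W n k v = W n k v' := by
  obtain ⟨d, hd, u, hu, rfl⟩ := ZMod.eq_unit_mul_divisor v
  obtain ⟨d', hd', u', hu', rfl⟩ := ZMod.eq_unit_mul_divisor v'
  obtain ⟨u, rfl⟩ := hu
  obtain ⟨u', rfl⟩ := hu'
  rw [ord_unit, ord_unit, ord_div hd, ord_div hd'] at h
  have hn : n ≠ 0 := NeZero.ne n
  have h1 : d = d' := by
    rw [← Nat.div_div_self hd hn, ← Nat.div_div_self hd' hn, h]
  rw [W_unit, W_unit, h1]

lemma SS_eq {n k : ℕ} [NeZero n] (v : ZMod n) :
    SS n k (addOrderOf v) = ((addOrderOf v).totient : ℤ) * W n k v := by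
  rw [← sum_W, ← card_ord (n := n) (order_dvd v), ← nsmul_eq_mul, ← Finset.sum_const]
  exact Finset.sum_congr rfl fun a ha => W_ord (mem_filter.1 ha).2

/-- **The criterion.** -/
lemma crit {n k : ℕ} [NeZero n] (hk : k ≤ n) :
    (∃ r : ℕ, ∀ y : ZMod n, y ≠ 0 → dg n k 0 y = r) ↔
      ∃ c : ℤ, ∀ r : ℕ, r ∣ n → 1 < r → SS n k r = (r.totient : ℤ) * c := by
  rw [const_iff hk]
  constructor
  · intro h
    refine ⟨W n k 1, fun r hr h1 => ?_⟩
    have hn : n ≠ 0 := NeZero.ne n
    have h2 := ord_div (n := n) (Nat.div_dvd_of_dvd hr)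
    rw [Nat.div_div_self hr hn] at h2
    have h3 : ((n / r : ℕ) : ZMod n) ≠ 0 := by
      intro h0
      rw [h0, addOrderOf_zero] at h2
      omega
    have : Nontrivial (ZMod n) := ⟨⟨_, _, h3⟩⟩
    rw [← h _ _ h3 one_ne_zero, ← h2, SS_eq, h2]
  · rintro ⟨c, hc⟩
    have key : ∀ v : ZMod n, v ≠ 0 → W n k v = c := by
      intro v hv
      have h1 : 1 < addOrderOf v := by
        have h2 := order_pos v
        have h3 : addOrderOf v ≠ 1 := fun h => hv (AddMonoid.addOrderOf_eq_one_iff.1 h)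
        omega
      have h4 := hc _ (order_dvd v) h1
      rw [SS_eq] at h4
      have h5 : ((addOrderOf v).totient : ℤ) ≠ 0 := by
        have := Nat.totient_pos.2 (order_pos v)
        exact_mod_cast this.ne'
      exact mul_left_cancel₀ h5 h4
    intro v v' hv hv'
    rw [key v hv, key v' hv']

end Pool.Agent.H95.SD
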