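import Pool.Agent.H95.SD.EvF

set_option autoImplicit false

/-! # Prime powers: the Fourier side -/

open Finset

namespace Pool.Agent.H95.SD

open Pool.Agent.V11199.SD (order_pos order_dvd norm_char)

lemma ord_shift {q a s : ℕ} (hq : q.Prime) [NeZero (q ^ a)] {y h : ZMod (q ^ a)}
    (hh : (q ^ s : ℕ) • h = 0) (hy : (q ^ s : ℕ) • y ≠ 0) : addOrderOf (y + h) = addOrderOf y := by
  haveI := Fact.mk hq
  have h1 : addOrderOf y ∣ q ^ a := order_dvd y
  obtain ⟨i, hi, h2⟩ := (Nat.dvd_prime_pow hq).1 h1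
  have h3 : s < i := by
    by_contra h
    apply hy
    apply addOrderOf_dvd_iff_nsmul_eq_zero.1
    rw [h2]
    exact pow_dvd_pow q (by omega)
  obtain ⟨i', rfl⟩ : ∃ i', i = i' + 1 := ⟨i - 1, by omega⟩
  rw [h2]
  have h4 : ∀ j, s ≤ j → (q ^ j) • h = 0 := by
    intro j hj
    apply addOrderOf_dvd_iff_nsmul_eq_zero.1
    exact (addOrderOf_dvd_iff_nsmul_eq_zero.2 hh).trans (pow_dvd_pow q hj)
  apply addOrderOf_eq_prime_pow
  · rw [nsmul_add, h4 i' (by omega), add_zero]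
    intro h5
    have h6 := addOrderOf_dvd_iff_nsmul_eq_zero.2 h5
    rw [h2] at h6
    have := (Nat.pow_dvd_pow_iff_le_right hq.one_lt).1 h6
    omega
  · rw [nsmul_add, h4 _ (by omega), add_zero]
    apply addOrderOf_dvd_iff_nsmul_eq_zero.1
    rw [h2]

lemma sum_fib {n k D : ℕ} [NeZero n] (x w : ZMod n) :
    ∑ v ∈ (univ : Finset (ZMod n)).filter (fun v => (D : ZMod n) * v = w), Wx n k x v =
      ∑ i ∈ range k, ∑ a ∈ (univ : Finset (ZMod n)).filter
        (fun a => (D : ZMod n) * (((i + 1 : ℕ) : ZMod n) * a) = w),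
        (ZMod.stdAddChar (-(a * x)) : ℂ) * (eps n (addOrderOf a) (k - 1 - i) : ℂ) := by
  unfold Wx
  rw [Finset.sum_comm]
  refine Finset.sum_congr rfl fun i _ => ?_
  have h2 : ∀ v : ZMod n, ∑ a ∈ (univ : Finset (ZMod n)).filter
      (fun a => ((i + 1 : ℕ) : ZMod n) * a = v),
        (ZMod.stdAddChar (-(a * x)) : ℂ) * (eps n (addOrderOf a) (k - 1 - i) : ℂ) =
      ∑ a : ZMod n, if ((i + 1 : ℕ) : ZMod n) * a = v then
        (ZMod.stdAddChar (-(a * x)) : ℂ) * (eps n (addOrderOf a) (k - 1 - i) : ℂ) else 0 :=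
    fun v => Finset.sum_filter _ _
  rw [Finset.sum_congr rfl fun v _ => h2 v, Finset.sum_comm]
  simp only [Finset.sum_ite_eq, mem_filter, mem_univ, true_and]
  rw [← Finset.sum_filter]

lemma char_ne_one {n : ℕ} [NeZero n] {y : ZMod n} (hy : y ≠ 0) :
    (ZMod.stdAddChar y : ℂ) ≠ 1 := by
  intro h
  apply hy
  apply ZMod.injective_stdAddChar
  rw [h, AddChar.map_zero_eq_one]

lemma van {n : ℕ} [NeZero n] (S : Finset (ZMod n)) (x h : ZMod n) (j : ℕ)
    (hS : ∀ a, a ∈ S ↔ a + h ∈ S) (ho : ∀ a ∈ S, addOrderOf (a + h) = addOrderOf a)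
    (hx : h * x ≠ 0) :
    ∑ a ∈ S, (ZMod.stdAddChar (-(a * x)) : ℂ) * (eps n (addOrderOf a) j : ℂ) = 0 := by
  have h1 : ∑ a ∈ S, (ZMod.stdAddChar (-(a * x)) : ℂ) * (eps n (addOrderOf a) j : ℂ) =
      ∑ a ∈ S, (ZMod.stdAddChar (-((a + h) * x)) : ℂ) * (eps n (addOrderOf (a + h)) j : ℂ) := by
    symm
    refine Finset.sum_nbij' (fun a => a + h) (fun a => a - h) ?_ ?_ ?_ ?_ ?_
    · intro a ha
      exact (hS a).1 ha
    · intro a ha
      rw [hS, sub_add_cancel]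
      exact ha
    · intro a _
      exact add_sub_cancel_right a h
    · intro a _
      exact sub_add_cancel a h
    · intro a _
      rfl
  have h2 : ∑ a ∈ S, (ZMod.stdAddChar (-((a + h) * x)) : ℂ) * (eps n (addOrderOf (a + h)) j : ℂ) =
      (ZMod.stdAddChar (-(h * x)) : ℂ) *
        ∑ a ∈ S, (ZMod.stdAddChar (-(a * x)) : ℂ) * (eps n (addOrderOf a) j : ℂ) := by
    rw [Finset.mul_sum]
    refine Finset.sum_congr rfl fun a ha => ?_
    rw [ho a ha, show -((a + h) * x) = -(h * x) + -(a * x) by ring, AddChar.map_add_eq_mul]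
    ring
  have h3 : (ZMod.stdAddChar (-(h * x)) : ℂ) ≠ 1 := char_ne_one (neg_ne_zero.2 hx)
  have h4 : ((ZMod.stdAddChar (-(h * x)) : ℂ) - 1) *
      ∑ a ∈ S, (ZMod.stdAddChar (-(a * x)) : ℂ) * (eps n (addOrderOf a) j : ℂ) = 0 := by
    rw [sub_mul, ← h2, ← h1]
    ring
  exact (mul_eq_zero.1 h4).resolve_left (sub_ne_zero.2 h3)

end Pool.Agent.H95.SD
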