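import Pool.Agent.H95.SD.PA

set_option autoImplicit false

/-! # Prime powers: the value of the constant -/

open Finset

namespace Pool.Agent.H95.SD

open Pool.Agent.V11199.SD (order_pos order_dvd norm_char)

lemma geo {n q : ℕ} [NeZero n] {y : ZMod n} (hy : (q : ZMod n) * y = 0) :
    ∑ t ∈ range q, (ZMod.stdAddChar ((t : ZMod n) * y) : ℂ) = if y = 0 then (q : ℂ) else 0 := by
  split_ifs with h
  · subst h
    simp [AddChar.map_zero_eq_one]
  · have h1 : ∀ t ∈ range q, (ZMod.stdAddChar ((t : ZMod n) * y) : ℂ) =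
        (ZMod.stdAddChar y : ℂ) ^ t := by
      intro t _
      rw [← nsmul_eq_mul, AddChar.map_nsmul_eq_pow]
    rw [Finset.sum_congr rfl h1, geom_sum_eq (char_ne_one h), ← AddChar.map_nsmul_eq_pow,
      nsmul_eq_mul, hy, AddChar.map_zero_eq_one, sub_self, zero_div]

lemma geo' {n q : ℕ} [NeZero n] (hq : 0 < q) {y : ZMod n} (hy : (q : ZMod n) * y = 0) :
    ∑ t ∈ Ico 1 q, (ZMod.stdAddChar ((t : ZMod n) * y) : ℂ) =
      (if y = 0 then (q : ℂ) else 0) - 1 := by
  rw [← geo hy, Finset.range_eq_Ico, Finset.sum_eq_sum_Ico_succ_bot hq]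
  simp

lemma unit_of {q a j : ℕ} (hq : q.Prime) (hj : ¬ q ∣ j) : IsUnit ((j : ℕ) : ZMod (q ^ a)) := by
  rw [ZMod.isUnit_iff_coprime]
  exact (((Nat.Prime.coprime_iff_not_dvd hq).2 hj).symm).pow_right a

lemma star {q a u k : ℕ} (hq : q.Prime) [NeZero (q ^ a)] (hu : u < a) {x x' : ZMod (q ^ a)}
    (hx : x = ((q ^ u : ℕ) : ZMod (q ^ a)) * x')
    (hx0 : ((q ^ (a - 1) : ℕ) : ZMod (q ^ a)) * x' ≠ 0)
    {c : ℂ} (hc : ∀ v, v ≠ 0 → Wx (q ^ a) k x v = c) {w : ZMod (q ^ a)} (hw : w ≠ 0)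
    (hqw : (q : ZMod (q ^ a)) * w = 0) {v0 : ZMod (q ^ a)}
    (hv0 : ((q ^ u : ℕ) : ZMod (q ^ a)) * v0 = w) :
    ∑ i ∈ (range k).filter (fun i => ¬ q ∣ i + 1),
      (ZMod.stdAddChar (-((((i + 1 : ℕ) : ZMod (q ^ a))⁻¹) * (w * x'))) : ℂ) *
        (eps (q ^ a) (q ^ (u + 1)) (k - 1 - i) : ℂ) = c := by
  haveI := Fact.mk hq
  have h1 := sum_fib (k := k) (D := q ^ u) x w
  set C := ((univ : Finset (ZMod (q ^ a))).filter
    (fun v => ((q ^ u : ℕ) : ZMod (q ^ a)) * v = w)).card with hC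
  have hC0 : (C : ℂ) ≠ 0 := by
    rw [Nat.cast_ne_zero, hC]
    exact Finset.card_ne_zero_of_mem (mem_filter.2 ⟨mem_univ _, hv0⟩)
  have hL : ∑ v ∈ (univ : Finset (ZMod (q ^ a))).filter
      (fun v => ((q ^ u : ℕ) : ZMod (q ^ a)) * v = w), Wx (q ^ a) k x v = (C : ℂ) * c := by
    rw [hC, ← nsmul_eq_mul, ← Finset.sum_const]
    refine Finset.sum_congr rfl fun v hv => hc v ?_
    rintro rfl
    rw [mem_filter, mul_zero] at hv
    exact hw hv.2.symm
  have hz : ((q ^ a : ℕ) : ZMod (q ^ a)) = 0 := ZMod.natCast_self _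
  have hR : ∀ i ∈ range k, ∑ b ∈ (univ : Finset (ZMod (q ^ a))).filter
      (fun b => ((q ^ u : ℕ) : ZMod (q ^ a)) * (((i + 1 : ℕ) : ZMod (q ^ a)) * b) = w),
      (ZMod.stdAddChar (-(b * x)) : ℂ) * (eps (q ^ a) (addOrderOf b) (k - 1 - i) : ℂ) =
      if ¬ q ∣ i + 1 then (C : ℂ) *
        ((ZMod.stdAddChar (-((((i + 1 : ℕ) : ZMod (q ^ a))⁻¹) * (w * x'))) : ℂ) *
        (eps (q ^ a) (q ^ (u + 1)) (k - 1 - i) : ℂ)) else 0 := by
    intro i _
    by_cases hi : ¬ q ∣ i + 1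
    · rw [if_pos hi]
      obtain ⟨U, hU⟩ := unit_of (a := a) hq hi
      have hinv : (((i + 1 : ℕ) : ZMod (q ^ a)))⁻¹ = (U⁻¹ : (ZMod (q ^ a))ˣ) := by
        rw [← hU, ZMod.inv_coe_unit]
      have h2 : ∀ b ∈ (univ : Finset (ZMod (q ^ a))).filter
          (fun b => ((q ^ u : ℕ) : ZMod (q ^ a)) * (((i + 1 : ℕ) : ZMod (q ^ a)) * b) = w),
          (ZMod.stdAddChar (-(b * x)) : ℂ) * (eps (q ^ a) (addOrderOf b) (k - 1 - i) : ℂ) =
          (ZMod.stdAddChar (-((((i + 1 : ℕ) : ZMod (q ^ a))⁻¹) * (w * x'))) : ℂ) *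
            (eps (q ^ a) (q ^ (u + 1)) (k - 1 - i) : ℂ) := by
        intro b hb
        have hb' := (mem_filter.1 hb).2
        have h3 : ((q ^ u : ℕ) : ZMod (q ^ a)) * b =
            (((i + 1 : ℕ) : ZMod (q ^ a)))⁻¹ * w := by
          rw [hinv, ← hb', ← hU]
          rw [mul_left_comm _ (U : ZMod (q ^ a)) b, Units.inv_mul_cancel_left]
        have h4 : addOrderOf b = q ^ (u + 1) := by
          apply addOrderOf_eq_prime_pow
          · rw [nsmul_eq_mul, h3, hinv]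
            intro h5
            exact hw ((Units.mul_right_eq_zero _).1 h5)
          · rw [pow_succ, mul_comm, mul_nsmul', nsmul_eq_mul, nsmul_eq_mul, h3,
              mul_left_comm, hqw, mul_zero]
        rw [h4, hx, show b * (((q ^ u : ℕ) : ZMod (q ^ a)) * x') =
          (((q ^ u : ℕ) : ZMod (q ^ a)) * b) * x' by ring, h3, mul_assoc]
      rw [Finset.sum_congr rfl h2, Finset.sum_const, nsmul_eq_mul]
      congr 2
      rw [hC]
      refine Finset.card_nbij' (fun b => (U : ZMod (q ^ a)) * b)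
        (fun b => ((U⁻¹ : (ZMod (q ^ a))ˣ) : ZMod (q ^ a)) * b) ?_ ?_ ?_ ?_
      · intro b hb
        simp only [coe_filter, mem_univ, true_and, Set.mem_ofPred_eq] at hb ⊢
        rw [hU]
        exact hb
      · intro b hb
        simp only [coe_filter, mem_univ, true_and, Set.mem_ofPred_eq] at hb ⊢
        rw [← hU, Units.mul_inv_cancel_left]
        exact hb
      · intro b _
        exact Units.inv_mul_cancel_left U b
      · intro b _
        exact Units.mul_inv_cancel_left U b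
    · rw [if_neg hi]
      rw [not_not] at hi
      obtain ⟨j, hj⟩ := hi
      have hDh : ((q ^ (u + 1) : ℕ) : ZMod (q ^ a)) * ((q ^ (a - 1 - u) : ℕ) : ZMod (q ^ a)) = 0 := by
        rw [← Nat.cast_mul, ← pow_add, show u + 1 + (a - 1 - u) = a by omega, hz]
      have hDi : ∀ y : ZMod (q ^ a), ((q ^ u : ℕ) : ZMod (q ^ a)) *
          (((i + 1 : ℕ) : ZMod (q ^ a)) * y) =
          (j : ZMod (q ^ a)) * (((q ^ (u + 1) : ℕ) : ZMod (q ^ a)) * y) := by
        intro y
        rw [hj]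
        push_cast
        ring
      apply van _ x ((q ^ (a - 1 - u) : ℕ) : ZMod (q ^ a))
      · intro b
        simp only [mem_filter, mem_univ, true_and]
        rw [mul_add, mul_add, hDi ((q ^ (a - 1 - u) : ℕ) : ZMod (q ^ a)), hDh, mul_zero, add_zero]
      · intro b hb
        apply ord_shift hq (s := u + 1)
        · rw [nsmul_eq_mul, hDh]
        · rw [nsmul_eq_mul]
          intro h5
          have hb' := (mem_filter.1 hb).2
          rw [hDi, h5, mul_zero] at hb'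
          exact hw hb'.symm
      · rw [hx, ← mul_assoc, ← Nat.cast_mul, ← pow_add, show a - 1 - u + u = a - 1 by omega]
        exact hx0
  rw [hL, Finset.sum_congr rfl hR, ← Finset.sum_filter, ← Finset.mul_sum] at h1
  exact (mul_left_cancel₀ hC0 h1).symm

end Pool.Agent.H95.SD
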