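import Pool.Agent.H95.SD.PB

set_option autoImplicit false

/-! # Prime powers: the equidistribution -/

open Finset

namespace Pool.Agent.H95.SD

open Pool.Agent.V11199.SD (order_pos order_dvd norm_char)

lemma weighted {q a u k : ℕ} (hq : q.Prime) [NeZero (q ^ a)] (hu : u < a) {x x' : ZMod (q ^ a)}
    (hx : x = ((q ^ u : ℕ) : ZMod (q ^ a)) * x')
    (hx0 : ((q ^ (a - 1) : ℕ) : ZMod (q ^ a)) * x' ≠ 0)
    {c : ℂ} (hc : ∀ v, v ≠ 0 → Wx (q ^ a) k x v = c) (g : ZMod (q ^ a)) :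
    c * ((if g * (((q ^ (a - 1) : ℕ) : ZMod (q ^ a)) * x') = 0 then (q : ℂ) else 0) - 1) =
      ∑ i ∈ (range k).filter (fun i => ¬ q ∣ i + 1),
        ((if (g - (((i + 1 : ℕ) : ZMod (q ^ a)))⁻¹) *
          (((q ^ (a - 1) : ℕ) : ZMod (q ^ a)) * x') = 0 then (q : ℂ) else 0) - 1) *
        (eps (q ^ a) (q ^ (u + 1)) (k - 1 - i) : ℂ) := by
  have hz : ((q ^ a : ℕ) : ZMod (q ^ a)) = 0 := ZMod.natCast_self _
  have hqa : (q : ZMod (q ^ a)) * ((q ^ (a - 1) : ℕ) : ZMod (q ^ a)) = 0 := by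
    rw [← Nat.cast_mul, ← pow_succ', show a - 1 + 1 = a by omega, hz]
  set z := ((q ^ (a - 1) : ℕ) : ZMod (q ^ a)) * x' with hzd
  have hqz : ∀ y : ZMod (q ^ a), (q : ZMod (q ^ a)) * (y * z) = 0 := by
    intro y
    rw [hzd, show (q : ZMod (q ^ a)) * (y * (((q ^ (a - 1) : ℕ) : ZMod (q ^ a)) * x')) =
      (q : ZMod (q ^ a)) * ((q ^ (a - 1) : ℕ) : ZMod (q ^ a)) * (y * x') by ring, hqa, zero_mul]
  have h1 : ∀ t ∈ Ico 1 q, (ZMod.stdAddChar ((t : ZMod (q ^ a)) * (g * z)) : ℂ) * c =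
      ∑ i ∈ (range k).filter (fun i => ¬ q ∣ i + 1),
        (ZMod.stdAddChar ((t : ZMod (q ^ a)) * ((g - (((i + 1 : ℕ) : ZMod (q ^ a)))⁻¹) * z)) : ℂ) *
        (eps (q ^ a) (q ^ (u + 1)) (k - 1 - i) : ℂ) := by
    intro t ht
    rw [mem_Ico] at ht
    have hw : ((q ^ (a - 1) * t : ℕ) : ZMod (q ^ a)) ≠ 0 := by
      intro h
      rw [ZMod.natCast_eq_zero_iff] at h
      have h2 : q ^ (a - 1) * q ∣ q ^ (a - 1) * t := by
        rwa [← pow_succ, show a - 1 + 1 = a by omega]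
      have h3 := Nat.dvd_of_mul_dvd_mul_left (pow_pos hq.pos _) h2
      exact absurd (Nat.le_of_dvd (by omega) h3) (by omega)
    have hqw : (q : ZMod (q ^ a)) * ((q ^ (a - 1) * t : ℕ) : ZMod (q ^ a)) = 0 := by
      rw [Nat.cast_mul, ← mul_assoc, hqa, zero_mul]
    have hv0 : ((q ^ u : ℕ) : ZMod (q ^ a)) * ((q ^ (a - 1 - u) * t : ℕ) : ZMod (q ^ a)) =
        ((q ^ (a - 1) * t : ℕ) : ZMod (q ^ a)) := by
      rw [← Nat.cast_mul, ← mul_assoc, ← pow_add, show u + (a - 1 - u) = a - 1 by omega]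
    have h4 := star hq hu hx hx0 hc hw hqw hv0
    rw [← h4, Finset.mul_sum]
    refine Finset.sum_congr rfl fun i _ => ?_
    rw [← mul_assoc, ← AddChar.map_add_eq_mul]
    congr 2
    rw [hzd]
    push_cast
    ring
  have h2 := Finset.sum_congr (rfl : Ico 1 q = Ico 1 q) h1
  rw [← Finset.sum_mul, geo' hq.pos (hqz g), Finset.sum_comm] at h2
  rw [mul_comm, h2]
  refine Finset.sum_congr rfl fun i _ => ?_
  rw [← Finset.sum_mul, geo' hq.pos (hqz _)]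

lemma fval {q a u k : ℕ} (hq : q.Prime) [NeZero (q ^ a)] (hu : u < a) {x x' : ZMod (q ^ a)}
    (hx : x = ((q ^ u : ℕ) : ZMod (q ^ a)) * x')
    (hx0 : ((q ^ (a - 1) : ℕ) : ZMod (q ^ a)) * x' ≠ 0)
    {c : ℂ} (hc : ∀ v, v ≠ 0 → Wx (q ^ a) k x v = c) {γ : ℕ} (hγ : ¬ q ∣ γ) :
    ∑ i ∈ (range k).filter (fun i => (i + 1) % q = γ % q),
        (eps (q ^ a) (q ^ (u + 1)) (k - 1 - i) : ℂ) = -c := by
  haveI := Fact.mk hq
  have hz : ((q ^ a : ℕ) : ZMod (q ^ a)) = 0 := ZMod.natCast_self _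
  set z := ((q ^ (a - 1) : ℕ) : ZMod (q ^ a)) * x' with hzd
  have hordz : addOrderOf z = q := by
    apply addOrderOf_eq_prime _ hx0
    rw [nsmul_eq_mul, hzd, ← mul_assoc, ← Nat.cast_mul, ← pow_succ',
      show a - 1 + 1 = a by omega, hz, zero_mul]
  have h0 := weighted hq hu hx hx0 hc 0
  have h1 := weighted hq hu hx hx0 hc ((γ : ZMod (q ^ a))⁻¹)
  rw [← hzd] at h0 h1
  -- `g = 0`
  rw [zero_mul, if_pos rfl] at h0
  have h2 : ∀ i ∈ (range k).filter (fun i => ¬ q ∣ i + 1),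
      ((if (0 - (((i + 1 : ℕ) : ZMod (q ^ a)))⁻¹) * z = 0 then (q : ℂ) else 0) - 1) *
        (eps (q ^ a) (q ^ (u + 1)) (k - 1 - i) : ℂ) =
      -(eps (q ^ a) (q ^ (u + 1)) (k - 1 - i) : ℂ) := by
    intro i hi
    obtain ⟨V, hV⟩ := unit_of (a := a) hq (mem_filter.1 hi).2
    rw [if_neg]
    · ring
    · rw [← hV, ZMod.inv_coe_unit, zero_sub, neg_mul, neg_eq_zero, Units.mul_right_eq_zero]
      exact hx0
  rw [Finset.sum_congr rfl h2, Finset.sum_neg_distrib] at h0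
  -- `g = γ⁻¹`
  obtain ⟨U, hU⟩ := unit_of (a := a) hq hγ
  rw [if_neg (by
    rw [← hU, ZMod.inv_coe_unit, Units.mul_right_eq_zero]
    exact hx0)] at h1
  have h3 : ∀ i ∈ (range k).filter (fun i => ¬ q ∣ i + 1),
      ((if ((γ : ZMod (q ^ a))⁻¹ - (((i + 1 : ℕ) : ZMod (q ^ a)))⁻¹) * z = 0 then (q : ℂ)
        else 0) - 1) * (eps (q ^ a) (q ^ (u + 1)) (k - 1 - i) : ℂ) =
      (q : ℂ) * (if (i + 1) % q = γ % q then
        (eps (q ^ a) (q ^ (u + 1)) (k - 1 - i) : ℂ) else 0) -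
        (eps (q ^ a) (q ^ (u + 1)) (k - 1 - i) : ℂ) := by
    intro i hi
    obtain ⟨V, hV⟩ := unit_of (a := a) hq (mem_filter.1 hi).2
    have h4 : ((γ : ZMod (q ^ a))⁻¹ - (((i + 1 : ℕ) : ZMod (q ^ a)))⁻¹) * z = 0 ↔
        (i + 1) % q = γ % q := by
      have h5 : (i + 1) % q = γ % q ↔ (i + 1) • z = γ • z := by
        rw [nsmul_eq_nsmul_iff_modEq, hordz]
        rfl
      rw [h5, nsmul_eq_mul, nsmul_eq_mul, ← hU, ← hV, ZMod.inv_coe_unit, ZMod.inv_coe_unit,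
        sub_mul, sub_eq_zero]
      constructor
      · intro h
        have h6 := congrArg (fun y => (V : ZMod (q ^ a)) * ((U : ZMod (q ^ a)) * y)) h
        rw [Units.mul_inv_cancel_left, mul_left_comm (V : ZMod (q ^ a)) (U : ZMod (q ^ a)),
          Units.mul_inv_cancel_left] at h6
        exact h6
      · intro h
        have h6 := congrArg (fun y => ((V⁻¹ : (ZMod (q ^ a))ˣ) : ZMod (q ^ a)) *
          (((U⁻¹ : (ZMod (q ^ a))ˣ) : ZMod (q ^ a)) * y)) h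
        rw [Units.inv_mul_cancel_left, mul_left_comm, Units.inv_mul_cancel_left] at h6
        exact h6
    by_cases h5 : (i + 1) % q = γ % q
    · rw [if_pos (h4.2 h5), if_pos h5]
      ring
    · rw [if_neg (fun h => h5 (h4.1 h)), if_neg h5]
      ring
  rw [Finset.sum_congr rfl h3, Finset.sum_sub_distrib, ← Finset.mul_sum, ← Finset.sum_filter,
    Finset.filter_filter] at h1
  have h6 : (range k).filter (fun i => ¬ q ∣ i + 1 ∧ (i + 1) % q = γ % q) =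
      (range k).filter (fun i => (i + 1) % q = γ % q) := by
    apply Finset.filter_congr
    intro i _
    constructor
    · exact fun h => h.2
    · intro h
      refine ⟨fun h7 => hγ ?_, h⟩
      rw [Nat.dvd_iff_mod_eq_zero] at h7 ⊢
      rw [← h, h7]
  rw [h6] at h1
  have hq0 : (q : ℂ) ≠ 0 := Nat.cast_ne_zero.2 hq.ne_zero
  apply mul_left_cancel₀ hq0
  linear_combination -h1 + h0

end Pool.Agent.H95.SD
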