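import Pool.Agent.H95.SD.PC

set_option autoImplicit false

/-! # Prime powers: evaluation -/

open Finset

namespace Pool.Agent.H95.SD

open Pool.Agent.V11199.SD (order_pos order_dvd norm_char)

lemma per_card {d k : ℕ} (P : ℕ → Prop) [DecidablePred P] (hper : Function.Periodic P d)
    (hk : d ≤ k) : ((range d).filter (fun j => P (k - j))).card = d.count P := by
  rw [← Nat.filter_Ico_card_eq_of_periodic (k - d + 1) d P hper]
  refine Finset.card_nbij' (fun j => k - j) (fun c => k - c) ?_ ?_ ?_ ?_
  · intro j hj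
    simp only [coe_filter, mem_range, Set.mem_ofPred_eq, mem_Ico] at hj ⊢
    exact ⟨by omega, hj.2⟩
  · intro c hc
    simp only [coe_filter, mem_range, Set.mem_ofPred_eq, mem_Ico] at hc ⊢
    refine ⟨by omega, ?_⟩
    rw [show k - (k - c) = c by omega]
    exact hc.2
  · intro j hj
    simp only [coe_filter, mem_range, Set.mem_ofPred_eq] at hj
    show k - (k - j) = j
    omega
  · intro c hc
    simp only [coe_filter, Set.mem_ofPred_eq, mem_Ico] at hc
    show k - (k - c) = c
    omega

lemma split_gen {d m : ℕ} (P : ℕ → Prop) [DecidablePred P] (hper : Function.Periodic P d)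
    (hd : 0 < d) (hm : m < d) (κ : ℕ) : ∀ e : ℕ → ℤ,
    ∑ j ∈ range (d * κ + m), (if P (d * κ + m - j) then e (j / d) else 0) =
      (d.count P : ℤ) * ∑ l ∈ range κ, e l +
        e κ * (((Icc 1 m).filter (fun c => P c)).card : ℤ) := by
  induction κ with
  | zero =>
    intro e
    rw [mul_zero, zero_add, Finset.range_zero, Finset.sum_empty, mul_zero, zero_add]
    have h1 : ∀ j ∈ range m, (if P (m - j) then e (j / d) else 0) =
        if P (m - j) then e 0 else 0 := by
      intro j hj
      rw [Nat.div_eq_of_lt ((mem_range.1 hj).trans hm)]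
    rw [Finset.sum_congr rfl h1, ← Finset.sum_filter, Finset.sum_const, nsmul_eq_mul, mul_comm]
    congr 2
    refine Finset.card_nbij' (fun j => m - j) (fun c => m - c) ?_ ?_ ?_ ?_
    · intro j hj
      simp only [coe_filter, mem_range, Set.mem_ofPred_eq, mem_Icc] at hj ⊢
      exact ⟨by omega, hj.2⟩
    · intro c hc
      simp only [coe_filter, mem_range, Set.mem_ofPred_eq, mem_Icc] at hc ⊢
      refine ⟨by omega, ?_⟩
      rw [show m - (m - c) = c by omega]
      exact hc.2
    · intro j hj
      simp only [coe_filter, mem_range, Set.mem_ofPred_eq] at hj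
      show m - (m - j) = j
      omega
    · intro c hc
      simp only [coe_filter, mem_Icc, Set.mem_ofPred_eq] at hc
      show m - (m - c) = c
      omega
  | succ κ ih =>
    intro e
    rw [show d * (κ + 1) + m = d + (d * κ + m) by ring, Finset.sum_range_add]
    have h1 : ∀ j ∈ range d, (if P (d + (d * κ + m) - j) then e (j / d) else 0) =
        if P (d + (d * κ + m) - j) then e 0 else 0 := by
      intro j hj
      rw [Nat.div_eq_of_lt (mem_range.1 hj)]
    have h2 : ∀ j ∈ range (d * κ + m), (if P (d + (d * κ + m) - (d + j)) then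
        e ((d + j) / d) else 0) =
        if P (d * κ + m - j) then (fun l => e (l + 1)) (j / d) else 0 := by
      intro j _
      rw [Nat.add_sub_add_left, Nat.add_div_left _ hd]
    rw [Finset.sum_congr rfl h1, Finset.sum_congr rfl h2, ih (fun l => e (l + 1)),
      ← Finset.sum_filter, Finset.sum_const, per_card P hper (by omega), nsmul_eq_mul,
      Finset.sum_range_succ']
    ring

lemma FS_split {d m κ M : ℕ} (P : ℕ → Prop) [DecidablePred P] (hper : Function.Periodic P d)
    (hd : 0 < d) (hm : m < d) :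
    ∑ i ∈ (range (d * κ + m)).filter (fun i => P (i + 1)), eps (d * M) d (d * κ + m - 1 - i) =
      (d.count P : ℤ) * ∑ l ∈ range κ, (-1) ^ l * ((M - 1).choose l : ℤ) +
      (-1) ^ κ * ((M - 1).choose κ : ℤ) * (((Icc 1 m).filter (fun c => P c)).card : ℤ) := by
  rw [← split_gen P hper hd hm κ (fun l => (-1) ^ l * ((M - 1).choose l : ℤ))]
  rw [Finset.sum_filter, ← Finset.sum_range_reflect]
  refine Finset.sum_congr rfl fun j hj => ?_
  have hj' := mem_range.1 hj
  rw [show d * κ + m - 1 - j + 1 = d * κ + m - j by omega,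
    show d * κ + m - 1 - (d * κ + m - 1 - j) = j by omega, eps, Nat.mul_div_cancel_left _ hd]

lemma icc_count {q m γ : ℕ} (hq : 0 < q) (hγ : γ % q ≠ 0) :
    ((Icc 1 m).filter (fun c => c % q = γ % q)).card =
      (m + 1) / q + if γ % q < (m + 1) % q then 1 else 0 := by
  rw [← Nat.count_modEq_card _ hq, Nat.count_eq_card_filter_range]
  congr 1
  ext c
  simp only [mem_filter, mem_Icc, mem_range, Nat.ModEq]
  constructor
  · rintro ⟨h1, h2⟩
    exact ⟨by omega, h2⟩
  · rintro ⟨h1, h2⟩
    refine ⟨⟨?_, by omega⟩, h2⟩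
    rcases Nat.eq_zero_or_pos c with h | h
    · rw [h, Nat.zero_mod] at h2
      exact absurd h2.symm hγ
    · exact h

lemma per_mod {q γ u : ℕ} : Function.Periodic (fun c => c % q = γ % q) (q ^ (u + 1)) := by
  intro c
  show ((c + q ^ (u + 1)) % q = γ % q) = (c % q = γ % q)
  rw [pow_succ, Nat.add_mul_mod_self_right]

lemma cnt_mod {q γ u : ℕ} (hq : 0 < q) : (q ^ (u + 1)).count (fun c => c % q = γ % q) = q ^ u := by
  have h := Nat.count_modEq_card (q ^ (u + 1)) hq γ
  have h2 : q ^ (u + 1) % q = 0 := by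
    rw [pow_succ, Nat.mul_mod_left]
  rw [h2, pow_succ, Nat.mul_div_cancel _ hq] at h
  simp only [Nat.not_lt_zero, if_false, add_zero] at h
  rw [pow_succ]
  exact h

/-- the value of the sum over a residue class -/
lemma f_eval {q a u k γ : ℕ} (hq : 0 < q) (hu : u < a) (hγ : γ % q ≠ 0) :
    ∑ i ∈ (range k).filter (fun i => (i + 1) % q = γ % q), eps (q ^ a) (q ^ (u + 1)) (k - 1 - i) =
      ((q ^ u : ℕ) : ℤ) * ∑ l ∈ range (k / q ^ (u + 1)),
        (-1) ^ l * ((q ^ (a - u - 1) - 1).choose l : ℤ) +
      (-1) ^ (k / q ^ (u + 1)) * ((q ^ (a - u - 1) - 1).choose (k / q ^ (u + 1)) : ℤ) *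
        (((k % q ^ (u + 1) + 1) / q + if γ % q < (k % q ^ (u + 1) + 1) % q then 1 else 0 : ℕ) : ℤ) := by
  have hd : 0 < q ^ (u + 1) := pow_pos hq _
  have h := FS_split (d := q ^ (u + 1)) (m := k % q ^ (u + 1)) (κ := k / q ^ (u + 1))
    (M := q ^ (a - u - 1)) (fun c => c % q = γ % q) per_mod hd (Nat.mod_lt _ hd)
  rw [cnt_mod hq, icc_count hq hγ, Nat.div_add_mod, ← pow_add,
    show u + 1 + (a - u - 1) = a by omega] at h
  exact h

end Pool.Agent.H95.SD
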