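import Pool.Agent.H95.SD.PD

set_option autoImplicit false

/-! # Prime powers: the consequences -/

open Finset

namespace Pool.Agent.H95.SD

open Pool.Agent.V11199.SD (order_pos order_dvd norm_char)

lemma f_int {q a u k : ℕ} (hq : q.Prime) [NeZero (q ^ a)] (hu : u < a) {x x' : ZMod (q ^ a)}
    (hx : x = ((q ^ u : ℕ) : ZMod (q ^ a)) * x')
    (hx0 : ((q ^ (a - 1) : ℕ) : ZMod (q ^ a)) * x' ≠ 0)
    {c : ℂ} (hc : ∀ v, v ≠ 0 → Wx (q ^ a) k x v = c) {γ : ℕ} (hγ : γ % q ≠ 0) :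
    ((((q ^ u : ℕ) : ℤ) * ∑ l ∈ range (k / q ^ (u + 1)),
        (-1) ^ l * ((q ^ (a - u - 1) - 1).choose l : ℤ) +
      (-1) ^ (k / q ^ (u + 1)) * ((q ^ (a - u - 1) - 1).choose (k / q ^ (u + 1)) : ℤ) *
        (((k % q ^ (u + 1) + 1) / q + if γ % q < (k % q ^ (u + 1) + 1) % q then 1 else 0 : ℕ) : ℤ)
          : ℤ) : ℂ) = -c := by
  rw [← f_eval hq.pos hu hγ, ← fval hq hu hx hx0 hc (γ := γ) (by
    rwa [Nat.dvd_iff_mod_eq_zero])]
  push_cast
  rfl

lemma kap_lt {q a u k : ℕ} (hu : u < a) (hk : k < q ^ a) :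
    k / q ^ (u + 1) < q ^ (a - u - 1) := by
  apply Nat.div_lt_of_lt_mul
  rwa [← pow_add, show u + 1 + (a - u - 1) = a by omega]

lemma BB_ne {q a u k : ℕ} (hu : u < a) (hk : k < q ^ a) :
    ((-1) ^ (k / q ^ (u + 1)) * ((q ^ (a - u - 1) - 1).choose (k / q ^ (u + 1)) : ℤ)) ≠ 0 := by
  have h := kap_lt hu hk
  apply mul_ne_zero (pow_ne_zero _ (by norm_num))
  rw [Nat.cast_ne_zero]
  exact (Nat.choose_pos (by omega)).ne'

lemma c1 {q a u k : ℕ} (hq : q.Prime) (hq3 : 3 ≤ q) [NeZero (q ^ a)] (hu : u < a)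
    {x x' : ZMod (q ^ a)} (hx : x = ((q ^ u : ℕ) : ZMod (q ^ a)) * x')
    (hx0 : ((q ^ (a - 1) : ℕ) : ZMod (q ^ a)) * x' ≠ 0)
    {c : ℂ} (hc : ∀ v, v ≠ 0 → Wx (q ^ a) k x v = c) (hk : k < q ^ a) :
    k % q = 0 ∨ k % q = q - 1 := by
  have h1q : 1 % q = 1 := Nat.mod_eq_of_lt (by omega)
  have h2q : (q - 1) % q = q - 1 := Nat.mod_eq_of_lt (by omega)
  have h1 := f_int hq hu hx hx0 hc (γ := 1) (by omega)
  have h2 := f_int hq hu hx hx0 hc (γ := q - 1) (by omega)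
  rw [← h2] at h1
  have h3 := Int.cast_injective h1
  have h4 := mul_left_cancel₀ (BB_ne hu hk) (add_left_cancel h3)
  have h5 : (k % q ^ (u + 1) + 1) % q < q := Nat.mod_lt _ hq.pos
  rw [h1q, h2q, if_neg (show ¬ (q - 1 < (k % q ^ (u + 1) + 1) % q) by omega)] at h4
  have h6 : ¬ 1 < (k % q ^ (u + 1) + 1) % q := by
    intro h
    rw [if_pos h] at h4
    have := Nat.cast_injective h4
    omega
  have h7 : k % q ^ (u + 1) % q = k % q := Nat.mod_mod_of_dvd k (dvd_pow_self q (by omega))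
  have h8 : (k % q ^ (u + 1) + 1) % q = (k % q + 1) % q := by
    rw [Nat.add_mod, h7, h1q]
  rw [h8] at h6
  have h9 : k % q < q := Nat.mod_lt _ hq.pos
  rcases Nat.lt_or_ge (k % q + 1) q with h | h
  · rw [Nat.mod_eq_of_lt h] at h6
    omega
  · omega

lemma c_zero {q a u k : ℕ} (hq : q.Prime) [NeZero (q ^ a)] (hu : u + 1 < a)
    {x x' : ZMod (q ^ a)} (hx : x = ((q ^ u : ℕ) : ZMod (q ^ a)) * x')
    (hx0 : ((q ^ (a - 1) : ℕ) : ZMod (q ^ a)) * x' ≠ 0)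
    {c : ℂ} (hc : ∀ v, v ≠ 0 → Wx (q ^ a) k x v = c) : c = 0 := by
  have hz : ((q ^ a : ℕ) : ZMod (q ^ a)) = 0 := ZMod.natCast_self _
  set w : ZMod (q ^ a) := ((q ^ (u + 1) : ℕ) : ZMod (q ^ a)) with hwd
  have hw : w ≠ 0 := by
    intro h
    rw [hwd, ZMod.natCast_eq_zero_iff] at h
    have := (Nat.pow_dvd_pow_iff_le_right hq.one_lt).1 h
    omega
  have h1 := sum_fib (k := k) (D := q ^ (u + 1)) x w
  have hL : ∑ v ∈ (univ : Finset (ZMod (q ^ a))).filter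
      (fun v => ((q ^ (u + 1) : ℕ) : ZMod (q ^ a)) * v = w), Wx (q ^ a) k x v =
      (((univ : Finset (ZMod (q ^ a))).filter
      (fun v => ((q ^ (u + 1) : ℕ) : ZMod (q ^ a)) * v = w)).card : ℂ) * c := by
    rw [← nsmul_eq_mul, ← Finset.sum_const]
    refine Finset.sum_congr rfl fun v hv => hc v ?_
    rintro rfl
    rw [mem_filter, mul_zero] at hv
    exact hw hv.2.symm
  have hDh : ((q ^ (u + 1) : ℕ) : ZMod (q ^ a)) * ((q ^ (a - 1 - u) : ℕ) : ZMod (q ^ a)) = 0 := by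
    rw [← Nat.cast_mul, ← pow_add, show u + 1 + (a - 1 - u) = a by omega, hz]
  have hR : ∀ i ∈ range k, ∑ b ∈ (univ : Finset (ZMod (q ^ a))).filter
      (fun b => ((q ^ (u + 1) : ℕ) : ZMod (q ^ a)) * (((i + 1 : ℕ) : ZMod (q ^ a)) * b) = w),
      (ZMod.stdAddChar (-(b * x)) : ℂ) * (eps (q ^ a) (addOrderOf b) (k - 1 - i) : ℂ) = 0 := by
    intro i _
    apply van _ x ((q ^ (a - 1 - u) : ℕ) : ZMod (q ^ a))
    · intro b
      simp only [mem_filter, mem_univ, true_and]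
      rw [mul_add, mul_add, mul_left_comm _ ((i + 1 : ℕ) : ZMod (q ^ a))
        ((q ^ (a - 1 - u) : ℕ) : ZMod (q ^ a)), hDh, mul_zero, add_zero]
    · intro b hb
      apply ord_shift hq (s := u + 1)
      · rw [nsmul_eq_mul, hDh]
      · rw [nsmul_eq_mul]
        intro h5
        have hb' := (mem_filter.1 hb).2
        rw [mul_left_comm, h5, mul_zero] at hb'
        exact hw hb'.symm
    · rw [hx, ← mul_assoc, ← Nat.cast_mul, ← pow_add, show a - 1 - u + u = a - 1 by omega]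
      exact hx0
  rw [hL, Finset.sum_congr rfl hR, Finset.sum_const_zero] at h1
  refine (mul_eq_zero.1 h1).resolve_left ?_
  rw [Nat.cast_eq_zero]
  refine Finset.card_ne_zero_of_mem (a := (1 : ZMod (q ^ a))) (mem_filter.2 ⟨mem_univ _, ?_⟩)
  rw [mul_one]

lemma c2a {q a u k : ℕ} (hq : q.Prime) (hq3 : 3 ≤ q) [NeZero (q ^ a)] (hu : u + 1 < a)
    {x x' : ZMod (q ^ a)} (hx : x = ((q ^ u : ℕ) : ZMod (q ^ a)) * x')
    (hx0 : ((q ^ (a - 1) : ℕ) : ZMod (q ^ a)) * x' ≠ 0)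
    {c : ℂ} (hc : ∀ v, v ≠ 0 → Wx (q ^ a) k x v = c) (hk0 : 0 < k) (hk : k < q ^ a)
    (hkq : k % q = 0) : False := by
  have h1q : 1 % q = 1 := Nat.mod_eq_of_lt (by omega)
  have h1 := f_int hq (by omega : u < a) hx hx0 hc (γ := 1) (by omega)
  rw [c_zero hq hu hx hx0 hc, neg_zero, Int.cast_eq_zero] at h1
  have hB := BB_ne (u := u) (by omega) hk
  have h7 : k % q ^ (u + 1) % q = k % q := Nat.mod_mod_of_dvd k (dvd_pow_self q (by omega))
  set m := k % q ^ (u + 1) with hm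
  set κ := k / q ^ (u + 1) with hκ
  have hm1 : (m + 1) % q = 1 := by
    rw [Nat.add_mod, h7, hkq, h1q, zero_add, h1q]
  have hm2 : (m + 1) / q = m / q := by
    have h3 : m % q = 0 := by rw [h7, hkq]
    rw [Nat.succ_div, if_neg, add_zero]
    rw [Nat.dvd_iff_mod_eq_zero, hm1]
    exact one_ne_zero
  rw [h1q, hm1, if_neg (lt_irrefl 1), hm2, add_zero] at h1
  obtain ⟨N, hN⟩ : ∃ N, q ^ (a - u - 1) = N + 1 :=
    ⟨q ^ (a - u - 1) - 1, by have := pow_pos hq.pos (a - u - 1); omega⟩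
  rw [hN, Nat.add_sub_cancel] at h1 hB
  have h2 := alt_mul N κ
  have h3 : ((-1) ^ κ * (N.choose κ : ℤ)) * ((N : ℤ) * ((m / q : ℕ) : ℤ) - ((q ^ u : ℕ) : ℤ) * κ) = 0 := by
    linear_combination (N : ℤ) * h1 - ((q ^ u : ℕ) : ℤ) * h2
  have h4 := (mul_eq_zero.1 h3).resolve_left hB
  have h5 : N * (m / q) = q ^ u * κ := by
    have h6 := sub_eq_zero.1 h4
    exact_mod_cast h6
  have hcop : Nat.Coprime (q ^ u) N := by
    apply Nat.Coprime.pow_left
    rw [Nat.Prime.coprime_iff_not_dvd hq]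
    intro h
    have h8 : q ∣ N + 1 := by
      rw [← hN]
      exact dvd_pow_self q (by omega)
    have := (Nat.dvd_add_right h).1 h8
    exact absurd (Nat.le_of_dvd one_pos this) (by omega)
  have h8 : q ^ u ∣ m / q := hcop.dvd_of_dvd_mul_left ⟨κ, h5⟩
  have h9 : m / q < q ^ u := by
    apply Nat.div_lt_of_lt_mul
    rw [← pow_succ', hm]
    exact Nat.mod_lt _ (pow_pos hq.pos _)
  have h10 : m / q = 0 := Nat.eq_zero_of_dvd_of_lt h8 h9
  rw [h10, mul_zero] at h5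
  have h11 : κ = 0 := by
    rcases Nat.mul_eq_zero.1 h5.symm with h | h
    · exact absurd h (pow_pos hq.pos _).ne'
    · exact h
  have h12 : m = 0 := by
    have := Nat.div_add_mod m q
    rw [h10, h7, hkq] at this
    omega
  have h13 := Nat.div_add_mod k (q ^ (u + 1))
  rw [← hκ, ← hm, h11, h12] at h13
  omega

end Pool.Agent.H95.SD
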