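import Pool.Agent.H95.SD.PE

set_option autoImplicit false

/-! # Prime powers: elements `x` of the order `q` -/

open Finset

namespace Pool.Agent.H95.SD

open Pool.Agent.V11199.SD (order_pos order_dvd norm_char)

lemma Ph_pp {q e y : ℕ} (hq : q.Prime) (he : 0 < e) : Ph y (q ^ e) + y / q = y := by
  have h1 : Ph y (q ^ e) = Ph y q := by
    unfold Ph
    congr 1
    apply Finset.filter_congr
    intro c _
    exact Nat.coprime_pow_left_iff he q c
  have h2 := sum_Ph (r := q) (y := y) hq.pos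
  rw [hq.divisors, Finset.sum_pair hq.one_lt.ne, Nat.div_one, Nat.div_self hq.pos, Nat.div_one] at h2
  have h3 : Ph (y / q) 1 = y / q := by
    unfold Ph
    rw [Finset.filter_true_of_mem (fun c _ => Nat.coprime_one_left c), Nat.card_Icc,
      Nat.add_sub_cancel]
  rw [h1]
  omega

lemma ram_r {q b : ℕ} (hq : q.Prime) [NeZero (q ^ (b + 2))] {x x' : ZMod (q ^ (b + 2))}
    (hx : x = ((q ^ (b + 1) : ℕ) : ZMod (q ^ (b + 2))) * x') :
    Ram (q ^ (b + 2)) (q ^ (b + 1)) x = ((q ^ (b + 1)).totient : ℂ) := by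
  unfold Ram
  rw [← card_ord (n := q ^ (b + 2)) (pow_dvd_pow q (by omega : b + 1 ≤ b + 2)),
    Finset.card_eq_sum_ones, Nat.cast_sum]
  refine Finset.sum_congr rfl fun a ha => ?_
  have h1 := (mem_filter.1 ha).2
  have h2 : a * x = 0 := by
    rw [hx, ← mul_assoc, mul_comm a, ← nsmul_eq_mul, ← h1, addOrderOf_nsmul_eq_zero, zero_mul]
  rw [h2, neg_zero, AddChar.map_zero_eq_one, Nat.cast_one]

lemma c2b {q b k : ℕ} (hq : q.Prime) (hq3 : 3 ≤ q) [NeZero (q ^ (b + 2))]
    {x x' : ZMod (q ^ (b + 2))} (hx : x = ((q ^ (b + 1) : ℕ) : ZMod (q ^ (b + 2))) * x')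
    (hx0 : ((q ^ (b + 2 - 1) : ℕ) : ZMod (q ^ (b + 2))) * x' ≠ 0)
    {c : ℂ} (hc : ∀ v, v ≠ 0 → Wx (q ^ (b + 2)) k x v = c) (hk0 : 0 < k) (hk : k < q ^ (b + 2))
    (hkq : k % q = 0) : False := by
  have h1q : 1 % q = 1 := Nat.mod_eq_of_lt (by omega)
  obtain ⟨K, rfl⟩ : ∃ K, k = q * K := ⟨k / q, by have := Nat.div_add_mod k q; omega⟩
  have hK0 : 0 < K := Nat.pos_of_mul_pos_left hk0 |> fun h => by
    rcases Nat.eq_zero_or_pos K with h' | h'
    · rw [h', mul_zero] at hk0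
      omega
    · exact h'
  -- the constant
  have hcK : c = -(K : ℂ) := by
    have h1 := f_int hq (by omega : b + 1 < b + 2) hx hx0 hc (γ := 1) (by omega)
    rw [show b + 1 + 1 = b + 2 by omega, Nat.div_eq_of_lt hk, Nat.mod_eq_of_lt hk,
      show b + 2 - (b + 1) - 1 = 0 by omega, h1q] at h1
    have h2 : (q * K + 1) % q = 1 := by
      rw [Nat.mul_add_mod, h1q]
    have h3 : (q * K + 1) / q = K := by
      rw [Nat.mul_add_div hq.pos, Nat.div_eq_of_lt hq.one_lt, add_zero]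
    rw [h2, h3, if_neg (lt_irrefl 1)] at h1
    simp only [Finset.range_zero, Finset.sum_empty, mul_zero, pow_zero, Nat.sub_self,
      Nat.choose_self, Nat.cast_one, one_mul, zero_add, add_zero, Int.cast_natCast] at h1
    rw [h1, neg_neg]
  -- the order `n`
  have hsum : ∀ j, 0 < j → j ≤ b + 2 →
      ∑ v ∈ (univ : Finset (ZMod (q ^ (b + 2)))).filter (fun v => addOrderOf v = q ^ j),
        Wx (q ^ (b + 2)) (q * K) x v = ((q ^ j).totient : ℂ) * c := by
    intro j hj hj2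
    rw [← card_ord (n := q ^ (b + 2)) (pow_dvd_pow q hj2), ← nsmul_eq_mul, ← Finset.sum_const]
    refine Finset.sum_congr rfl fun v hv => hc v ?_
    rintro rfl
    rw [mem_filter, addOrderOf_zero] at hv
    exact absurd hv.2.symm (Nat.one_lt_pow hj.ne' hq.one_lt).ne'
  have hn := sum_Wx (n := q ^ (b + 2)) (k := q * K) x (q ^ (b + 2))
  rw [hsum (b + 2) (by omega) le_rfl, Nat.sum_divisors_prime_pow hq, Finset.sum_range_succ,
    Finset.sum_eq_zero, zero_add] at hn
  swap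
  · intro i hi
    rw [mem_range] at hi
    rw [HH_ndvd, Int.cast_zero, mul_zero]
    intro h
    have := (Nat.pow_dvd_pow_iff_le_right hq.one_lt).1 h
    omega
  have hr := sum_Wx (n := q ^ (b + 2)) (k := q * K) x (q ^ (b + 1))
  rw [hsum (b + 1) (by omega) (by omega), Nat.sum_divisors_prime_pow hq, Finset.sum_range_succ,
    Finset.sum_range_succ, Finset.sum_eq_zero, zero_add] at hr
  swap
  · intro i hi
    rw [mem_range] at hi
    rw [HH_ndvd, Int.cast_zero, mul_zero]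
    intro h
    have := (Nat.pow_dvd_pow_iff_le_right hq.one_lt).1 h
    omega
  have hT1 := HH_top (r := q ^ (b + 2)) (s := 1) (k := q * K) (pow_pos hq.pos _) one_pos
    (by rwa [mul_one])
  rw [mul_one, Nat.div_one] at hT1
  have hT2 := HH_top (r := q ^ (b + 1)) (s := q) (k := q * K) (pow_pos hq.pos _) hq.pos
    (by rwa [← pow_succ])
  rw [← pow_succ, Nat.mul_div_cancel_left _ hq.pos] at hT2
  rw [show q ^ (b + 1 + 1) = q ^ (b + 2) by rfl] at hT2
  have hP1 := Ph_pp (y := q * K) hq (by omega : 0 < b + 2)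
  rw [Nat.mul_div_cancel_left _ hq.pos] at hP1
  have hP2 := Ph_pp (y := K) hq (by omega : 0 < b + 1)
  rw [hT1] at hn
  rw [ram_r hq hx, hT2] at hr
  set R := Ram (q ^ (b + 2)) (q ^ (b + 2)) x with hR
  set H := HH (q ^ (b + 2)) (q * K) (q ^ (b + 1)) (q ^ (b + 1)) with hH
  obtain ⟨p, hp⟩ : ∃ p, q = p + 1 := ⟨q - 1, by omega⟩
  have hφ1 : ((q ^ (b + 1)).totient : ℂ) = (q : ℂ) ^ b * p := by
    rw [Nat.totient_prime_pow_succ hq, show q - 1 = p by omega]
    push_cast
    rfl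
  have hφ2 : ((q ^ (b + 2)).totient : ℂ) = (q : ℂ) ^ (b + 1) * p := by
    rw [Nat.totient_prime_pow_succ hq, show q - 1 = p by omega]
    push_cast
    rfl
  have hp0 : (p : ℂ) ≠ 0 := Nat.cast_ne_zero.2 (by omega)
  have hKc : (K : ℂ) ≠ 0 := Nat.cast_ne_zero.2 (by omega)
  have hq0 : (q : ℂ) ≠ 0 := Nat.cast_ne_zero.2 hq.ne_zero
  have hqp : (q : ℂ) = p + 1 := by
    rw [hp]
    push_cast
    rfl
  have hP1c : ((Ph (q * K) (q ^ (b + 2)) : ℕ) : ℂ) = p * K := by
    have h := congrArg (Nat.cast : ℕ → ℂ) hP1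
    push_cast at h
    rw [hqp] at h
    linear_combination h
  have hRv : R = -(q : ℂ) ^ (b + 1) := by
    apply mul_right_cancel₀ (mul_ne_zero hp0 hKc)
    have h := hn
    rw [hφ2, hcK, Int.cast_natCast, hP1c] at h
    linear_combination -h
  have hP2c : ((Ph K (q ^ (b + 1)) : ℕ) : ℂ) = K - ((K / q : ℕ) : ℂ) := by
    have h := congrArg (Nat.cast : ℕ → ℂ) hP2
    push_cast at h
    linear_combination h
  have hmain : (p : ℂ) * (H : ℂ) = ((K % q : ℕ) : ℂ) := by
    apply mul_left_cancel₀ (pow_ne_zero b hq0)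
    have h := hr
    rw [hφ1, hcK, hRv, Int.cast_natCast, hP2c] at h
    have h2 := congrArg (Nat.cast : ℕ → ℂ) (Nat.div_add_mod K q)
    rw [Nat.cast_add, Nat.cast_mul] at h2
    rw [hqp] at h h2 ⊢
    linear_combination -h - ((p : ℂ) + 1) ^ b * h2
  have hmainZ : (p : ℤ) * H = ((K % q : ℕ) : ℤ) := by
    apply Int.cast_injective (α := ℂ)
    rw [Int.cast_mul, Int.cast_natCast, Int.cast_natCast]
    exact hmain
  -- the value of `H`
  have hM := HH_mul (r := q ^ (b + 1)) (s := 1) (m := q * K % q ^ (b + 1))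
    (κ := q * K / q ^ (b + 1)) (M := q) (pow_pos hq.pos _) one_pos
    (by rw [mul_one]; exact Nat.mod_lt _ (pow_pos hq.pos _)) hq.pos
  rw [mul_one, Nat.div_one, Nat.div_add_mod, ← pow_succ,
    show q ^ (b + 1 + 1) = q ^ (b + 2) by rfl, ← hH, Nat.totient_prime_pow_succ hq] at hM
  set κ := q * K / q ^ (b + 1) with hκ
  have hκq : κ < q := by
    apply Nat.div_lt_of_lt_mul
    rwa [← pow_succ]
  have hmm : q * K % q ^ (b + 1) = q * (K % q ^ b) := by
    rw [pow_succ', Nat.mul_mod_mul_left]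
  have hP3 := Ph_pp (y := q * (K % q ^ b)) hq (by omega : 0 < b + 1)
  rw [Nat.mul_div_cancel_left _ hq.pos] at hP3
  rw [hmm] at hM
  set m1 := K % q ^ b with hm1
  have hm1lt : m1 < q ^ b := Nat.mod_lt _ (pow_pos hq.pos _)
  have hP3z : ((Ph (q * m1) (q ^ (b + 1)) : ℕ) : ℤ) = p * m1 := by
    have h := congrArg (Nat.cast : ℕ → ℤ) hP3
    rw [Nat.cast_add, Nat.cast_mul] at h
    have hqz : (q : ℤ) = p + 1 := by exact_mod_cast hp
    rw [hqz] at h
    linear_combination h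
  have hqz : (q : ℤ) = p + 1 := by exact_mod_cast hp
  rw [hP3z, show q - 1 = p by omega] at hM
  have hBX : ((K % q : ℕ) : ℤ) = p * (((-1) ^ κ * (p.choose κ : ℤ)) *
      ((p : ℤ) * m1 - (q : ℤ) ^ b * κ)) := by
    rw [← hmainZ]
    have : (p : ℤ) * H = ((q : ℤ) - 1) * H := by rw [hqz]; ring
    rw [this, hM]
    push_cast
    rw [hqz]
    ring
  set B : ℤ := (-1) ^ κ * (p.choose κ : ℤ) with hB
  have hchoose : 0 < p.choose κ := Nat.choose_pos (by omega)
  have hB0 : B ≠ 0 := by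
    apply mul_ne_zero (pow_ne_zero _ (by norm_num))
    rw [Nat.cast_ne_zero]
    exact hchoose.ne'
  set X : ℤ := (p : ℤ) * m1 - (q : ℤ) ^ b * κ with hX
  have hK1 : ((K % q : ℕ) : ℤ) ≤ p := by
    have := Nat.mod_lt K hq.pos
    omega
  have hK2 : (0 : ℤ) ≤ ((K % q : ℕ) : ℤ) := Nat.cast_nonneg _
  have hpz : (2 : ℤ) ≤ p := by omega
  rcases eq_or_ne X 0 with hX0 | hX0
  · -- `X = 0`
    have h1 : p * m1 = q ^ b * κ := by
      have h2 := sub_eq_zero.1 hX0
      exact_mod_cast h2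
    have hcop : Nat.Coprime (q ^ b) p := by
      apply Nat.Coprime.pow_left
      rw [Nat.Prime.coprime_iff_not_dvd hq]
      intro h
      exact absurd (Nat.le_of_dvd (by omega) h) (by omega)
    have h8 : q ^ b ∣ m1 := hcop.dvd_of_dvd_mul_left ⟨κ, h1⟩
    have h10 : m1 = 0 := Nat.eq_zero_of_dvd_of_lt h8 hm1lt
    rw [h10, mul_zero] at h1
    have h11 : κ = 0 := by
      rcases Nat.mul_eq_zero.1 h1.symm with h | h
      · exact absurd h (pow_pos hq.pos _).ne'
      · exact h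
    have h13 := Nat.div_add_mod (q * K) (q ^ (b + 1))
    rw [← hκ, hmm, h11, h10] at h13
    omega
  · have hBX1 : B * X = 1 := by
      have h1 : B * X ≠ 0 := mul_ne_zero hB0 hX0
      have h2 : 0 ≤ B * X := by
        by_contra h
        push Not at h
        nlinarith
      have h3 : B * X < 2 := by
        by_contra h
        push Not at h
        nlinarith
      omega
    have hBu : IsUnit B := IsUnit.of_mul_eq_one _ hBX1
    have hC1 : p.choose κ = 1 := by
      have h1 := Int.isUnit_iff_natAbs_eq.1 hBu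
      rw [hB, Int.natAbs_mul, Int.natAbs_pow, Int.natAbs_neg, Int.natAbs_one, one_pow, one_mul,
        Int.natAbs_natCast] at h1
      exact h1
    have hκ' : κ = 0 ∨ p = κ := Nat.choose_eq_one_iff.1 hC1
    have hXd : (p : ℤ) ∣ X := by
      rcases hκ' with h | h
      · rw [hX, h]
        exact ⟨m1, by push_cast; ring⟩
      · rw [hX, ← h]
        exact ⟨m1 - (q : ℤ) ^ b, by ring⟩
    have hXu : IsUnit X := IsUnit.of_mul_eq_one B (by rw [mul_comm]; exact hBX1)
    have h1 := isUnit_of_dvd_unit hXd hXu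
    rw [Int.isUnit_iff] at h1
    omega

end Pool.Agent.H95.SD
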