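import Pool.Agent.H95.SD.PF
import Pool.Agent.H95.SD.EvK

set_option autoImplicit false

/-! # Prime powers: the theorem -/

open Finset

namespace Pool.Agent.H95.SD

lemma pp_key {q a u k : ℕ} (hq : q.Prime) (hq3 : 3 ≤ q) [NeZero (q ^ a)] (hu : u < a)
    {x x' : ZMod (q ^ a)} (hx : x = ((q ^ u : ℕ) : ZMod (q ^ a)) * x')
    (hx0 : ((q ^ (a - 1) : ℕ) : ZMod (q ^ a)) * x' ≠ 0) (hk0 : 0 < k) (hk : k < q ^ a)
    (hkq : k % q = 0) (h : IsDes (q ^ a) k x) : False := by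
  obtain ⟨_, r, hr⟩ := h
  obtain ⟨c, hc⟩ := constx hk.le hr
  rcases Nat.lt_or_ge (u + 1) a with h1 | h1
  · exact c2a hq hq3 h1 hx hx0 hc hk0 hk hkq
  · rcases Nat.lt_or_ge 1 a with h2 | h2
    · obtain ⟨b, rfl⟩ : ∃ b, a = b + 2 := ⟨a - 2, by omega⟩
      have h3 : u = b + 1 := by omega
      subst h3
      exact c2b hq hq3 hx hx0 hc hk0 hk hkq
    · have h3 : a = 1 := by omega
      subst h3
      rw [pow_one] at hk
      rw [Nat.mod_eq_of_lt hk] at hkq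
      omega

/-- **Odd prime powers, `x ≠ 0`.** -/
theorem pp_nonzero {q a k : ℕ} (hq : q.Prime) (hq3 : 3 ≤ q) [NeZero (q ^ a)] (hk1 : 1 ≤ k)
    (hk : k ≤ q ^ a - 1) {x : ZMod (q ^ a)} (hx : x ≠ 0) : ¬ IsDes (q ^ a) k x := by
  intro h
  have hn0 : 0 < q ^ a := pow_pos hq.pos _
  have hodd : Odd (q ^ a) := (hq.odd_of_ne_two (by omega)).pow
  by_cases hk2 : k = q ^ a - 1
  · rw [hk2] at h
    have h1 := blk_full x h.1
    rw [sg_odd hodd] at h1
    exact hx h1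
  have hv : x.val ≠ 0 := by
    intro h1
    exact hx ((ZMod.val_eq_zero x).1 h1)
  obtain ⟨u, m, hm, hum⟩ := Nat.exists_eq_pow_mul_and_not_dvd hv q hq.ne_one
  have hu : u < a := by
    by_contra h1
    have h2 : q ^ a ∣ x.val := by
      rw [hum]
      exact (pow_dvd_pow q (by omega)).mul_right m
    exact absurd (Nat.le_of_dvd (Nat.pos_of_ne_zero hv) h2) (not_le.2 (ZMod.val_lt x))
  have hx1 : x = ((q ^ u : ℕ) : ZMod (q ^ a)) * (m : ZMod (q ^ a)) := by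
    rw [← Nat.cast_mul, ← hum, ZMod.natCast_zmod_val]
  have hx0 : ((q ^ (a - 1) : ℕ) : ZMod (q ^ a)) * (m : ZMod (q ^ a)) ≠ 0 := by
    rw [← Nat.cast_mul]
    intro h1
    rw [ZMod.natCast_eq_zero_iff] at h1
    have h2 : q ^ (a - 1) * q ∣ q ^ (a - 1) * m := by
      rwa [← pow_succ, show a - 1 + 1 = a by omega]
    exact hm (Nat.dvd_of_mul_dvd_mul_left (pow_pos hq.pos _) h2)
  have hh := h
  obtain ⟨_, r, hr⟩ := hh
  obtain ⟨c, hc⟩ := constx (by omega : k ≤ q ^ a) hr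
  rcases c1 hq hq3 hu hx1 hx0 hc (by omega) with h1 | h1
  · exact pp_key hq hq3 hu hx1 hx0 (by omega) (by omega) h1 h
  · have h2 := des_compl' hk h
    rw [sg_odd hodd, zero_sub] at h2
    apply pp_key hq hq3 hu (x := -x) (x' := -(m : ZMod (q ^ a))) (k := q ^ a - 1 - k) _ _ _ _ _ h2
    · rw [mul_neg, ← hx1]
    · rw [mul_neg]
      exact neg_ne_zero.2 hx0
    · omega
    · omega
    · have h3 : q ∣ q ^ a := dvd_pow_self q (by omega)
      have h4 : q ∣ k + 1 := by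
        have h5 := Nat.div_add_mod k q
        rw [h1] at h5
        refine ⟨k / q + 1, ?_⟩
        rw [mul_add, mul_one]
        omega
      rw [← Nat.dvd_iff_mod_eq_zero, show q ^ a - 1 - k = q ^ a - (k + 1) by omega]
      exact Nat.dvd_sub h3 h4

end Pool.Agent.H95.SD
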